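import Pool.Agent.Q218.BE.OneB

/-! All boxes simultaneously, for a general law. -/

set_option autoImplicit false
set_option linter.unusedSectionVars false

open scoped BigOperators Topology InnerProductSpace
open MeasureTheory Filter Set ProbabilityTheory

namespace Pool.Agent.Q218.BE

open Pool.Agent.H4R2.LO (Zd bx)
open Pool.Agent.H4R2.LO.Em (card_bx)
open Pool.Agent.Q218.AT
open Pool.Agent.Q218.AD (small_rpow)
open Pool.Agent.Q218.LE (S_SPL S_CUBE S_EXP Tail FreeE Good)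
open Pool.Agent.Q218.WE

/-- a union over the sizes -/
theorem union_L2 {Ω : Type*} [MeasurableSpace Ω] (P : Measure Ω) [IsProbabilityMeasure P]
    (B : ℕ → Set Ω) (N : ℕ) (A y : ℝ) (hy : 0 < y)
    (h : ∀ k : ℕ, P.real (B (N + k)) ≤ Real.exp (-(A + k * y))) :
    P.real (⋃ k, B (N + k)) ≤ (1 + 1 / y) * Real.exp (-A) := by
  have h0 : ∀ k : ℕ, Real.exp (-(A + k * y)) = Real.exp (-A) * Real.exp (-y) ^ k := by
    intro k
    rw [← Real.exp_nat_mul, ← Real.exp_add]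
    congr 1
    ring
  have he1 : Real.exp (-y) < 1 := by
    rw [Real.exp_lt_one_iff]
    linarith
  have hsum : Summable fun k : ℕ => Real.exp (-(A + k * y)) := by
    simp only [h0]
    exact (summable_geometric_of_lt_one (Real.exp_pos _).le he1).mul_left _
  have h1 : P (⋃ k, B (N + k)) ≤ ENNReal.ofReal (∑' k : ℕ, Real.exp (-(A + k * y))) := by
    rw [ENNReal.ofReal_tsum_of_nonneg (fun k => (Real.exp_pos _).le) hsum]
    refine (measure_iUnion_le _).trans (ENNReal.tsum_le_tsum fun k => ?_)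
    rw [← ENNReal.ofReal_toReal (measure_ne_top P (B (N + k)))]
    exact ENNReal.ofReal_le_ofReal (h k)
  have h2 : ∑' k : ℕ, Real.exp (-(A + k * y)) ≤ (1 + 1 / y) * Real.exp (-A) := by
    simp only [h0]
    rw [tsum_mul_left, tsum_geometric_of_lt_one (Real.exp_pos _).le he1, mul_comm]
    refine mul_le_mul_of_nonneg_right ?_ (Real.exp_pos _).le
    have h3 : Real.exp (-y) ≤ 1 / (1 + y) := by
      rw [Real.exp_neg, ← one_div]
      exact one_div_le_one_div_of_le (by linarith) (by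
        have := Real.add_one_le_exp y
        linarith)
    have h4 : y / (1 + y) ≤ 1 - Real.exp (-y) := by
      have : y / (1 + y) = 1 - 1 / (1 + y) := by
        field_simp
        ring
      linarith
    have h5 : 1 + 1 / y = (y / (1 + y))⁻¹ := by
      field_simp
      ring
    rw [h5]
    exact inv_anti₀ (by positivity) h4
  have h3 := ENNReal.toReal_mono ENNReal.ofReal_ne_top h1
  rw [ENNReal.toReal_ofReal (tsum_nonneg fun k => (Real.exp_pos _).le)] at h3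
  exact h3.trans h2

/-- the union over all boxes -/
theorem union_all2 (d : ℕ) (hd : 2 ≤ d) : ∃ l0 : ℝ, 0 < l0 ∧ ∀ lam : ℝ, 0 < lam → lam ≤ l0 →
    ∀ (P : Measure (Zd d → ℝ)) [IsProbabilityMeasure P] (B : Zd d → ℕ → Set (Zd d → ℝ)),
    (∀ (b : Zd d) (L : ℕ), lam ^ (-(5 / 2) : ℝ) ≤ L →
      P.real (B b L) ≤ Real.exp (-(lam ^ (9 / 4 * d : ℝ) * (bx b L).card))) →
    ∀ N : ℕ, lam ^ (-(5 / 2) : ℝ) ≤ N →
      P.real (⋃ k : ℕ, ⋃ b ∈ {b : Zd d | Real.log (1 + ‖b‖) ≤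
        lam ^ (12 / 5 * d : ℝ) * (bx b (N + k)).card}, B b (N + k)) ≤
        2 * lam ^ (-(5 / 2) : ℝ) *
          Real.exp (-(1 / 2 * (lam ^ (9 / 4 * d : ℝ) * (2 * (N : ℝ) + 1) ^ d))) := by
  have hd2 : (2 : ℝ) ≤ d := by exact_mod_cast hd
  have hd0 : (0 : ℝ) < d := by linarith
  obtain ⟨l1, hl1, hs1⟩ := small_rpow (3 / 10) (1 / (4 * d)) (by norm_num) (by positivity)
  obtain ⟨l2, hl2, hs2⟩ := small_rpow (1 / 2) (1 / (8 * d)) (by norm_num) (by positivity)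
  refine ⟨min l1 (min l2 1), by positivity, ?_⟩
  intro lam hlam hlam0 P _ B hB N hN
  have b1 : lam ≤ l1 := hlam0.trans (min_le_left _ _)
  have b2 : lam ≤ l2 := hlam0.trans ((min_le_right _ _).trans (min_le_left _ _))
  have b5 : lam ≤ 1 := hlam0.trans ((min_le_right _ _).trans (min_le_right _ _))
  obtain ⟨y, hy⟩ : ∃ y, y = lam ^ (5 / 2 - 1 / 4 * d : ℝ) := ⟨_, rfl⟩
  have hy0 : 0 < y := by rw [hy]; positivity
  have hy1 : 1 + 1 / y ≤ 2 * lam ^ (-(5 / 2) : ℝ) := by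
    have h1 : 1 / y = lam ^ (-(5 / 2) + 1 / 4 * d : ℝ) := by
      rw [hy, one_div, ← Real.rpow_neg hlam.le]
      congr 1
      ring
    have h2 : lam ^ (-(5 / 2) + 1 / 4 * d : ℝ) ≤ lam ^ (-(5 / 2) : ℝ) :=
      Real.rpow_le_rpow_of_exponent_ge hlam b5 (by linarith)
    have h3 : (1 : ℝ) ≤ lam ^ (-(5 / 2) : ℝ) :=
      Real.one_le_rpow_of_pos_of_le_one_of_nonpos hlam b5 (by norm_num)
    rw [h1]
    linarith
  refine le_trans (union_L2 P (fun L => ⋃ b ∈ {b : Zd d | Real.log (1 + ‖b‖) ≤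
        lam ^ (12 / 5 * d : ℝ) * (bx b L).card}, B b L) N
        (1 / 2 * (lam ^ (9 / 4 * d : ℝ) * (2 * (N : ℝ) + 1) ^ d)) y hy0 fun k => ?_)
    (mul_le_mul_of_nonneg_right hy1 (Real.exp_pos _).le)
  obtain ⟨L, hLd⟩ : ∃ L, L = N + k := ⟨_, rfl⟩
  rw [← hLd]
  have hLr : lam ^ (-(5 / 2) : ℝ) ≤ L := hN.trans (by
    rw [hLd]
    exact_mod_cast Nat.le_add_right _ _)
  obtain ⟨n, hn⟩ : ∃ n : ℝ, n = (2 * (L : ℝ) + 1) ^ d := ⟨_, rfl⟩
  have hcard : ∀ b : Zd d, ((bx b L).card : ℝ) = n := by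
    intro b
    rw [hn, card_bx]
    push_cast
    rfl
  have hn0 : 0 < n := by rw [hn]; positivity
  obtain ⟨R', hR'⟩ : ∃ R', R' = lam ^ (12 / 5 * d : ℝ) * n := ⟨_, rfl⟩
  have hR'0 : 0 ≤ R' := by rw [hR']; positivity
  obtain ⟨R, hR⟩ : ∃ R : ℕ, R = ⌊Real.exp R'⌋₊ := ⟨_, rfl⟩
  have hRe : (R : ℝ) ≤ Real.exp R' := by rw [hR]; exact Nat.floor_le (Real.exp_pos _).le
  have hsub : (⋃ b ∈ {b : Zd d | Real.log (1 + ‖b‖) ≤ lam ^ (12 / 5 * d : ℝ) * (bx b L).card},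
      B b L) ⊆ ⋃ b ∈ bx (0 : Zd d) R, B b L := by
    refine Set.biUnion_subset_biUnion_left fun b hb => ?_
    have hb1 : Real.log (1 + ‖b‖) ≤ R' := by
      rw [hR', ← hcard b]
      exact hb
    show b ∈ bx (0 : Zd d) R
    rw [mem_bx', sub_zero]
    have h2 : 1 + ‖b‖ ≤ Real.exp R' := by
      rw [← Real.log_le_iff_le_exp (by positivity)]
      exact hb1
    have h3 := Nat.lt_floor_add_one (Real.exp R')
    rw [← hR] at h3
    linarith
  refine (measureReal_mono hsub (measure_ne_top _ _)).trans ?_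
  refine (measureReal_biUnion_finset_le _ _).trans ?_
  refine (Finset.sum_le_sum fun b _ => hB b L hLr).trans ?_
  have h1 : ∀ b ∈ bx (0 : Zd d) R, Real.exp (-(lam ^ (9 / 4 * d : ℝ) * (bx b L).card)) =
      Real.exp (-(lam ^ (9 / 4 * d : ℝ) * n)) := fun b _ => by rw [hcard b]
  rw [Finset.sum_congr rfl h1, Finset.sum_const, nsmul_eq_mul, card_bx]
  have he : (1 : ℝ) ≤ Real.exp R' := Real.one_le_exp hR'0
  have h3e : (3 : ℝ) ≤ Real.exp 2 := by
    have := Real.add_one_le_exp (2 : ℝ)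
    linarith
  have h2 : (((2 * R + 1) ^ d : ℕ) : ℝ) ≤ Real.exp (d * (2 + R')) := by
    push_cast
    rw [Real.exp_nat_mul, Real.exp_add]
    refine pow_le_pow_left₀ (by positivity) ?_ d
    nlinarith
  refine (mul_le_mul_of_nonneg_right h2 (Real.exp_pos _).le).trans ?_
  rw [← Real.exp_add]
  apply Real.exp_le_exp.2
  obtain ⟨z, hz⟩ : ∃ z, z = lam ^ (9 / 4 * d : ℝ) * n := ⟨_, rfl⟩
  have hz0 : 0 < z := by rw [hz]; positivity
  have h5 : (d : ℝ) * R' ≤ 1 / 4 * z := by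
    have h6 : lam ^ (12 / 5 * d : ℝ) = lam ^ (3 / 20 * d : ℝ) * lam ^ (9 / 4 * d : ℝ) := by
      rw [← Real.rpow_add hlam]
      congr 1
      ring
    have h7 : lam ^ (3 / 20 * d : ℝ) ≤ 1 / (4 * d) := by
      refine le_trans ?_ (hs1 lam hlam b1)
      exact Real.rpow_le_rpow_of_exponent_ge hlam b5 (by linarith)
    rw [hR', h6, hz]
    calc (d : ℝ) * (lam ^ (3 / 20 * d : ℝ) * lam ^ (9 / 4 * d : ℝ) * n) =
        (d * lam ^ (3 / 20 * d : ℝ)) * (lam ^ (9 / 4 * d : ℝ) * n) := by ring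
      _ ≤ (d * (1 / (4 * d))) * (lam ^ (9 / 4 * d : ℝ) * n) := by gcongr
      _ = _ := by field_simp
  have h6 : 2 * (d : ℝ) ≤ 1 / 4 * z := by
    have h7 := card_low d lam hlam 0 L hLr
    rw [hcard, ← hz] at h7
    have h8 : lam ^ (-(1 / 2) : ℝ) ≤ z := by
      refine le_trans ?_ h7
      exact Real.rpow_le_rpow_of_exponent_ge hlam b5 (by linarith)
    have h9 : 8 * (d : ℝ) ≤ lam ^ (-(1 / 2) : ℝ) := by
      rw [Real.rpow_neg hlam.le, ← one_div, le_one_div (by positivity) (by positivity)]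
      exact hs2 lam hlam b2
    linarith
  have h7 : lam ^ (9 / 4 * d : ℝ) * (2 * (N : ℝ) + 1) ^ d + 2 * (k * y) ≤ z := by
    have h8 : (2 * (N : ℝ) + 1) ^ d + 2 * k * (lam ^ (-(5 / 2) : ℝ)) ^ (d - 1) ≤ n := by
      have h9 : (2 * (L : ℝ) + 1) = (2 * (N : ℝ) + 1) + 2 * k := by
        rw [hLd]
        push_cast
        ring
      obtain ⟨d', hd'⟩ : ∃ d', d = d' + 1 := ⟨d - 1, by omega⟩
      have h10 : d - 1 = d' := by omega
      rw [hn, h9, h10, hd', pow_succ, pow_succ]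
      have hN0 : (0 : ℝ) ≤ N := Nat.cast_nonneg N
      have hk0 : (0 : ℝ) ≤ k := Nat.cast_nonneg k
      have h11 : (lam ^ (-(5 / 2) : ℝ)) ^ d' ≤ (2 * (N : ℝ) + 1) ^ d' :=
        pow_le_pow_left₀ (by positivity) (by linarith) d'
      have h12 : (2 * (N : ℝ) + 1) ^ d' ≤ (2 * (N : ℝ) + 1 + 2 * k) ^ d' :=
        pow_le_pow_left₀ (by positivity) (by linarith) d'
      calc (2 * (N : ℝ) + 1) ^ d' * (2 * N + 1) + 2 * k * (lam ^ (-(5 / 2) : ℝ)) ^ d' ≤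
          (2 * (N : ℝ) + 1) ^ d' * (2 * N + 1) + 2 * k * (2 * (N : ℝ) + 1) ^ d' := by gcongr
        _ = (2 * (N : ℝ) + 1) ^ d' * (2 * N + 1 + 2 * k) := by ring
        _ ≤ _ := by gcongr
    have h9 : lam ^ (9 / 4 * d : ℝ) * (lam ^ (-(5 / 2) : ℝ)) ^ (d - 1) = y := by
      rw [hy, ← Real.rpow_natCast (lam ^ (-(5 / 2) : ℝ)), ← Real.rpow_mul hlam.le,
        ← Real.rpow_add hlam, Nat.cast_sub (by omega)]
      congr 1
      push_cast
      ring
    rw [hz]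
    calc lam ^ (9 / 4 * d : ℝ) * (2 * (N : ℝ) + 1) ^ d + 2 * (k * y) =
        lam ^ (9 / 4 * d : ℝ) * ((2 * (N : ℝ) + 1) ^ d + 2 * k *
          (lam ^ (-(5 / 2) : ℝ)) ^ (d - 1)) := by
          rw [← h9]
          ring
      _ ≤ _ := mul_le_mul_of_nonneg_left h8 (by positivity)
  rw [← hz]
  linarith

/-- **all boxes**, for a general conclusion -/
theorem all_gen2 (d : ℕ) (hd : 2 ≤ d) : ∃ l0 : ℝ, 0 < l0 ∧ ∀ lam : ℝ, 0 < lam → lam ≤ l0 →
    ∀ (μ : Measure ℝ) [IsProbabilityMeasure μ] (Gd : (Zd d → ℝ) → Zd d → ℕ → Prop),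
    (∀ (b : Zd d) (L : ℕ), lam ^ (-(5 / 2) : ℝ) ≤ L →
      ∃ G : Set (Zd d → ℝ), MeasurableSet G ∧
        (Measure.infinitePi fun _ : Zd d => μ).real Gᶜ ≤
          Real.exp (-(lam ^ (9 / 4 * d : ℝ) * (bx b L).card)) ∧
        ∀ ω ∈ G, Gd ω b L) →
    (∃ G : Set (Zd d → ℝ), MeasurableSet G ∧
      (Measure.infinitePi fun _ : Zd d => μ).real Gᶜ ≤
        Real.exp (-(lam ^ (-(1 / 5) * d : ℝ))) ∧
      ∀ ω ∈ G, ∀ (b : Zd d) (L : ℕ), lam ^ (-(5 / 2) : ℝ) ≤ L →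
        Real.log (1 + ‖b‖) ≤ lam ^ (12 / 5 * d : ℝ) * (bx b L).card → Gd ω b L) ∧
    (∀ᵐ ω ∂(Measure.infinitePi fun _ : Zd d => μ), ∃ L0 : ℕ, ∀ (b : Zd d) (L : ℕ), L0 ≤ L →
        Real.log (1 + ‖b‖) ≤ lam ^ (12 / 5 * d : ℝ) * (bx b L).card → Gd ω b L) := by
  have hd2 : (2 : ℝ) ≤ d := by exact_mod_cast hd
  obtain ⟨l2, hl2, hU⟩ := union_all2 d hd
  obtain ⟨l3, hl3, hs3⟩ := small_rpow (1 / 10) (1 / 4) (by norm_num) (by norm_num)
  obtain ⟨l4, hl4, hs4⟩ := small_rpow (1 / 2) (1 / (2 * 24 ^ 6)) (by norm_num) (by norm_num)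
  refine ⟨min l2 (min l3 (min l4 1)), by positivity, ?_⟩
  intro lam hlam hlam0 μ _ Gd hC'
  have b2 : lam ≤ l2 := hlam0.trans (min_le_left _ _)
  have b3 : lam ≤ l3 := hlam0.trans ((min_le_right _ _).trans (min_le_left _ _))
  have b4 : lam ≤ l4 := hlam0.trans ((min_le_right _ _).trans ((min_le_right _ _).trans
    (min_le_left _ _)))
  have b5 : lam ≤ 1 := hlam0.trans ((min_le_right _ _).trans ((min_le_right _ _).trans
    (min_le_right _ _)))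
  have hex : ∀ (b : Zd d) (L : ℕ), ∃ G : Set (Zd d → ℝ), MeasurableSet G ∧
      (lam ^ (-(5 / 2) : ℝ) ≤ L → (Measure.infinitePi fun _ : Zd d => μ).real Gᶜ ≤
          Real.exp (-(lam ^ (9 / 4 * d : ℝ) * (bx b L).card)) ∧
        ∀ ω ∈ G, Gd ω b L) := by
    intro b L
    by_cases hL : lam ^ (-(5 / 2) : ℝ) ≤ L
    · obtain ⟨G, hG, hP, hGd⟩ := hC' b L hL
      exact ⟨G, hG, fun _ => ⟨hP, hGd⟩⟩
    · exact ⟨Set.univ, MeasurableSet.univ, fun h => absurd h hL⟩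
  choose G hGm hG using hex
  obtain ⟨Bd, hBd⟩ : ∃ Bd : ℕ → Set (Zd d → ℝ), Bd = fun N => ⋃ k : ℕ, ⋃ b ∈ {b : Zd d |
    Real.log (1 + ‖b‖) ≤ lam ^ (12 / 5 * d : ℝ) * (bx b (N + k)).card}, (G b (N + k))ᶜ := ⟨_, rfl⟩
  have hBdm : ∀ N, MeasurableSet (Bd N) := by
    intro N
    rw [hBd]
    refine MeasurableSet.iUnion fun k => ?_
    exact MeasurableSet.biUnion (Set.to_countable _) fun b _ => (hGm b (N + k)).compl
  have hBdP : ∀ N : ℕ, lam ^ (-(5 / 2) : ℝ) ≤ N →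
      (Measure.infinitePi fun _ : Zd d => μ).real (Bd N) ≤ 2 * lam ^ (-(5 / 2) : ℝ) *
          Real.exp (-(1 / 2 * (lam ^ (9 / 4 * d : ℝ) * (2 * (N : ℝ) + 1) ^ d))) := by
    intro N hN
    rw [hBd]
    exact hU lam hlam b2 _ (fun b L => (G b L)ᶜ) (fun b L hL => (hG b L hL).1) N hN
  have hBdG : ∀ N : ℕ, lam ^ (-(5 / 2) : ℝ) ≤ N → ∀ ω, ω ∉ Bd N → ∀ (b : Zd d) (L : ℕ), N ≤ L →
      Real.log (1 + ‖b‖) ≤ lam ^ (12 / 5 * d : ℝ) * (bx b L).card → Gd ω b L := by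
    intro N hN ω hω b L hNL hb
    obtain ⟨k, rfl⟩ := Nat.exists_eq_add_of_le hNL
    have hNk : lam ^ (-(5 / 2) : ℝ) ≤ ((N + k : ℕ) : ℝ) := hN.trans (by exact_mod_cast hNL)
    refine (hG b (N + k) hNk).2 ω ?_
    by_contra hcon
    apply hω
    rw [hBd]
    exact Set.mem_iUnion.2 ⟨k, Set.mem_iUnion₂.2 ⟨b, hb, hcon⟩⟩
  refine ⟨?_, ?_⟩
  · obtain ⟨N, hN⟩ : ∃ N : ℕ, N = ⌈lam ^ (-(5 / 2) : ℝ)⌉₊ := ⟨_, rfl⟩
    have hNge : lam ^ (-(5 / 2) : ℝ) ≤ N := by rw [hN]; exact Nat.le_ceil _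
    refine ⟨(Bd N)ᶜ, (hBdm N).compl, ?_, ?_⟩
    · rw [compl_compl]
      refine (hBdP N hNge).trans ?_
      have h1 := card_low d lam hlam 0 N hNge
      have h2 : ((bx (0 : Zd d) N).card : ℝ) = (2 * (N : ℝ) + 1) ^ d := by
        rw [card_bx]
        push_cast
        rfl
      rw [h2] at h1
      obtain ⟨z, hz⟩ : ∃ z, z = lam ^ (-(1 / 4) * d : ℝ) := ⟨_, rfl⟩
      rw [← hz] at h1
      have hzy : lam ^ (-(1 / 2) : ℝ) ≤ z := by
        rw [hz]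
        exact Real.rpow_le_rpow_of_exponent_ge hlam b5 (by linarith)
      have h3 : 2 * lam ^ (-(5 / 2) : ℝ) ≤ Real.exp (1 / 4 * z) := by
        have h4 : Real.exp (1 / 4 * z) = Real.exp (z / 24) ^ 6 := by
          rw [← Real.exp_nat_mul]
          congr 1
          push_cast
          ring
        have h5 : lam ^ (-(1 / 2) : ℝ) / 24 ≤ Real.exp (z / 24) := by
          have h6 := Real.add_one_le_exp (z / 24)
          have h7 : lam ^ (-(1 / 2) : ℝ) / 24 ≤ z / 24 := by linarith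
          linarith
        rw [h4]
        refine le_trans ?_ (pow_le_pow_left₀ (by positivity) h5 6)
        rw [div_pow, ← Real.rpow_natCast (lam ^ (-(1 / 2) : ℝ)), ← Real.rpow_mul hlam.le,
          le_div_iff₀ (by norm_num)]
        have h6 := hs4 lam hlam b4
        rw [le_div_iff₀ (by norm_num)] at h6
        have h7 : lam ^ (-(5 / 2) : ℝ) = lam ^ (1 / 2 : ℝ) * lam ^ (-3 : ℝ) := by
          rw [← Real.rpow_add hlam]
          norm_num
        have h8 : lam ^ (-(1 / 2) * ((6 : ℕ) : ℝ) : ℝ) = lam ^ (-3 : ℝ) := by norm_num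
        rw [h8, h7]
        calc 2 * (lam ^ (1 / 2 : ℝ) * lam ^ (-3 : ℝ)) * 24 ^ 6 =
            (lam ^ (1 / 2 : ℝ) * (2 * 24 ^ 6)) * lam ^ (-3 : ℝ) := by ring
          _ ≤ 1 * lam ^ (-3 : ℝ) := mul_le_mul_of_nonneg_right h6 (by positivity)
          _ = _ := one_mul _
      have h4 : lam ^ (-(1 / 5) * d : ℝ) ≤ 1 / 4 * z := by
        have h5 : lam ^ (-(1 / 5) * d : ℝ) = lam ^ (1 / 20 * d : ℝ) * z := by
          rw [hz, ← Real.rpow_add hlam]
          congr 1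
          ring
        rw [h5]
        refine mul_le_mul_of_nonneg_right ?_ (by rw [hz]; positivity)
        refine le_trans ?_ (hs3 lam hlam b3)
        exact Real.rpow_le_rpow_of_exponent_ge hlam b5 (by linarith)
      calc 2 * lam ^ (-(5 / 2) : ℝ) *
          Real.exp (-(1 / 2 * (lam ^ (9 / 4 * d : ℝ) * (2 * (N : ℝ) + 1) ^ d))) ≤
          Real.exp (1 / 4 * z) * Real.exp (-(1 / 2 * z)) := by
            refine mul_le_mul h3 ?_ (Real.exp_pos _).le (Real.exp_pos _).le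
            apply Real.exp_le_exp.2
            linarith
        _ = Real.exp (-(1 / 4 * z)) := by
            rw [← Real.exp_add]
            congr 1
            ring
        _ ≤ _ := by
            apply Real.exp_le_exp.2
            linarith
    · intro ω hω b L hL hb
      refine hBdG N hNge ω hω b L ?_ hb
      rw [hN]
      exact Nat.ceil_le.2 hL
  · obtain ⟨N0, hN0⟩ : ∃ N : ℕ, N = ⌈lam ^ (-(5 / 2) : ℝ)⌉₊ := ⟨_, rfl⟩
    have hN0ge : lam ^ (-(5 / 2) : ℝ) ≤ N0 := by rw [hN0]; exact Nat.le_ceil _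
    have hge : ∀ k : ℕ, lam ^ (-(5 / 2) : ℝ) ≤ ((N0 + k : ℕ) : ℝ) := fun k =>
      hN0ge.trans (by push_cast; have : (0 : ℝ) ≤ k := Nat.cast_nonneg k; linarith)
    have hnull : (Measure.infinitePi fun _ : Zd d => μ) (⋂ k, Bd (N0 + k)) = 0 := by
      obtain ⟨q, hq⟩ : ∃ q, q = 1 / 2 * lam ^ (9 / 4 * d : ℝ) := ⟨_, rfl⟩
      have hq0 : 0 < q := by rw [hq]; positivity
      have h3 : (Measure.infinitePi fun _ : Zd d => μ).real (⋂ k, Bd (N0 + k)) ≤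
          2 * lam ^ (-(5 / 2) : ℝ) * 0 := by
        refine ge_of_tendsto' (x := atTop) (f := fun k : ℕ => 2 * lam ^ (-(5 / 2) : ℝ) *
          Real.exp (-(q * k))) ?_ ?_
        · refine Tendsto.const_mul _ ?_
          have h4 : Tendsto (fun k : ℕ => q * (k : ℝ)) atTop atTop :=
            tendsto_natCast_atTop_atTop.const_mul_atTop hq0
          exact Real.tendsto_exp_neg_atTop_nhds_zero.comp h4
        · intro k
          refine (measureReal_mono (Set.iInter_subset _ k) (measure_ne_top _ _)).trans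
            ((hBdP (N0 + k) (hge k)).trans ?_)
          refine mul_le_mul_of_nonneg_left ?_ (by positivity)
          apply Real.exp_le_exp.2
          have h5 : (k : ℝ) ≤ (2 * ((N0 + k : ℕ) : ℝ) + 1) ^ d := by
            have h6 : (1 : ℝ) ≤ 2 * ((N0 + k : ℕ) : ℝ) + 1 := by
              have : (0 : ℝ) ≤ ((N0 + k : ℕ) : ℝ) := Nat.cast_nonneg _
              linarith
            have h7 : (2 * ((N0 + k : ℕ) : ℝ) + 1) ^ 1 ≤ (2 * ((N0 + k : ℕ) : ℝ) + 1) ^ d :=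
              pow_le_pow_right₀ h6 (by omega)
            rw [pow_one] at h7
            refine le_trans ?_ h7
            push_cast
            have h8 : (0 : ℝ) ≤ N0 := Nat.cast_nonneg _
            have h9 : (0 : ℝ) ≤ k := Nat.cast_nonneg _
            linarith
          have h6 : q * (k : ℝ) ≤ 1 / 2 * (lam ^ (9 / 4 * d : ℝ) *
              (2 * ((N0 + k : ℕ) : ℝ) + 1) ^ d) := by
            rw [hq, mul_assoc]
            gcongr
          linarith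
      rw [mul_zero] at h3
      have h4 : (Measure.infinitePi fun _ : Zd d => μ).real (⋂ k, Bd (N0 + k)) = 0 :=
        le_antisymm h3 measureReal_nonneg
      rwa [measureReal_eq_zero_iff] at h4
    rw [ae_iff]
    refine measure_mono_null ?_ hnull
    intro ω hω
    rw [Set.mem_iInter]
    intro k
    by_contra hcon
    apply hω
    exact ⟨N0 + k, fun b L hL hb => hBdG (N0 + k) (hge k) ω hcon b L hL hb⟩

/-- the conclusion for a law -/
def ConclB (d : ℕ) (μ : Measure ℝ) : Prop :=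
  ∀ (R : ℕ) (κ ε : ℝ), 0 < κ → 0 < ε → ∃ l0 : ℝ, 0 < l0 ∧ ∀ lam : ℝ, 0 < lam → lam ≤ l0 →
    ∀ a0 : Zd d → ℝ, (∀ x, |a0 x| ≤ 1) →
    (∀ (b : Zd d) (L : ℕ), lam ^ (-(5 / 2) : ℝ) ≤ L →
      ∃ G : Set (Zd d → ℝ), MeasurableSet G ∧
        (Measure.infinitePi fun _ : Zd d => μ).real Gᶜ ≤
          Real.exp (-(lam ^ (9 / 4 * d : ℝ) * (bx b L).card)) ∧
        ∀ ω ∈ G, Good d lam (211 / 100) ε a0 ω b L ∧
          (3 ≤ d → GoodP d R κ lam (211 / 100) ε a0 ω b L)) ∧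
    (∃ G : Set (Zd d → ℝ), MeasurableSet G ∧
      (Measure.infinitePi fun _ : Zd d => μ).real Gᶜ ≤
        Real.exp (-(lam ^ (-(1 / 5) * d : ℝ))) ∧
      ∀ ω ∈ G, ∀ (b : Zd d) (L : ℕ), lam ^ (-(5 / 2) : ℝ) ≤ L →
        Real.log (1 + ‖b‖) ≤ lam ^ (12 / 5 * d : ℝ) * (bx b L).card →
          Good d lam (211 / 100) ε a0 ω b L ∧
            (3 ≤ d → GoodP d R κ lam (211 / 100) ε a0 ω b L)) ∧
    (∀ᵐ ω ∂(Measure.infinitePi fun _ : Zd d => μ), ∃ L0 : ℕ, ∀ (b : Zd d) (L : ℕ), L0 ≤ L →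
        Real.log (1 + ‖b‖) ≤ lam ^ (12 / 5 * d : ℝ) * (bx b L).card →
          Good d lam (211 / 100) ε a0 ω b L ∧
            (3 ≤ d → GoodP d R κ lam (211 / 100) ε a0 ω b L))

theorem conclB (hAMPZ : S_AMPZ) (hABEL : S_ABEL) (hLIPK : S_LIPK) (hPLA : S_PLA) (hOPN : S_OPN)
    (hEXPK : S_EXPK) (hDROP : S_DROP) (hSPL : S_SPL) (hCUBE : S_CUBE) (hEXP : S_EXP)
    (d : ℕ) (hd : 2 ≤ d) (G0 G1 : ℝ → ℝ) (hF : FreeE d G0 G1) (μ : Measure ℝ)
    [IsProbabilityMeasure μ] (B0 : ℝ) (hB0 : 0 < B0) (hbd : ∀ᵐ s ∂μ, |s| ≤ B0)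
    (M V : ℝ) (hV0 : 0 < V) (h1 : Integrable (fun s => s) μ)
    (h2 : Integrable (fun s => (s - M) ^ 2) μ) (hM : ∫ s, s ∂μ = M)
    (hV : ∫ s, (s - M) ^ 2 ∂μ = V) (hT : Tail d μ M) : ConclB d μ := by
  intro R κ ε hκ hε
  obtain ⟨l1, hl1, hC⟩ := oneBox hAMPZ hABEL hLIPK hPLA hOPN hEXPK hDROP hSPL hCUBE hEXP d hd
    G0 G1 hF μ B0 hB0 hbd M V hV0 h1 h2 hM hV hT R κ hκ ε hε
  obtain ⟨l2, hl2, hA⟩ := all_gen2 d hd
  refine ⟨min l1 l2, by positivity, ?_⟩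
  intro lam hlam hlam0 a0 ha0
  have b1 : lam ≤ l1 := hlam0.trans (min_le_left _ _)
  have b2 : lam ≤ l2 := hlam0.trans (min_le_right _ _)
  exact ⟨hC lam hlam b1 a0 ha0, hA lam hlam b2 μ (fun ω b L => Good d lam (211 / 100) ε a0 ω b L ∧
          (3 ≤ d → GoodP d R κ lam (211 / 100) ε a0 ω b L)) (hC lam hlam b1 a0 ha0)⟩

end Pool.Agent.Q218.BE
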