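import Pool.Agent.Q218.BE.Core

/-! The index of a block. -/

set_option autoImplicit false
set_option linter.unusedSectionVars false

open scoped BigOperators Topology InnerProductSpace
open MeasureTheory Filter Set ProbabilityTheory

namespace Pool.Agent.Q218.BE

open Pool.Agent.H4R2.LO (Zd bx)
open Pool.Agent.H4R2.LO.Em (card_bx)
open Pool.Agent.TH794.QD (Sol HS hmk hmk_apply hs_sum)
open Pool.Agent.Q218.AT
open Pool.Agent.Q218.AD (small_rpow)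
open Pool.Agent.Q218.WE

variable {d : ℕ}

/-- the index of the block of a point -/
def kx (b : Zd d) (ℓ : ℕ) (x : Zd d) : Zd d := fun i => (x i - b i + ℓ) / (2 * ℓ + 1)

theorem kx_mem (b : Zd d) (ℓ : ℕ) (x : Zd d) : x ∈ bx (ctr b ℓ (kx b ℓ x)) ℓ := by
  rw [mem_bxi]
  intro i
  have hpos : (0 : ℤ) < 2 * ℓ + 1 := by positivity
  have h1 := Int.emod_nonneg (x i - b i + ℓ) hpos.ne'
  have h2 := Int.emod_lt_of_pos (x i - b i + ℓ) hpos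
  have h3 := Int.emod_add_mul_ediv (x i - b i + ℓ) (2 * (ℓ : ℤ) + 1)
  unfold ctr kx
  constructor <;> linarith

theorem kx_eq (b : Zd d) (ℓ : ℕ) (k x : Zd d) (hx : x ∈ bx (ctr b ℓ k) ℓ) : kx b ℓ x = k := by
  by_contra h
  exact Finset.disjoint_left.1 (blk_disj b ℓ _ _ h) (kx_mem b ℓ x) hx

/-- the union of the inner parts of the blocks -/
noncomputable def inn (b : Zd d) (ℓ m n : ℕ) : Finset (Zd d) :=
  (bx (0 : Zd d) m).biUnion fun k => bx (ctr b ℓ k) (ℓ - n)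

theorem inn_sub (b : Zd d) (ℓ m n L : ℕ) (h : m * (2 * ℓ + 1) + ℓ ≤ L) (hn : n ≤ ℓ) :
    inn b ℓ m n ⊆ bx b (L - n) := by
  intro x hx
  unfold inn at hx
  obtain ⟨k, hk, hx⟩ := Finset.mem_biUnion.1 hx
  have h2 := ctr_norm b ℓ m k hk
  rw [mem_bx'] at hx ⊢
  have h6 := norm_sub_le_norm_sub_add_norm_sub x (ctr b ℓ k) b
  have hnL : n ≤ L := by
    have : ℓ ≤ L := le_trans (Nat.le_add_left _ _) h
    omega
  have h7 : ((ℓ - n : ℕ) : ℝ) = ℓ - n := by push_cast [Nat.cast_sub hn]; rfl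
  have h8 : ((L - n : ℕ) : ℝ) = L - n := by push_cast [Nat.cast_sub hnL]; rfl
  rw [h7] at hx
  rw [h8]
  have h9 : (m : ℝ) * (2 * ℓ + 1) + ℓ ≤ L := by exact_mod_cast h
  linarith

theorem inn_sum (b : Zd d) (ℓ m n : ℕ) (F : Zd d → ℂ) :
    ∑ x ∈ inn b ℓ m n, F x = ∑ k ∈ bx (0 : Zd d) m, ∑ x ∈ bx (ctr b ℓ k) (ℓ - n), F x := by
  unfold inn
  refine Finset.sum_biUnion fun k _ k' _ h => ?_
  exact (blk_disj b ℓ k k' h).mono (bx_sub _ ℓ n) (bx_sub _ ℓ n)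

/-- the complement of the inner parts -/
theorem inn_card (b : Zd d) (ℓ n L : ℕ) (h : ℓ ≤ L) (hn : n ≤ ℓ) :
    ((bx b L \ inn b ℓ ((L - ℓ) / (2 * ℓ + 1)) n).card : ℝ) ≤
      d * (2 * (2 * ℓ + 1) / (2 * L + 1)) * (bx b L).card +
        d * (2 * n / (2 * ℓ + 1)) * (bx b L).card := by
  obtain ⟨m, hm⟩ : ∃ m, m = (L - ℓ) / (2 * ℓ + 1) := ⟨_, rfl⟩
  have hmL : m * (2 * ℓ + 1) + ℓ ≤ L := by
    have h4 := Nat.div_mul_le_self (L - ℓ) (2 * ℓ + 1)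
    rw [← hm] at h4
    omega
  have hmL2 : L < m * (2 * ℓ + 1) + ℓ + (2 * ℓ + 1) := by
    have h1 := Nat.lt_div_mul_add (a := L - ℓ) (b := 2 * ℓ + 1) (by omega)
    rw [← hm] at h1
    omega
  rw [← hm]
  obtain ⟨U, hU⟩ : ∃ U, U = bx b (m * (2 * ℓ + 1) + ℓ) := ⟨_, rfl⟩
  have hUb : U = (bx (0 : Zd d) m).biUnion fun k => bx (ctr b ℓ k) ℓ := by
    rw [hU, blk_union]
  have hUL : U ⊆ bx b L := by
    rw [hU]
    intro z hz
    rw [mem_bx'] at hz ⊢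
    exact hz.trans (by exact_mod_cast hmL)
  have h1 : bx b L \ inn b ℓ m n ⊆ (bx b L \ U) ∪ (U \ inn b ℓ m n) := by
    intro z hz
    rw [Finset.mem_sdiff] at hz
    rw [Finset.mem_union, Finset.mem_sdiff, Finset.mem_sdiff]
    by_cases hzU : z ∈ U
    · exact Or.inr ⟨hzU, hz.2⟩
    · exact Or.inl ⟨hz.1, hzU⟩
  have h2 : ((bx b L \ inn b ℓ m n).card : ℝ) ≤ (bx b L \ U).card + (U \ inn b ℓ m n).card := by
    exact_mod_cast (Finset.card_le_card h1).trans (Finset.card_union_le _ _)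
  refine h2.trans (add_le_add ?_ ?_)
  · obtain ⟨q, hq⟩ : ∃ q, q = L - (m * (2 * ℓ + 1) + ℓ) := ⟨_, rfl⟩
    have h3 : m * (2 * ℓ + 1) + ℓ = L - q := by omega
    have h4 : q ≤ 2 * ℓ + 1 := by omega
    rw [hU, h3]
    refine (bx_sdiff b L q (by omega)).trans ?_
    refine mul_le_mul_of_nonneg_right ?_ (Nat.cast_nonneg _)
    refine mul_le_mul_of_nonneg_left ?_ (Nat.cast_nonneg _)
    have h5 : (q : ℝ) ≤ 2 * ℓ + 1 := by exact_mod_cast h4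
    gcongr
  · have h3 : U \ inn b ℓ m n ⊆ (bx (0 : Zd d) m).biUnion fun k =>
        bx (ctr b ℓ k) ℓ \ bx (ctr b ℓ k) (ℓ - n) := by
      intro z hz
      rw [Finset.mem_sdiff, hUb] at hz
      obtain ⟨k, hk, hzk⟩ := Finset.mem_biUnion.1 hz.1
      refine Finset.mem_biUnion.2 ⟨k, hk, Finset.mem_sdiff.2 ⟨hzk, fun h5 => hz.2 ?_⟩⟩
      unfold inn
      exact Finset.mem_biUnion.2 ⟨k, hk, h5⟩
    have h4 : ((U \ inn b ℓ m n).card : ℝ) ≤ ∑ k ∈ bx (0 : Zd d) m,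
        ((bx (ctr b ℓ k) ℓ \ bx (ctr b ℓ k) (ℓ - n)).card : ℝ) := by
      exact_mod_cast (Finset.card_le_card h3).trans Finset.card_biUnion_le
    refine h4.trans ?_
    have h5 : ∀ k ∈ bx (0 : Zd d) m, ((bx (ctr b ℓ k) ℓ \ bx (ctr b ℓ k) (ℓ - n)).card : ℝ) ≤
        d * (2 * n / (2 * ℓ + 1)) * (bx (ctr b ℓ k) ℓ).card := fun k _ =>
      bx_sdiff (ctr b ℓ k) ℓ n hn
    refine (Finset.sum_le_sum h5).trans ?_
    rw [← Finset.mul_sum]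
    refine mul_le_mul_of_nonneg_left ?_ (by positivity)
    have h6 : ∑ k ∈ bx (0 : Zd d) m, ((bx (ctr b ℓ k) ℓ).card : ℝ) = (U.card : ℝ) := by
      rw [hUb, Finset.card_biUnion fun k _ k' _ h => blk_disj b ℓ k k' h]
      push_cast
      rfl
    rw [h6]
    exact_mod_cast Finset.card_le_card hUL

/-- the block-constant amplitude -/
def rt (b : Zd d) (ℓ : ℕ) (ρ : Zd d → ℝ) (x : Zd d) : ℝ := ρ (ctr b ℓ (kx b ℓ x))

theorem rt_mem (b : Zd d) (ℓ : ℕ) (ρ : Zd d → ℝ) (k x : Zd d) (hx : x ∈ bx (ctr b ℓ k) ℓ) :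
    rt b ℓ ρ x = ρ (ctr b ℓ k) := by
  unfold rt
  rw [kx_eq b ℓ k x hx]

theorem rt_le (b : Zd d) (ℓ : ℕ) (ρ : Zd d → ℝ) (A : ℝ)
    (hρ : ∀ x y, |ρ x - ρ y| ≤ A * ‖x - y‖) (hA : 0 ≤ A) (x y : Zd d) :
    |ρ y - rt b ℓ ρ x| ≤ A * (‖y - x‖ + ℓ) := by
  unfold rt
  refine (hρ _ _).trans (mul_le_mul_of_nonneg_left ?_ hA)
  have h1 := norm_sub_le_norm_sub_add_norm_sub y x (ctr b ℓ (kx b ℓ x))
  have h2 := kx_mem b ℓ x
  rw [mem_bx'] at h2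
  linarith

/-- the sum over an orthonormal family -/
theorem D_sum {J : Type} (f : J → HS d) (hf : Orthonormal ℂ f) (s : Finset J)
    (Λ : Finset (Zd d)) (D : Zd d → ℝ) :
    ∑ j ∈ s, (∑ x ∈ Λ, D x * ‖f j x‖ ^ 2) ^ 2 ≤ ∑ x ∈ Λ, D x ^ 2 := by
  have h1 : ∀ j ∈ s, (∑ x ∈ Λ, D x * ‖f j x‖ ^ 2) ^ 2 ≤ ∑ x ∈ Λ, D x ^ 2 * ‖f j x‖ ^ 2 := by
    intro j _
    have h2 := Finset.sum_mul_sq_le_sq_mul_sq Λ (fun x => D x * ‖f j x‖) (fun x => ‖f j x‖)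
    have h3 : ∀ x, D x * ‖f j x‖ * ‖f j x‖ = D x * ‖f j x‖ ^ 2 := fun x => by ring
    simp only [h3, mul_pow] at h2
    refine h2.trans ?_
    exact mul_le_of_le_one_right (Finset.sum_nonneg fun x _ => by positivity)
      (gx_le Λ (f j) (hf.1 j))
  refine (Finset.sum_le_sum h1).trans ?_
  rw [Finset.sum_comm]
  refine Finset.sum_le_sum fun x _ => ?_
  rw [← Finset.mul_sum]
  exact mul_le_of_le_one_right (sq_nonneg _) (pt_le f hf s x)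

end Pool.Agent.Q218.BE
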