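import Pool.Agent.Q218.BE.DtK

/-! The error of one block. -/

set_option autoImplicit false
set_option linter.unusedSectionVars false

open scoped BigOperators Topology InnerProductSpace
open MeasureTheory Filter Set

namespace Pool.Agent.Q218.BE

open Pool.Agent.W788.LD.Spec (S)
open Pool.Agent.H4R2.LO (Zd bx)
open Pool.Agent.TH794.QD (Sol HS hmk hmk_apply hs_sum)
open Pool.Agent.Q218.AT
open Pool.Agent.Q218.AD (Cw small_rpow hs_inner)
open Pool.Agent.Q218.UD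
open Pool.Agent.Q218.LE (at_num2)
open Pool.Agent.Q218.WE

variable {d : ℕ}

/-- **the error of one block** -/
theorem blkD (hd : 1 ≤ d) (Z : Finset (Zd d)) (o : Zd d → ℂ) (ε : ℝ) (hε : 0 < ε) :
    ∃ l0 : ℝ, 0 < l0 ∧ ∀ lam : ℝ, 0 < lam → lam ≤ l0 →
    ∀ T : ℝ, T = lam ^ (-(2024 / 1000) : ℝ) → ∀ (b : Zd d) (L : ℕ), lam ^ (-(21 / 10) : ℝ) ≤ L →
    ∀ (W : Zd d → ℝ) (ψ : Zd d → ℝ → Zd d → ℂ) (hψ : ∀ a, Sol d W a (ψ a))
      (J : Type) (f : J → HS d), Orthonormal ℂ f → ∀ (E : J → ℝ),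
      (∀ j, ∀ x ∈ bx b (L - 1), -S (fun y => f j y) x + (W x : ℂ) * f j x = (E j : ℂ) * f j x) →
      ∀ (s : Finset J), ∀ t ∈ Set.Icc (0 : ℝ) T,
        ∑ j ∈ s, Do hψ Z o (bx b L) (cut (bx b (L - 1)) (f j)) t ≤ ε * (bx b L).card := by
  obtain ⟨N, hN⟩ : ∃ N, N = (∑ w ∈ Z, ‖o w‖) + 1 := ⟨_, rfl⟩
  have hN0' : 0 ≤ ∑ w ∈ Z, ‖o w‖ := Finset.sum_nonneg fun w _ => norm_nonneg _
  have hN1 : 1 ≤ N := by linarith
  obtain ⟨R0, hR0⟩ : ∃ R0 : ℕ, ∀ w ∈ Z, ‖w‖ ≤ R0 := by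
    refine ⟨⌈∑ w ∈ Z, ‖w‖⌉₊, fun w hw => ?_⟩
    have h1 := Finset.single_le_sum (f := fun w : Zd d => ‖w‖) (fun _ _ => norm_nonneg _) hw
    exact h1.trans (Nat.le_ceil _)
  obtain ⟨ε1, hε1⟩ : ∃ ε1, ε1 = min (ε / N) 1 / 8 := ⟨_, rfl⟩
  have hε10 : 0 < ε1 := by rw [hε1]; positivity
  have hε1e : ε1 ≤ ε / N / 8 := by
    rw [hε1]
    have := min_le_left (ε / N) 1
    linarith
  have hε11 : ε1 ≤ 1 / 8 := by
    rw [hε1]
    have := min_le_right (ε / N) 1
    linarith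
  obtain ⟨T2, hT2⟩ := vol_num d (ε1 / 8) (by positivity)
  obtain ⟨l1, hl1, hs1⟩ := at_num2 d hd (ε1 / 32) (by positivity)
  obtain ⟨l2, hl2, hs2⟩ := small_rpow (2024 / 1000) (1 / (max T2 (R0 + 1))) (by norm_num)
    (by positivity)
  refine ⟨min l1 (min l2 1), by positivity, ?_⟩
  intro lam hlam hlam0 T hT b L hL W ψ hψ J f hf E he F
  have b1 : lam ≤ l1 := hlam0.trans (min_le_left _ _)
  have b2 : lam ≤ l2 := hlam0.trans ((min_le_right _ _).trans (min_le_left _ _))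
  have b3 : lam ≤ 1 := hlam0.trans ((min_le_right _ _).trans (min_le_right _ _))
  have hT0 : 0 < T := by rw [hT]; positivity
  obtain ⟨m, hmL, hmT, hm1⟩ := hs1 lam hlam b1 T hT L hL
  have hd1 : (1 : ℝ) ≤ d := by exact_mod_cast hd
  have hCw : 0 ≤ Cw d := by unfold Cw; positivity
  obtain ⟨εo, hεo⟩ : ∃ εo, εo = Cw d * 2 ^ (d + 1) * Real.exp (-(T / 2)) := ⟨_, rfl⟩
  have hεo0 : 0 ≤ εo := by rw [hεo]; positivity
  rw [← hεo] at hm1
  have hTmax : max T2 (R0 + 1) ≤ T := by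
    have h1 := hs2 lam hlam b2
    have h2 : lam ^ (2024 / 1000 : ℝ) = T⁻¹ := by
      rw [hT, Real.rpow_neg hlam.le, inv_inv]
    rw [h2, one_div] at h1
    exact (inv_le_inv₀ hT0 (by positivity)).1 h1
  have hT2' : T2 ≤ T := (le_max_left _ _).trans hTmax
  have hTR : (R0 : ℝ) + 1 ≤ T := (le_max_right _ _).trans hTmax
  have hδ := hT2 T hT2'
  rw [← hεo] at hδ
  obtain ⟨δ, hδd⟩ : ∃ δ, δ = 2 * Real.sqrt ((2 * d * T) ^ 2 * εo) := ⟨_, rfl⟩
  have hδ0 : 0 ≤ δ := by rw [hδd]; positivity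
  have hδ' : δ ≤ ε1 / 8 := by
    refine le_trans ?_ hδ
    rw [hδd]
    refine mul_le_mul_of_nonneg_left (Real.sqrt_le_sqrt ?_) (by norm_num)
    refine mul_le_mul_of_nonneg_right ?_ hεo0
    have : 0 ≤ (2 * (d : ℝ) * T) ^ 2 := sq_nonneg _
    linarith
  -- the boundary layer
  have hL0 : (0 : ℝ) < 2 * L + 1 := by positivity
  have hm0 : (0 : ℝ) ≤ m := Nat.cast_nonneg m
  have hmR : (R0 : ℝ) + 1 ≤ m := by
    refine le_trans ?_ hmT
    have h1 : T ≤ 12 * d * T := by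
      have : 1 ≤ 12 * (d : ℝ) := by linarith
      exact le_mul_of_one_le_left hT0.le this
    linarith
  have hmpos : (1 : ℝ) ≤ m := by
    have : (0 : ℝ) ≤ R0 := Nat.cast_nonneg _
    linarith
  have hz : (d : ℝ) * (2 * m / (2 * L + 1)) ≤ ε1 / 32 := by linarith
  have hz2 : 2 * (m : ℝ) / (2 * L + 1) ≤ 1 / 256 := by
    have h1 : 2 * (m : ℝ) / (2 * L + 1) ≤ d * (2 * m / (2 * L + 1)) :=
      le_mul_of_one_le_left (by positivity) hd1
    linarith
  have hmL3 : m + 2 + R0 ≤ L := by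
    rw [div_le_iff₀ hL0] at hz2
    have h1 : ((m + 2 + R0 : ℕ) : ℝ) ≤ L := by
      push_cast
      linarith
    exact_mod_cast h1
  have hL1 : 1 ≤ L := by omega
  have hm2 : ((m + 2 + R0 : ℕ) : ℝ) ≤ 4 * m := by
    push_cast
    linarith
  have hbd : ((bx b L \ bx b (L - (m + 2 + R0))).card : ℝ) ≤ ε1 / 8 * (bx b L).card := by
    refine (bx_sdiff b L (m + 2 + R0) hmL3).trans ?_
    refine mul_le_mul_of_nonneg_right ?_ (Nat.cast_nonneg _)
    calc (d : ℝ) * (2 * ((m + 2 + R0 : ℕ) : ℝ) / (2 * L + 1)) ≤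
          d * (2 * (4 * m) / (2 * L + 1)) := by gcongr
      _ = 4 * (d * (2 * m / (2 * L + 1))) := by ring
      _ ≤ 4 * (ε1 / 32) := by linarith
      _ = ε1 / 8 := by ring
  obtain ⟨g1, g2⟩ := geo b L hL1
  have hcL : ((L - 1 : ℕ) : ℝ) = L - 1 := by push_cast [Nat.cast_sub hL1]; rfl
  have hcm : ((L - (m + 2 + R0) : ℕ) : ℝ) = L - (m + 2 + R0) := by
    push_cast [Nat.cast_sub hmL3]
    rfl
  have hmem : ∀ a : Zd d, ‖a - b‖ ≤ L - (m + 2) → a ∈ bx b (L - 1) := by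
    intro a ha
    rw [mem_bx', hcL]
    linarith
  have hone : ∀ t ∈ Set.Icc (0 : ℝ) T, ∀ a : Zd d, ‖a - b‖ ≤ L - (m + 2) →
      ∑ j ∈ F, ‖Complex.exp (Complex.I * E j * t) * ⟪cut (bx b (L - 1)) (f j), uu hψ a t⟫_ℂ -
      (starRingEnd ℂ) (f j a)‖ ^ 2 ≤ (2 * d * T) ^ 2 * εo := by
    intro t ht a ha
    refine deep3 hψ (bx b (L - 1)) {z : Zd d | (L : ℝ) - 2 ≤ ‖z - b‖} g1 a (hmem a ha) T εo hεo0 ?_
      f hf E (fun j x hx => he j x hx) F t ht
    intro r hr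
    rw [hεo]
    refine out_small hd (hψ a) T hT0 m hmT r ?_ _ fun z hz => ?_
    · rw [abs_of_nonneg hr.1]
      exact hr.2
    · have h2 : (L : ℝ) - 2 ≤ ‖z - b‖ := hz
      have h3 := norm_sub_le_norm_sub_add_norm_sub z a b
      linarith
  intro t ht
  have h1 := Do_sum2 hψ Z o (bx b L) (bx b (L - (m + 2 + R0))) (bx_sub b L (m + 2 + R0))
    (fun j => cut (bx b (L - 1)) (f j)) F t
    δ hδ0 (fun x => cin_le hψ f hf _ F x t) (fun x => cpt_le f hf _ F x)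
    (fun a ha w hw => by
      rw [mem_bx', hcm] at ha
      have hR := hR0 w hw
      have hR00 : (0 : ℝ) ≤ R0 := Nat.cast_nonneg _
      have ha1 : ‖a - b‖ ≤ L - (m + 2) := by linarith
      have ha2 : ‖a + w - b‖ ≤ L - (m + 2) := by
        have h2 : a + w - b = (a - b) + w := by abel
        rw [h2]
        refine (norm_add_le _ _).trans ?_
        linarith
      have k1 := hone t ht a ha1
      have k2 := hone t ht (a + w) ha2
      have hE1 : ∀ j, ‖Complex.exp (Complex.I * E j * t)‖ = 1 := by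
        intro j
        have h2 : Complex.I * (E j : ℂ) * (t : ℂ) = ((E j * t : ℝ) : ℂ) * Complex.I := by
          push_cast
          ring
        rw [h2, Complex.norm_exp_ofReal_mul_I]
      have k3 := prod_diff F
        (fun j => Complex.exp (Complex.I * E j * t) * ⟪cut (bx b (L - 1)) (f j), uu hψ a t⟫_ℂ)
        (fun j => Complex.exp (Complex.I * E j * t) *
          ⟪cut (bx b (L - 1)) (f j), uu hψ (a + w) t⟫_ℂ)
        (fun j => (starRingEnd ℂ) (f j a)) (fun j => (starRingEnd ℂ) (f j (a + w))) _ k1 k2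
        (by
          simp only [norm_mul, hE1, one_mul]
          exact cin_le hψ f hf _ F (a + w) t)
        (by
          simp only [Complex.norm_conj]
          exact pt_le f hf F a)
      rw [← hδd] at k3
      refine le_trans (le_of_eq ?_) k3
      refine Finset.sum_congr rfl fun j _ => ?_
      rw [cut_mem (f j) (hmem a ha1), cut_mem (f j) (hmem (a + w) ha2)]
      congr 1
      rw [Complex.conj_conj, map_mul]
      have h2 : Complex.exp (Complex.I * E j * t) *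
          (starRingEnd ℂ) (Complex.exp (Complex.I * E j * t)) = 1 := by
        rw [Complex.mul_conj, Complex.normSq_eq_norm_sq, hE1]
        simp
      linear_combination (-(⟪cut (bx b (L - 1)) (f j), uu hψ a t⟫_ℂ *
        (starRingEnd ℂ) ⟪cut (bx b (L - 1)) (f j), uu hψ (a + w) t⟫_ℂ)) * h2)
  refine h1.trans ?_
  have h3 : (0 : ℝ) ≤ ((bx b L).card : ℝ) := Nat.cast_nonneg _
  have h4 : (∑ w ∈ Z, ‖o w‖) * (δ * (bx b L).card +
      2 * (((bx b L \ bx b (L - (m + 2 + R0))).card : ℕ) : ℝ)) ≤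
      N * (3 * ε1 / 8 * (bx b L).card) := by
    refine mul_le_mul (by linarith) ?_ (by positivity) (by linarith)
    have h5 : δ * (bx b L).card ≤ ε1 / 8 * (bx b L).card := mul_le_mul_of_nonneg_right hδ' h3
    linarith
  refine h4.trans ?_
  have h6 : N * (3 * ε1 / 8) ≤ ε := by
    have h7 : 3 * ε1 / 8 ≤ ε / N := by
      have : 0 ≤ ε / N := by positivity
      linarith
    calc N * (3 * ε1 / 8) ≤ N * (ε / N) := by gcongr
      _ = ε := by field_simp
  calc N * (3 * ε1 / 8 * (bx b L).card) = N * (3 * ε1 / 8) * (bx b L).card := by ring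
    _ ≤ _ := mul_le_mul_of_nonneg_right h6 h3

end Pool.Agent.Q218.BE
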