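import Pool.Agent.Q218.AT.Vol4

/-! The decomposition of a box into blocks. -/

set_option autoImplicit false
set_option linter.unusedSectionVars false

open scoped BigOperators

namespace Pool.Agent.Q218.BE

open Pool.Agent.H4R2.LO (Zd bx)
open Pool.Agent.H4R2.LO.Em (card_bx)
open Pool.Agent.Q218.AT (mem_bx' bx_sdiff)

variable {d : ℕ}

theorem mem_bxi (b x : Zd d) (L : ℕ) : x ∈ bx b L ↔ ∀ i, b i - L ≤ x i ∧ x i ≤ b i + L := by
  unfold bx
  rw [Fintype.mem_piFinset]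
  simp only [Finset.mem_Icc]

/-- the centre of a block -/
def ctr (b : Zd d) (ℓ : ℕ) (k : Zd d) : Zd d := fun i => b i + (2 * ℓ + 1) * k i

theorem blk_disj (b : Zd d) (ℓ : ℕ) (k k' : Zd d) (h : k ≠ k') :
    Disjoint (bx (ctr b ℓ k) ℓ) (bx (ctr b ℓ k') ℓ) := by
  rw [Finset.disjoint_left]
  intro x h1 h2
  apply h
  rw [mem_bxi] at h1 h2
  funext i
  have a1 := h1 i
  have a2 := h2 i
  unfold ctr at a1 a2
  have hℓ : (0 : ℤ) ≤ ℓ := by positivity
  by_contra hne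
  rcases lt_or_gt_of_ne hne with h3 | h3
  · have h4 : k i + 1 ≤ k' i := h3
    nlinarith
  · have h4 : k' i + 1 ≤ k i := h3
    nlinarith

theorem blk_union (b : Zd d) (ℓ m : ℕ) :
    (bx (0 : Zd d) m).biUnion (fun k => bx (ctr b ℓ k) ℓ) = bx b (m * (2 * ℓ + 1) + ℓ) := by
  ext x
  rw [Finset.mem_biUnion]
  constructor
  · rintro ⟨k, hk, hx⟩
    rw [mem_bxi] at hk hx ⊢
    intro i
    have a1 := hk i
    have a2 := hx i
    unfold ctr at a2
    have hℓ : (0 : ℤ) ≤ ℓ := by positivity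
    simp only [Pi.zero_apply, zero_sub, zero_add] at a1
    push_cast
    constructor <;> nlinarith
  · intro hx
    rw [mem_bxi] at hx
    refine ⟨fun i => (x i - b i + ℓ) / (2 * ℓ + 1), ?_, ?_⟩
    · rw [mem_bxi]
      intro i
      have a1 := hx i
      push_cast at a1
      have hpos : (0 : ℤ) < 2 * ℓ + 1 := by positivity
      simp only [Pi.zero_apply, zero_sub, zero_add]
      constructor
      · rw [Int.le_ediv_iff_mul_le hpos]
        linarith
      · have h1 : (x i - b i + ℓ) / (2 * (ℓ : ℤ) + 1) < m + 1 := by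
          rw [Int.ediv_lt_iff_lt_mul hpos]
          linarith
        linarith
    · rw [mem_bxi]
      intro i
      have hpos : (0 : ℤ) < 2 * ℓ + 1 := by positivity
      have h1 := Int.emod_nonneg (x i - b i + ℓ) hpos.ne'
      have h2 := Int.emod_lt_of_pos (x i - b i + ℓ) hpos
      have h3 := Int.emod_add_mul_ediv (x i - b i + ℓ) (2 * (ℓ : ℤ) + 1)
      unfold ctr
      constructor <;> linarith

/-- the blocks fill the box up to a boundary layer -/
theorem blk_ex (b : Zd d) (ℓ L : ℕ) (h : ℓ ≤ L) : ∃ m : ℕ, m * (2 * ℓ + 1) + ℓ ≤ L ∧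
    L < m * (2 * ℓ + 1) + ℓ + (2 * ℓ + 1) ∧
    ((bx b L \ (bx (0 : Zd d) m).biUnion (fun k => bx (ctr b ℓ k) ℓ)).card : ℝ) ≤
      d * (2 * (2 * ℓ + 1) / (2 * L + 1)) * (bx b L).card := by
  refine ⟨(L - ℓ) / (2 * ℓ + 1), ?_, ?_, ?_⟩
  · have h1 := Nat.div_mul_le_self (L - ℓ) (2 * ℓ + 1)
    omega
  · have h1 := Nat.lt_div_mul_add (a := L - ℓ) (b := 2 * ℓ + 1) (by omega)
    omega
  · rw [blk_union]
    have h1 := Nat.div_mul_le_self (L - ℓ) (2 * ℓ + 1)
    have h2 := Nat.lt_div_mul_add (a := L - ℓ) (b := 2 * ℓ + 1) (by omega)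
    obtain ⟨q, hq⟩ : ∃ q, q = L - ((L - ℓ) / (2 * ℓ + 1) * (2 * ℓ + 1) + ℓ) := ⟨_, rfl⟩
    have h3 : (L - ℓ) / (2 * ℓ + 1) * (2 * ℓ + 1) + ℓ = L - q := by omega
    have h4 : q ≤ 2 * ℓ + 1 := by omega
    rw [h3]
    refine (bx_sdiff b L q (by omega)).trans ?_
    refine mul_le_mul_of_nonneg_right ?_ (Nat.cast_nonneg _)
    refine mul_le_mul_of_nonneg_left ?_ (Nat.cast_nonneg _)
    have h5 : (q : ℝ) ≤ 2 * ℓ + 1 := by exact_mod_cast h4
    gcongr

/-- two points of a block -/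
theorem blk_diam (b : Zd d) (ℓ : ℕ) (x y : Zd d) (hx : x ∈ bx b ℓ) (hy : y ∈ bx b ℓ) :
    ‖x - y‖ ≤ 2 * ℓ := by
  rw [mem_bx'] at hx hy
  have h := norm_sub_le_norm_sub_add_norm_sub x b y
  rw [norm_sub_rev b y] at h
  linarith

end Pool.Agent.Q218.BE
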