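import Pool.Agent.Q218.BE.Frz
import Pool.Agent.Q218.BE.BlkD
import Pool.Agent.Q218.BE.Geo

/-! One observable and one box, for an arbitrary law. -/

set_option autoImplicit false
set_option linter.unusedSectionVars false

open scoped BigOperators Topology InnerProductSpace
open MeasureTheory Filter Set ProbabilityTheory

namespace Pool.Agent.Q218.BE

open Pool.Agent.W788.LD.Spec (S)
open Pool.Agent.H4R2.LO (Zd bx)
open Pool.Agent.H4R2.LO.Em (card_bx)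
open Pool.Agent.TH794.QD (Sol HS hmk hmk_apply hs_sum)
open Pool.Agent.Q218.AT
open Pool.Agent.Q218.AD (small_rpow)
open Pool.Agent.Q218.LE (S_SPL)
open Pool.Agent.Q218.WE

/-- the size of the blocks -/
theorem ell_le (lam : ℝ) (hlam : 0 < lam) (hlam1 : lam ≤ 1) :
    lam ^ (-(21 / 10) : ℝ) ≤ (⌈lam ^ (-(21 / 10) : ℝ)⌉₊ : ℝ) ∧
      ((⌈lam ^ (-(21 / 10) : ℝ)⌉₊ : ℕ) : ℝ) ≤ 2 * lam ^ (-(21 / 10) : ℝ) ∧
      1 ≤ ⌈lam ^ (-(21 / 10) : ℝ)⌉₊ := by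
  have h1 : (1 : ℝ) ≤ lam ^ (-(21 / 10) : ℝ) :=
    Real.one_le_rpow_of_pos_of_le_one_of_nonpos hlam hlam1 (by norm_num)
  have h2 := (Nat.ceil_lt_add_one (by linarith : 0 ≤ lam ^ (-(21 / 10) : ℝ))).le
  refine ⟨Nat.le_ceil _, by linarith, ?_⟩
  exact Nat.one_le_ceil_iff.2 (by linarith)

/-- the numbers -/
theorem num1 (d : ℕ) (hd : 1 ≤ d) (e : ℝ) (he : 0 < e) : ∃ l0 : ℝ, 0 < l0 ∧ l0 ≤ 1 ∧
    ∀ lam : ℝ, 0 < lam → lam ≤ l0 → ∀ ℓ : ℕ, ℓ = ⌈lam ^ (-(21 / 10) : ℝ)⌉₊ →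
    ∀ L : ℕ, lam ^ (-(5 / 2) : ℝ) ≤ L → ℓ ≤ L ∧
      lam ^ (11 / 5 * d : ℝ) * ((2 * L + 1 : ℕ) : ℝ) ^ d ≤
        2 * ((2 * ((L - ℓ) / (2 * ℓ + 1)) + 1 : ℕ) : ℝ) ^ d * e := by
  obtain ⟨l1, hl1, hs1⟩ := small_rpow (1 / 10) (min (1 / 30) (e / 15)) (by norm_num) (by positivity)
  obtain ⟨l2, hl2, hs2⟩ := small_rpow (4 / 10) (1 / 2) (by norm_num) (by norm_num)
  refine ⟨min (min l1 l2) 1, by positivity, min_le_right _ _, ?_⟩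
  intro lam hlam hlam0 ℓ hℓ L hL
  have b1 : lam ≤ l1 := hlam0.trans ((min_le_left _ _).trans (min_le_left _ _))
  have b2 : lam ≤ l2 := hlam0.trans ((min_le_left _ _).trans (min_le_right _ _))
  have b5 : lam ≤ 1 := hlam0.trans (min_le_right _ _)
  obtain ⟨k1, k2, k3⟩ := ell_le lam hlam b5
  rw [← hℓ] at k1 k2 k3
  obtain ⟨x, hx⟩ : ∃ x, x = lam ^ (-(21 / 10) : ℝ) := ⟨_, rfl⟩
  rw [← hx] at k1 k2
  have hx1 : 1 ≤ x := by
    rw [hx]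
    exact Real.one_le_rpow_of_pos_of_le_one_of_nonpos hlam b5 (by norm_num)
  have hxL : 2 * x ≤ L := by
    refine le_trans ?_ hL
    have h1 := hs2 lam hlam b2
    have h2 : x = lam ^ (4 / 10 : ℝ) * lam ^ (-(5 / 2) : ℝ) := by
      rw [hx, ← Real.rpow_add hlam]
      norm_num
    have h3 : (0 : ℝ) < lam ^ (-(5 / 2) : ℝ) := by positivity
    rw [h2]
    nlinarith
  have hℓL : ℓ ≤ L := by
    have : (ℓ : ℝ) ≤ L := k2.trans hxL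
    exact_mod_cast this
  refine ⟨hℓL, ?_⟩
  obtain ⟨m, hm⟩ : ∃ m, m = (L - ℓ) / (2 * ℓ + 1) := ⟨_, rfl⟩
  rw [← hm]
  have hm1 : L < 2 * (2 * m + 1) * (2 * ℓ + 1) := by
    have h1 := Nat.lt_div_mul_add (a := L - ℓ) (b := 2 * ℓ + 1) (by omega)
    rw [← hm] at h1
    have h2 : L - ℓ < m * (2 * ℓ + 1) + (2 * ℓ + 1) := h1
    have h3 : L < m * (2 * ℓ + 1) + (2 * ℓ + 1) + ℓ := by omega
    nlinarith
  have hm2 : (L : ℝ) ≤ 2 * (2 * m + 1) * (2 * ℓ + 1) := by exact_mod_cast hm1.le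
  have hL1 : (1 : ℝ) ≤ L := by linarith
  obtain ⟨M, hM⟩ : ∃ M : ℝ, M = 2 * (m : ℝ) + 1 := ⟨_, rfl⟩
  have hM0 : 0 < M := by rw [hM]; positivity
  have hy := hs1 lam hlam b1
  obtain ⟨y, hyd⟩ : ∃ y, y = lam ^ (1 / 10 : ℝ) := ⟨_, rfl⟩
  rw [← hyd] at hy
  have hy0 : 0 < y := by rw [hyd]; positivity
  have hy1 : y ≤ 1 / 30 := hy.trans (min_le_left _ _)
  have hy2 : y ≤ e / 15 := hy.trans (min_le_right _ _)
  have hz : lam ^ (11 / 5 * d : ℝ) = (lam ^ (11 / 5 : ℝ)) ^ d := by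
    rw [Real.rpow_mul hlam.le, Real.rpow_natCast]
  have hw : lam ^ (11 / 5 : ℝ) * x = y := by
    rw [hx, hyd, ← Real.rpow_add hlam]
    norm_num
  have hc1 : ((2 * L + 1 : ℕ) : ℝ) ≤ 30 * x * M := by
    push_cast
    have h1 : (2 * (ℓ : ℝ) + 1) ≤ 5 * x := by linarith
    have h2 : (L : ℝ) ≤ 2 * M * (5 * x) := by
      rw [hM]
      refine hm2.trans ?_
      gcongr
    linarith
  have hc2 : ((2 * m + 1 : ℕ) : ℝ) = M := by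
    rw [hM]
    push_cast
    ring
  rw [hz, ← mul_pow, hc2]
  have h3 : lam ^ (11 / 5 : ℝ) * ((2 * L + 1 : ℕ) : ℝ) ≤ 30 * y * M := by
    calc lam ^ (11 / 5 : ℝ) * ((2 * L + 1 : ℕ) : ℝ) ≤ lam ^ (11 / 5 : ℝ) * (30 * x * M) := by
          gcongr
      _ = 30 * (lam ^ (11 / 5 : ℝ) * x) * M := by ring
      _ = _ := by rw [hw]
  have h4 : (30 * y * M) ^ d ≤ 2 * M ^ d * e := by
    rw [mul_pow]
    have h5 : (30 * y) ^ d ≤ 30 * y := by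
      have h6 := pow_le_pow_of_le_one (by positivity : 0 ≤ 30 * y) (by linarith : 30 * y ≤ 1) hd
      rwa [pow_one] at h6
    calc (30 * y) ^ d * M ^ d ≤ (2 * e) * M ^ d := by
          gcongr
          linarith
      _ = _ := by ring
  exact (pow_le_pow_left₀ (by positivity) h3 d).trans h4

variable {d : ℕ}

theorem ctr_norm (b : Zd d) (ℓ m : ℕ) (k : Zd d) (hk : k ∈ bx (0 : Zd d) m) :
    ‖ctr b ℓ k - b‖ ≤ m * (2 * ℓ + 1) := by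
  rw [mem_bx', sub_zero] at hk
  have h1 : ctr b ℓ k - b = (2 * (ℓ : ℤ) + 1) • k := by
    funext i
    unfold ctr
    simp
  rw [h1]
  have h2 := norm_smul_le (2 * (ℓ : ℤ) + 1) k
  refine h2.trans ?_
  have h3 : ‖(2 * (ℓ : ℤ) + 1)‖ = 2 * (ℓ : ℝ) + 1 := by
    rw [Int.norm_eq_abs]
    push_cast
    rw [abs_of_nonneg (by positivity)]
  rw [h3, mul_comm]
  gcongr

theorem X_congr {lam : ℝ} (ψ : (Zd d → ℝ) → Zd d → ℝ → Zd d → ℂ)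
    (hψ : ∀ ω a, Sol d (fun x => lam * ω x) a (ψ ω a)) (Z : Finset (Zd d)) (o : Zd d → ℂ)
    (Λ : Finset (Zd d)) (c : Zd d → ℂ) (T : ℝ) (W1 W2 : Zd d → ℝ) (h : W1 = W2) :
    ‖Bm (Bo (hψ W1) Z o Λ c) T‖ ^ 2 = ‖Bm (Bo (hψ W2) Z o Λ c) T‖ ^ 2 := by
  subst h
  rfl

/-- **one observable and one box** -/
theorem core (hLIPK : S_LIPK) (hSPL : S_SPL) (d : ℕ) (hd : 1 ≤ d) (μ : Measure ℝ)
    [IsProbabilityMeasure μ] (Z : Finset (Zd d)) (o : Zd d → ℂ) (ε : ℝ) (hε : 0 < ε) :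
    ∃ l0 : ℝ, 0 < l0 ∧ ∀ lam : ℝ, 0 < lam → lam ≤ l0 →
    ∀ T : ℝ, T = lam ^ (-(2024 / 1000) : ℝ) → ∀ ℓ : ℕ, ℓ = ⌈lam ^ (-(21 / 10) : ℝ)⌉₊ →
    ∀ (ψ : (Zd d → ℝ) → Zd d → ℝ → Zd d → ℂ) (hψ : ∀ ω a, Sol d (fun x => lam * ω x) a (ψ ω a))
      (c : Zd d → Zd d → ℂ), (∀ q x, ‖c q x‖ ≤ 1) →
      (∀ q, ∃ Q0 : (Zd d → ℝ) → ℝ,
        (∀ ω, ‖Bm (Bo (hψ ω) Z o (bx q ℓ) (c q)) T‖ ^ 2 ≤ Q0 ω) ∧
        Integrable Q0 (Measure.infinitePi fun _ : Zd d => μ) ∧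
        ∫ ω, Q0 ω ∂(Measure.infinitePi fun _ : Zd d => μ) ≤ ε / 8 * (bx q ℓ).card) →
    ∀ (b : Zd d) (L : ℕ), lam ^ (-(5 / 2) : ℝ) ≤ L →
    ∃ G : Set (Zd d → ℝ), MeasurableSet G ∧
      (Measure.infinitePi fun _ : Zd d => μ).real Gᶜ ≤
        Real.exp (-(lam ^ (11 / 5 * d : ℝ) * (bx b L).card)) ∧
      ∀ ω ∈ G, ∀ ρ : Zd d → ℝ, (∀ k, |ρ k| ≤ 1) →
      ∀ (J : Type) (f : J → HS d), Orthonormal ℂ f → ∀ (E : J → ℝ),
      (∀ j x, ‖x - b‖ < L → -S (fun y => f j y) x + ((lam * ω x : ℝ) : ℂ) * f j x =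
        (E j : ℂ) * f j x) →
      ∀ s : Finset J,
        ∑ j ∈ s, ‖∑ k ∈ bx (0 : Zd d) ((L - ℓ) / (2 * ℓ + 1)), ∑ x ∈ bx (ctr b ℓ k) ℓ,
          ((ρ k : ℂ) * c (ctr b ℓ k) x) *
            ((starRingEnd ℂ) (cut (bx (ctr b ℓ k) (ℓ - 1)) (f j) x) *
              cv Z o (fun y => cut (bx (ctr b ℓ k) (ℓ - 1)) (f j) y) x)‖ ^ 2 ≤
          ε * (bx b L).card := by
  obtain ⟨N, hN⟩ : ∃ N, N = (∑ w ∈ Z, ‖o w‖) + 1 := ⟨_, rfl⟩
  have hN0' : 0 ≤ ∑ w ∈ Z, ‖o w‖ := Finset.sum_nonneg fun w _ => norm_nonneg _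
  have hN1 : 1 ≤ N := by linarith
  have hN0 : 0 < N := by linarith
  have hNle : ∑ w ∈ Z, ‖o w‖ ≤ N := by linarith
  obtain ⟨l1, hl1, hD⟩ := blkD hd Z o (ε / (8 * N)) (by positivity)
  obtain ⟨l2, hl2, hl21, hnum⟩ := num1 d hd ((ε / 8) ^ 2 / (N ^ 2) ^ 2) (by positivity)
  refine ⟨min l1 l2, by positivity, ?_⟩
  intro lam hlam hlam0 T hTd ℓ hℓ ψ hψ c hc hex b L hL
  have b1 : lam ≤ l1 := hlam0.trans (min_le_left _ _)
  have b2 : lam ≤ l2 := hlam0.trans (min_le_right _ _)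
  have hT0 : 0 < T := by rw [hTd]; positivity
  obtain ⟨hℓL, hnumL⟩ := hnum lam hlam b2 ℓ hℓ L hL
  obtain ⟨k1, k2, k3⟩ := ell_le lam hlam (b2.trans hl21)
  rw [← hℓ] at k1 k2 k3
  obtain ⟨m, hm⟩ : ∃ m, m = (L - ℓ) / (2 * ℓ + 1) := ⟨_, rfl⟩
  rw [← hm] at hnumL ⊢
  -- the frozen environments
  have hfr : ∀ q, ∃ ω' : Zd d → ℝ,
      Measurable (fun ω : Zd d → ℝ =>
        ‖Bm (Bo (hψ fun x => if x ∈ bx q ℓ then ω x else ω' x) Z o (bx q ℓ) (c q)) T‖ ^ 2) ∧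
      ∫ ω : Zd d → ℝ,
        ‖Bm (Bo (hψ fun x => if x ∈ bx q ℓ then ω x else ω' x) Z o (bx q ℓ) (c q)) T‖ ^ 2
        ∂(Measure.infinitePi fun _ : Zd d => μ) ≤ ε / 8 * (bx q ℓ).card := by
    intro q
    obtain ⟨Q0, q1, q2, q3⟩ := hex q
    exact frz hLIPK hSPL hd μ lam T _ hlam hT0 ψ hψ Z o N hNle (bx q ℓ) (c q) (hc q) Q0 q1 q2 q3
  choose ω' hωm hωe using hfr
  obtain ⟨Qc, hQc⟩ : ∃ Qc : ℝ, Qc = ((2 * ℓ + 1 : ℕ) : ℝ) ^ d := ⟨_, rfl⟩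
  have hcard : ∀ q : Zd d, ((bx q ℓ).card : ℝ) = Qc := by
    intro q
    rw [hQc, card_bx]
    push_cast
    rfl
  have hQc0 : 0 < Qc := by rw [hQc]; positivity
  obtain ⟨X, hX⟩ : ∃ X : Zd d → (Zd d → ℝ) → ℝ, X = fun k ω =>
    ‖Bm (Bo (hψ fun x => if x ∈ bx (ctr b ℓ k) ℓ then ω x else ω' (ctr b ℓ k) x) Z o
      (bx (ctr b ℓ k) ℓ) (c (ctr b ℓ k))) T‖ ^ 2 := ⟨_, rfl⟩
  have hXk : ∀ k ω, X k ω = ‖Bm (Bo (hψ fun x => if x ∈ bx (ctr b ℓ k) ℓ then ω x else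
      ω' (ctr b ℓ k) x) Z o (bx (ctr b ℓ k) ℓ) (c (ctr b ℓ k))) T‖ ^ 2 := fun k ω => by rw [hX]
  have hXm : ∀ k, Measurable (X k) := fun k => by
    rw [hX]
    exact hωm (ctr b ℓ k)
  obtain ⟨K, hK⟩ : ∃ K, K = bx (0 : Zd d) m := ⟨_, rfl⟩
  have hKc : (K.card : ℝ) = ((2 * m + 1 : ℕ) : ℝ) ^ d := by
    rw [hK, card_bx]
    push_cast
    rfl
  have hKQ : K.card * Qc ≤ (bx b L).card := by
    have h1 := blk_union b ℓ m
    have h2 : (K.card : ℝ) * Qc = ((bx b (m * (2 * ℓ + 1) + ℓ)).card : ℝ) := by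
      rw [← h1, ← hK, Finset.card_biUnion fun k _ k' _ h => blk_disj b ℓ k k' h]
      push_cast
      rw [Finset.sum_congr rfl fun k _ => hcard (ctr b ℓ k), Finset.sum_const, nsmul_eq_mul]
    rw [h2]
    have h3 : m * (2 * ℓ + 1) + ℓ ≤ L := by
      have h4 := Nat.div_mul_le_self (L - ℓ) (2 * ℓ + 1)
      rw [← hm] at h4
      omega
    have h4 : bx b (m * (2 * ℓ + 1) + ℓ) ⊆ bx b L := by
      intro z hz
      rw [mem_bx'] at hz ⊢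
      exact hz.trans (by exact_mod_cast h3)
    exact_mod_cast Finset.card_le_card h4
  have hho := hoef μ (fun k => bx (ctr b ℓ k) ℓ) (fun k k' h => blk_disj b ℓ k k' h) X hXm
    (fun k ω1 ω2 h => by
      rw [hXk, hXk]
      have h1 : (fun x => if x ∈ bx (ctr b ℓ k) ℓ then ω1 x else ω' (ctr b ℓ k) x) =
          fun x => if x ∈ bx (ctr b ℓ k) ℓ then ω2 x else ω' (ctr b ℓ k) x := by
        funext x
        by_cases hx : x ∈ bx (ctr b ℓ k) ℓ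
        · rw [if_pos hx, if_pos hx, h x hx]
        · rw [if_neg hx, if_neg hx]
      exact X_congr ψ hψ Z o _ _ T _ _ h1) (N ^ 2 * Qc) (ε / 8 * Qc) (ε / 8 * Qc) (by positivity)
    (fun k ω => by
      rw [hXk]
      exact sq_nonneg _)
    (fun k ω => by
      rw [hXk, ← hcard (ctr b ℓ k)]
      exact Bm_norm hd _ Z o N hNle _ _ (hc _) T)
    (fun k => by
      simp only [hXk]
      rw [← hcard (ctr b ℓ k)]
      exact hωe (ctr b ℓ k)) (by positivity) K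
  refine ⟨{ω | ∑ k ∈ K, X k ω < K.card * (ε / 8 * Qc + ε / 8 * Qc)},
    measurableSet_lt (Finset.measurable_sum _ fun k _ => hXm k) measurable_const, ?_, ?_⟩
  · have h1 : {ω | ∑ k ∈ K, X k ω < K.card * (ε / 8 * Qc + ε / 8 * Qc)}ᶜ =
        {ω | K.card * (ε / 8 * Qc + ε / 8 * Qc) ≤ ∑ k ∈ K, X k ω} := by
      ext ω
      simp only [Set.mem_compl_iff, Set.mem_setOf_eq, not_lt]
    rw [h1]
    refine hho.trans ?_
    apply Real.exp_le_exp.2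
    have h2 : 2 * K.card * (ε / 8 * Qc) ^ 2 / (N ^ 2 * Qc) ^ 2 =
        2 * ((2 * m + 1 : ℕ) : ℝ) ^ d * ((ε / 8) ^ 2 / (N ^ 2) ^ 2) := by
      rw [hKc]
      field_simp
    rw [h2, card_bx]
    push_cast at hnumL ⊢
    linarith
  · intro ω hω ρ hρ J f hf E he s
    rw [← hK]
    have hkey := detK hd K Z o N hNle (fun k => bx (ctr b ℓ k) ℓ)
      (fun k => bx (ctr b ℓ k) (ℓ - 1)) (fun k k' h => by
        refine (blk_disj b ℓ k k' h).mono ?_ ?_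
        · exact bx_sub _ ℓ 1
        · exact bx_sub _ ℓ 1)
      (fun k x => lam * (if x ∈ bx (ctr b ℓ k) ℓ then ω x else ω' (ctr b ℓ k) x))
      (fun k => ψ fun x => if x ∈ bx (ctr b ℓ k) ℓ then ω x else ω' (ctr b ℓ k) x)
      (fun k => hψ _) (fun k x => (ρ k : ℂ) * c (ctr b ℓ k) x)
      (fun k x => by
        rw [norm_mul, Complex.norm_real, Real.norm_eq_abs]
        exact mul_le_one₀ (hρ k) (norm_nonneg _) (hc _ _)) f hf T hT0.le s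
      (fun k => ε / (8 * N) * (bx (ctr b ℓ k) ℓ).card)
      (fun k hk t ht => by
        refine hD lam hlam b1 T hTd (ctr b ℓ k) ℓ k1 _ _ (hψ _) J f hf E (fun j x hx => ?_) s t ht
        have h1 : x ∈ bx (ctr b ℓ k) ℓ := bx_sub _ ℓ 1 hx
        simp only [if_pos h1]
        refine he j x ?_
        rw [hK] at hk
        have h2 := ctr_norm b ℓ m k hk
        rw [mem_bx'] at hx
        have h3 : m * (2 * ℓ + 1) + ℓ ≤ L := by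
          have h4 := Nat.div_mul_le_self (L - ℓ) (2 * ℓ + 1)
          rw [← hm] at h4
          omega
        have h4 : (m : ℝ) * (2 * ℓ + 1) + ℓ ≤ L := by exact_mod_cast h3
        have h5 : ((ℓ - 1 : ℕ) : ℝ) = ℓ - 1 := by push_cast [Nat.cast_sub k3]; rfl
        rw [h5] at hx
        have h6 := norm_sub_le_norm_sub_add_norm_sub x (ctr b ℓ k) b
        linarith)
    refine hkey.trans ?_
    have hωG : ∑ k ∈ K, X k ω < K.card * (ε / 8 * Qc + ε / 8 * Qc) := hω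
    have h1 : ∑ k ∈ K, ‖Bm (Bo (hψ fun x => if x ∈ bx (ctr b ℓ k) ℓ then ω x else
        ω' (ctr b ℓ k) x) Z o (bx (ctr b ℓ k) ℓ) (fun x => (ρ k : ℂ) * c (ctr b ℓ k) x)) T‖ ^ 2 ≤
        ∑ k ∈ K, X k ω := by
      refine Finset.sum_le_sum fun k _ => ?_
      rw [hXk]
      exact Bo_smul _ Z o _ _ (ρ k) (hρ k) T
    have h2 : ∑ k ∈ K, ε / (8 * N) * ((bx (ctr b ℓ k) ℓ).card : ℝ) = ε / (8 * N) *
        (K.card * Qc) := by
      rw [← Finset.mul_sum, Finset.sum_congr rfl fun k _ => hcard (ctr b ℓ k), Finset.sum_const,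
        nsmul_eq_mul]
    rw [h2]
    have h3 : 4 * N * (ε / (8 * N) * (K.card * Qc)) = ε / 2 * (K.card * Qc) := by
      field_simp
      ring
    rw [h3]
    have h4 : ε * (K.card * Qc) ≤ ε * (bx b L).card := mul_le_mul_of_nonneg_left hKQ hε.le
    nlinarith

end Pool.Agent.Q218.BE
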