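import Pool.Agent.Q218.WE.Dt

/-! Restrictions to disjoint blocks. -/

set_option autoImplicit false
set_option linter.unusedSectionVars false

open scoped BigOperators Topology InnerProductSpace
open MeasureTheory Filter Set

namespace Pool.Agent.Q218.BE

open Pool.Agent.W788.LD.Spec (S)
open Pool.Agent.H4R2.LO (Zd bx)
open Pool.Agent.TH794.QD (Sol HS hmk hmk_apply hs_sum)
open Pool.Agent.Q218.AT
open Pool.Agent.Q218.AD (hs_inner)
open Pool.Agent.Q218.WE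

variable {d : ℕ}

/-- the restriction of a function -/
noncomputable def cut (I : Finset (Zd d)) (g : HS d) : HS d :=
  hmk (rI I fun z => g z) (rI_summ I _)

theorem cut_apply (I : Finset (Zd d)) (g : HS d) (z : Zd d) :
    cut I g z = if z ∈ I then g z else 0 := rfl

theorem cut_mem {I : Finset (Zd d)} (g : HS d) {z : Zd d} (hz : z ∈ I) : cut I g z = g z := by
  rw [cut_apply, if_pos hz]

theorem cut_inner (I : Finset (Zd d)) (g u : HS d) :
    ⟪cut I g, u⟫_ℂ = ∑ z ∈ I, (starRingEnd ℂ) (g z) * u z := by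
  rw [← (hs_inner (cut I g) u).tsum_eq, tsum_eq_sum (s := I)]
  · refine Finset.sum_congr rfl fun z hz => ?_
    rw [cut_mem g hz]
  · intro z hz
    rw [cut_apply, if_neg hz, map_zero, zero_mul]

theorem cut_uI {V : Zd d → ℝ} {ψ : Zd d → ℝ → Zd d → ℂ} (hψ : ∀ a, Sol d V a (ψ a))
    (I : Finset (Zd d)) (g : HS d) (a : Zd d) (t : ℝ) :
    ⟪cut I g, uu hψ a t⟫_ℂ = ⟪g, uI ψ I a t⟫_ℂ := by
  rw [cut_inner, uI_inner]
  rfl

theorem cut_sq (I : Finset (Zd d)) (g : HS d) : ‖cut I g‖ ^ 2 = ∑ z ∈ I, ‖g z‖ ^ 2 := by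
  rw [← (hs_sum (cut I g)).tsum_eq, tsum_eq_sum (s := I)]
  · refine Finset.sum_congr rfl fun z hz => ?_
    rw [cut_mem g hz]
  · intro z hz
    rw [cut_apply, if_neg hz]
    simp

theorem cutT_mem (I : Finset (Zd d)) (B : HT d) :
    Memℓp (fun p : Zd d × Zd d => if p.1 ∈ I ∧ p.2 ∈ I then B p else 0) 2 := by
  classical
  rw [memℓp_gen_iff (by norm_num)]
  refine summable_of_ne_finset_zero (s := I ×ˢ I) fun p hp => ?_
  rw [if_neg (fun h => hp (Finset.mem_product.2 h))]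
  simp

/-- the restriction of a kernel -/
noncomputable def cutT (I : Finset (Zd d)) (B : HT d) : HT d := ⟨_, cutT_mem I B⟩

theorem cutT_apply (I : Finset (Zd d)) (B : HT d) (p : Zd d × Zd d) :
    cutT I B p = if p.1 ∈ I ∧ p.2 ∈ I then B p else 0 := rfl

theorem ht_inner (A B : HT d) : HasSum (fun p => (starRingEnd ℂ) (A p) * B p) ⟪A, B⟫_ℂ := by
  have h := lp.hasSum_inner (𝕜 := ℂ) A B
  have h2 : (fun p => (starRingEnd ℂ) (A p) * B p) = fun p => ⟪A p, B p⟫_ℂ := by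
    funext p
    rw [RCLike.inner_apply, mul_comm]
  rw [h2]
  exact h

theorem ht_sum (A : HT d) : HasSum (fun p => ‖A p‖ ^ 2) (‖A‖ ^ 2) := by
  have h := ht_inner A A
  have h1 := inner_self_eq_norm_sq_to_K (𝕜 := ℂ) A
  rw [h1] at h
  have h2 := Complex.hasSum_re h
  have e1 : (fun p => ((starRingEnd ℂ) (A p) * A p).re) = fun p => ‖A p‖ ^ 2 := by
    funext p
    rw [← Complex.normSq_eq_conj_mul_self, Complex.ofReal_re, Complex.normSq_eq_norm_sq]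
  have e2 : (((‖A‖ : ℝ) : ℂ) ^ 2).re = ‖A‖ ^ 2 := by
    rw [← Complex.ofReal_pow, Complex.ofReal_re]
  rw [e1] at h2
  have e3 : ((RCLike.ofReal ‖A‖ : ℂ) ^ 2).re = ‖A‖ ^ 2 := e2
  rw [e3] at h2
  exact h2

theorem cutT_vv (I : Finset (Zd d)) (g : HS d) (B : HT d) :
    ⟪vv (cut I g), B⟫_ℂ = ⟪vv g, cutT I B⟫_ℂ := by
  rw [← (ht_inner (vv (cut I g)) B).tsum_eq, ← (ht_inner (vv g) (cutT I B)).tsum_eq]
  refine tsum_congr fun p => ?_
  rw [vv_apply, vv_apply, cutT_apply, cut_apply, cut_apply]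
  by_cases h1 : p.1 ∈ I <;> by_cases h2 : p.2 ∈ I <;> simp [h1, h2]

theorem cutT_le (I : Finset (Zd d)) (B : HT d) : ‖cutT I B‖ ^ 2 ≤ ‖B‖ ^ 2 := by
  refine hasSum_le (fun p => ?_) (ht_sum (cutT I B)) (ht_sum B)
  rw [cutT_apply]
  split_ifs
  · exact le_rfl
  · rw [norm_zero, zero_pow two_ne_zero]
    exact sq_nonneg _

theorem cutT_ortho {I J : Finset (Zd d)} (h : Disjoint I J) (A B : HT d) :
    ⟪cutT I A, cutT J B⟫_ℂ = 0 := by
  rw [← (ht_inner (cutT I A) (cutT J B)).tsum_eq]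
  have h1 : ∀ p, (starRingEnd ℂ) (cutT I A p) * cutT J B p = 0 := by
    intro p
    rw [cutT_apply, cutT_apply]
    by_cases h1 : p.1 ∈ I
    · have h2 : p.1 ∉ J := fun h3 => Finset.disjoint_left.1 h h1 h3
      simp [h2]
    · simp [h1]
  simp only [h1]
  exact tsum_zero

theorem sum_ortho {E : Type*} [NormedAddCommGroup E] [InnerProductSpace ℂ E] {κ : Type*}
    (K : Finset κ) (v : κ → E) (h : ∀ i ∈ K, ∀ k ∈ K, i ≠ k → ⟪v i, v k⟫_ℂ = 0) :
    ‖∑ i ∈ K, v i‖ ^ 2 = ∑ i ∈ K, ‖v i‖ ^ 2 := by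
  classical
  have h1 : ⟪∑ i ∈ K, v i, ∑ i ∈ K, v i⟫_ℂ = ∑ i ∈ K, ⟪v i, v i⟫_ℂ := by
    rw [sum_inner]
    refine Finset.sum_congr rfl fun i hi => ?_
    rw [inner_sum, Finset.sum_eq_single_of_mem i hi]
    intro k hk hki
    exact h i hi k hk (Ne.symm hki)
  have h2 := congrArg Complex.re h1
  rw [Complex.re_sum] at h2
  have h3 : ∀ w : E, (⟪w, w⟫_ℂ).re = ‖w‖ ^ 2 := fun w => inner_self_eq_norm_sq (𝕜 := ℂ) w
  simp only [h3] at h2
  exact h2

/-- **the Bessel inequality for blocks** -/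
theorem bes {κ ι : Type*} (K : Finset κ) (I : κ → Finset (Zd d))
    (hdisj : ∀ i j, i ≠ j → Disjoint (I i) (I j)) (f : ι → HS d) (hf : Orthonormal ℂ f)
    (B : κ → HT d) (F : Finset ι) :
    ∑ j ∈ F, ‖∑ i ∈ K, ⟪vv (cut (I i) (f j)), B i⟫_ℂ‖ ^ 2 ≤ ∑ i ∈ K, ‖B i‖ ^ 2 := by
  have h1 : ∀ j, ∑ i ∈ K, ⟪vv (cut (I i) (f j)), B i⟫_ℂ =
      ⟪vv (f j), ∑ i ∈ K, cutT (I i) (B i)⟫_ℂ := by
    intro j
    rw [inner_sum]
    exact Finset.sum_congr rfl fun i _ => cutT_vv (I i) (f j) (B i)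
  simp only [h1]
  refine ((vv_ortho f hf).sum_inner_products_le _ (s := F)).trans ?_
  rw [sum_ortho K _ fun i _ k _ hik => cutT_ortho (hdisj i k hik) _ _]
  exact Finset.sum_le_sum fun i _ => cutT_le _ _

end Pool.Agent.Q218.BE
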