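import Pool.Agent.Q218.BE.Cut

/-! The deterministic bound for many blocks. -/

set_option autoImplicit false
set_option linter.unusedSectionVars false

open scoped BigOperators Topology InnerProductSpace
open MeasureTheory Filter Set

namespace Pool.Agent.Q218.BE

open Pool.Agent.W788.LD.Spec (S)
open Pool.Agent.H4R2.LO (Zd bx)
open Pool.Agent.TH794.QD (Sol HS hmk hmk_apply hs_sum)
open Pool.Agent.Q218.AT
open Pool.Agent.Q218.AD (Cw small_rpow hs_inner)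
open Pool.Agent.Q218.UD
open Pool.Agent.Q150.WE (vw_inner)
open Pool.Agent.Q218.LE (at_num2)
open Pool.Agent.Q218.WE

variable {d : ℕ} {V : Zd d → ℝ} {ψ : Zd d → ℝ → Zd d → ℂ}

/-- one starting point in the interior -/
theorem deep3 (hψ : ∀ a, Sol d V a (ψ a)) (I : Finset (Zd d)) (A : Set (Zd d))
    (hA1 : ∀ w : Zd d, ∀ i : Fin d,
    (¬ (w ∈ I ↔ w + Pi.single i 1 ∈ I) → w + Pi.single i 1 ∈ A) ∧
    (¬ (w ∈ I ↔ w - Pi.single i 1 ∈ I) → w - Pi.single i 1 ∈ A))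
    (a : Zd d) (ha : a ∈ I) (T εo : ℝ) (hεo : 0 ≤ εo)
    (hout : ∀ t ∈ Set.Icc (0 : ℝ) T, ∑' z, A.indicator (fun z => ‖ψ a t z‖ ^ 2) z ≤ εo)
    {ι : Type*} (f : ι → HS d) (hf : Orthonormal ℂ f) (E : ι → ℝ)
    (he : ∀ j, ∀ x ∈ I, -S (fun y => f j y) x + (V x : ℂ) * f j x = (E j : ℂ) * f j x)
    (F : Finset ι) (t : ℝ) (ht : t ∈ Set.Icc (0 : ℝ) T) :
    ∑ j ∈ F, ‖Complex.exp (Complex.I * E j * t) * ⟪cut I (f j), uu hψ a t⟫_ℂ -
      (starRingEnd ℂ) (f j a)‖ ^ 2 ≤ (2 * d * T) ^ 2 * εo := by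
  have hT0 : 0 ≤ T := ht.1.trans ht.2
  have hk : ∀ s ∈ Set.Icc (0 : ℝ) T, ‖uK ψ I a s‖ ≤ 2 * d * Real.sqrt εo := by
    intro s hs
    refine le_of_sq_le_sq ?_ (by positivity)
    rw [mul_pow, Real.sq_sqrt hεo]
    have h1 := hs_sum (uK ψ I a s)
    rw [← h1.tsum_eq]
    refine (Kr_sq I A hA1 (ψ a s) ((hψ a).norm s).summable).trans ?_
    exact mul_le_mul_of_nonneg_left (hout s hs) (sq_nonneg _)
  have h1 := mv f hf F (fun j => cI I (fun y => f j y) (E j) (ψ a)) E (uK ψ I a)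
    (fun j s => by
      rw [uK_inner]
      exact cI_deriv (hψ a) I (fun y => f j y) (hs_sum (f j)).summable (E j) (he j) s)
    (2 * d * Real.sqrt εo) T (by positivity) hk t ht
  have h2 : (2 * d * Real.sqrt εo * t) ^ 2 ≤ (2 * d * T) ^ 2 * εo := by
    have h3 : (2 * d * Real.sqrt εo * t) ^ 2 = (2 * d * t) ^ 2 * εo := by
      have := Real.sq_sqrt hεo
      calc (2 * d * Real.sqrt εo * t) ^ 2 = (2 * d * t) ^ 2 * (Real.sqrt εo) ^ 2 := by ring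
        _ = _ := by rw [this]
    rw [h3]
    refine mul_le_mul_of_nonneg_right ?_ hεo
    refine pow_le_pow_left₀ (by have := ht.1; positivity) ?_ 2
    exact mul_le_mul_of_nonneg_left ht.2 (by positivity)
  have h5 : ∀ j, Complex.exp (Complex.I * E j * t) * ⟪cut I (f j), uu hψ a t⟫_ℂ =
      cI I (fun y => f j y) (E j) (ψ a) t := by
    intro j
    rw [cut_uI, uI_inner]
    rfl
  have h6 : ∀ j, (starRingEnd ℂ) (f j a) = cI I (fun y => f j y) (E j) (ψ a) 0 := by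
    intro j
    unfold cI
    rw [Complex.ofReal_zero, mul_zero, Complex.exp_zero, one_mul,
      Finset.sum_eq_single_of_mem a ha]
    · rw [(hψ a).init, if_pos rfl, mul_one]
    · intro z _ hz
      rw [(hψ a).init, if_neg hz, mul_zero]
  simp only [h5, h6]
  exact h1.trans h2

theorem cin_le (hψ : ∀ a, Sol d V a (ψ a)) {ι : Type*} (f : ι → HS d) (hf : Orthonormal ℂ f)
    (I : Finset (Zd d)) (F : Finset ι) (a : Zd d) (t : ℝ) :
    ∑ j ∈ F, ‖⟪cut I (f j), uu hψ a t⟫_ℂ‖ ^ 2 ≤ 1 := by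
  have h1 : ∀ j, ⟪cut I (f j), uu hψ a t⟫_ℂ = ⟪f j, cut I (uu hψ a t)⟫_ℂ := by
    intro j
    rw [cut_uI]
    rfl
  simp only [h1]
  refine (hf.sum_inner_products_le _ (s := F)).trans ?_
  rw [cut_sq]
  have h2 := hs_sum (uu hψ a t)
  rw [uu_sq] at h2
  exact (h2.summable.sum_le_tsum I fun x _ => sq_nonneg _).trans (le_of_eq h2.tsum_eq)

theorem cpt_le {ι : Type*} (f : ι → HS d) (hf : Orthonormal ℂ f) (I : Finset (Zd d))
    (F : Finset ι) (a : Zd d) : ∑ j ∈ F, ‖cut I (f j) a‖ ^ 2 ≤ 1 := by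
  refine le_trans (Finset.sum_le_sum fun j _ => ?_) (pt_le f hf F a)
  rw [cut_apply]
  split_ifs
  · exact le_rfl
  · rw [norm_zero, zero_pow two_ne_zero]
    exact sq_nonneg _

theorem gxs (Λ : Finset (Zd d)) (g : HS d) : ∑ x ∈ Λ, ‖g x‖ ^ 2 ≤ ‖g‖ ^ 2 := by
  have h1 := hs_sum g
  exact (h1.summable.sum_le_tsum Λ fun x _ => sq_nonneg _).trans (le_of_eq h1.tsum_eq)

theorem gus (hd : 1 ≤ d) (hψ : ∀ a, Sol d V a (ψ a)) (Λ : Finset (Zd d)) (g : HS d) (t : ℝ) :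
    ∑ x ∈ Λ, ‖⟪g, uu hψ x t⟫_ℂ‖ ^ 2 ≤ ‖g‖ ^ 2 := by
  have h1 := (uu_ortho hd hψ t).sum_inner_products_le g (s := Λ)
  refine le_trans (Finset.sum_le_sum fun x _ => le_of_eq ?_) h1
  rw [norm_inner_symm]

theorem csp {ι : Type*} (Λ : Finset ι) (p q : ι → ℂ) (A : ℝ) (hA : 0 ≤ A)
    (h1 : ∑ x ∈ Λ, ‖p x‖ ^ 2 ≤ A ^ 2)
    (h2 : ∑ x ∈ Λ, ‖q x‖ ^ 2 ≤ A ^ 2) : ∑ x ∈ Λ, ‖p x * q x‖ ≤ A ^ 2 := by
  have h := cs_sum Λ (fun x => ‖p x‖) (fun x => ‖q x‖) A A hA hA h1 h2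
  simp only [norm_mul]
  rw [sq]
  exact h

theorem shs (Λ : Finset (Zd d)) (w : Zd d) (p : Zd d → ℝ) (A : ℝ)
    (hp : ∀ s : Finset (Zd d), ∑ x ∈ s, p x ≤ A) : ∑ x ∈ Λ, p (x + w) ≤ A := by
  have h1 := hp (Λ.map (addRightEmbedding w))
  rw [Finset.sum_map] at h1
  exact h1

theorem Do_le2 (hd : 1 ≤ d) (hψ : ∀ a, Sol d V a (ψ a)) (Z : Finset (Zd d)) (o : Zd d → ℂ)
    (Λ : Finset (Zd d)) (g : HS d) (t : ℝ) :
    0 ≤ Do hψ Z o Λ g t ∧ Do hψ Z o Λ g t ≤ 2 * (∑ w ∈ Z, ‖o w‖) * ‖g‖ ^ 2 := by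
  unfold Do
  refine ⟨Finset.sum_nonneg fun x _ => Finset.sum_nonneg fun w _ =>
    mul_nonneg (norm_nonneg _) (norm_nonneg _), ?_⟩
  rw [Finset.sum_comm, mul_comm 2, mul_assoc, Finset.sum_mul]
  refine Finset.sum_le_sum fun w _ => ?_
  rw [← Finset.mul_sum]
  refine mul_le_mul_of_nonneg_left ?_ (norm_nonneg _)
  refine (Finset.sum_le_sum fun x _ => norm_sub_le _ _).trans ?_
  rw [Finset.sum_add_distrib]
  have h1 := csp Λ (fun x => ⟪g, uu hψ x t⟫_ℂ) (fun x => (starRingEnd ℂ) ⟪g, uu hψ (x + w) t⟫_ℂ)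
    ‖g‖ (norm_nonneg _) (gus hd hψ Λ g t) (by
      simp only [Complex.norm_conj]
      exact shs Λ w (fun x => ‖⟪g, uu hψ x t⟫_ℂ‖ ^ 2) _ fun s => gus hd hψ s g t)
  have h2 := csp Λ (fun x => (starRingEnd ℂ) (g x)) (fun x => g (x + w)) ‖g‖ (norm_nonneg _)
    (by
      simp only [Complex.norm_conj]
      exact gxs Λ g) (shs Λ w (fun x => ‖g x‖ ^ 2) _ fun s => gxs s g)
  linarith

/-- the sum over the family -/
theorem Do_sum2 (hψ : ∀ a, Sol d V a (ψ a)) (Z : Finset (Zd d)) (o : Zd d → ℂ)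
    (Λ Λ' : Finset (Zd d)) (hΛ : Λ' ⊆ Λ)
    {ι : Type*} (g : ι → HS d) (F : Finset ι) (t δ : ℝ) (hδ : 0 ≤ δ)
    (hin : ∀ x, ∑ j ∈ F, ‖⟪g j, uu hψ x t⟫_ℂ‖ ^ 2 ≤ 1) (hpt : ∀ x, ∑ j ∈ F, ‖g j x‖ ^ 2 ≤ 1)
    (hdeep : ∀ a ∈ Λ', ∀ w ∈ Z, ∑ j ∈ F, ‖⟪g j, uu hψ a t⟫_ℂ *
      (starRingEnd ℂ) ⟪g j, uu hψ (a + w) t⟫_ℂ - (starRingEnd ℂ) (g j a) * g j (a + w)‖ ≤ δ) :
    ∑ j ∈ F, Do hψ Z o Λ (g j) t ≤
      (∑ w ∈ Z, ‖o w‖) * (δ * Λ.card + 2 * ((Λ \ Λ').card : ℝ)) := by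
  obtain ⟨Q, hQ⟩ : ∃ Q : ι → Zd d → Zd d → ℝ, Q = fun j x w => ‖⟪g j, uu hψ x t⟫_ℂ *
      (starRingEnd ℂ) ⟪g j, uu hψ (x + w) t⟫_ℂ - (starRingEnd ℂ) (g j x) * g j (x + w)‖ :=
    ⟨_, rfl⟩
  have hQj : ∀ j x w, ‖⟪g j, uu hψ x t⟫_ℂ *
      (starRingEnd ℂ) ⟪g j, uu hψ (x + w) t⟫_ℂ - (starRingEnd ℂ) (g j x) * g j (x + w)‖ =
      Q j x w := fun j x w => by rw [hQ]
  unfold Do
  simp only [hQj] at hdeep ⊢
  have e1 : ∑ j ∈ F, ∑ x ∈ Λ, ∑ w ∈ Z, ‖o w‖ * Q j x w =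
      ∑ w ∈ Z, ‖o w‖ * ∑ x ∈ Λ, ∑ j ∈ F, Q j x w := by
    rw [Finset.sum_comm]
    simp only [Finset.mul_sum]
    rw [Finset.sum_comm' (s := Z) (t := fun _ => Λ) (t' := Λ) (s' := fun _ => Z) (by tauto)]
    refine Finset.sum_congr rfl fun x _ => ?_
    rw [Finset.sum_comm]
  rw [e1, Finset.sum_mul]
  refine Finset.sum_le_sum fun w hw => ?_
  refine mul_le_mul_of_nonneg_left ?_ (norm_nonneg _)
  rw [← Finset.sum_sdiff hΛ]
  have h1 : ∑ x ∈ Λ \ Λ', ∑ j ∈ F, Q j x w ≤ 2 * ((Λ \ Λ').card : ℝ) := by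
    have h2 : ∀ x ∈ Λ \ Λ', ∑ j ∈ F, Q j x w ≤ 2 := by
      intro x _
      rw [hQ]
      refine (Finset.sum_le_sum fun j _ => norm_sub_le _ _).trans ?_
      rw [Finset.sum_add_distrib]
      have h3 := cs_le F (fun j => ⟪g j, uu hψ x t⟫_ℂ)
        (fun j => (starRingEnd ℂ) ⟪g j, uu hψ (x + w) t⟫_ℂ) (hin x) (by
          simp only [Complex.norm_conj]
          exact hin (x + w))
      have h4 := cs_le F (fun j => (starRingEnd ℂ) (g j x)) (fun j => g j (x + w)) (by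
          simp only [Complex.norm_conj]
          exact hpt x) (hpt (x + w))
      linarith
    refine (Finset.sum_le_sum h2).trans (le_of_eq ?_)
    rw [Finset.sum_const, nsmul_eq_mul, mul_comm]
  have h2 : ∑ x ∈ Λ', ∑ j ∈ F, Q j x w ≤ δ * Λ.card := by
    refine (Finset.sum_le_sum fun x hx => hdeep x hx w hw).trans ?_
    rw [Finset.sum_const, nsmul_eq_mul, mul_comm]
    refine mul_le_mul_of_nonneg_left ?_ hδ
    exact_mod_cast Finset.card_le_card hΛ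
  linarith

/-- **the Bessel inequality for approximate eigenfunctions and many blocks** -/
theorem detK (hd : 1 ≤ d) {κ : Type*} (K : Finset κ) (Z : Finset (Zd d)) (o : Zd d → ℂ) (N : ℝ)
    (hN : ∑ w ∈ Z, ‖o w‖ ≤ N) (Q I : κ → Finset (Zd d))
    (hdisj : ∀ i j, i ≠ j → Disjoint (I i) (I j)) (V : κ → Zd d → ℝ)
    (ψ : κ → Zd d → ℝ → Zd d → ℂ) (hψ : ∀ i a, Sol d (V i) a (ψ i a)) (c : κ → Zd d → ℂ)
    (hc : ∀ i x, ‖c i x‖ ≤ 1) {ι : Type*} (f : ι → HS d) (hf : Orthonormal ℂ f) (T : ℝ)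
    (hT : 0 ≤ T) (F : Finset ι) (B : κ → ℝ)
    (hB : ∀ i ∈ K, ∀ t ∈ Set.Icc (0 : ℝ) T,
      ∑ j ∈ F, Do (hψ i) Z o (Q i) (cut (I i) (f j)) t ≤ B i) :
    ∑ j ∈ F, ‖∑ i ∈ K, ∑ x ∈ Q i, c i x * ((starRingEnd ℂ) (cut (I i) (f j) x) *
      cv Z o (fun y => cut (I i) (f j) y) x)‖ ^ 2 ≤
      2 * ∑ i ∈ K, ‖Bm (Bo (hψ i) Z o (Q i) (c i)) T‖ ^ 2 + 4 * N * ∑ i ∈ K, B i := by
  classical
  have hN0 : 0 ≤ N := (Finset.sum_nonneg fun w _ => norm_nonneg _).trans hN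
  obtain ⟨O, hO⟩ : ∃ O : κ → ℝ → HT d, O = fun i => Bo (hψ i) Z o (Q i) (c i) := ⟨_, rfl⟩
  have hOi : ∀ i, Bo (hψ i) Z o (Q i) (c i) = O i := fun i => by rw [hO]
  simp only [hOi]
  obtain ⟨g, hg⟩ : ∃ g : κ → ι → HS d, g = fun i j => cut (I i) (f j) := ⟨_, rfl⟩
  have hgi : ∀ i j, cut (I i) (f j) = g i j := fun i j => by rw [hg]
  obtain ⟨D, hD⟩ : ∃ D : κ → ι → ℝ → ℝ, D = fun i j => Do (hψ i) Z o (Q i) (g i j) := ⟨_, rfl⟩
  have hDi : ∀ i j, Do (hψ i) Z o (Q i) (g i j) = D i j := fun i j => by rw [hD]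
  simp only [hgi, hDi] at hB ⊢
  have hOc : ∀ i, Continuous fun s => O i (s * T) := fun i => by
    rw [hO]
    exact (Bo_cont hd (hψ i) Z o (Q i) (c i)).comp (by fun_prop)
  have hDc : ∀ i j, Continuous fun s => D i j (s * T) := fun i j => by
    rw [hD]
    exact (Do_cont hd (hψ i) Z o (Q i) (g i j)).comp (by fun_prop)
  obtain ⟨q, hq⟩ : ∃ q : κ → ι → ℂ, q = fun i j => ∑ x ∈ Q i, c i x *
    ((starRingEnd ℂ) (g i j x) * cv Z o (fun y => g i j y) x) := ⟨_, rfl⟩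
  have hqi : ∀ i j, ∑ x ∈ Q i, c i x *
    ((starRingEnd ℂ) (g i j x) * cv Z o (fun y => g i j y) x) = q i j := fun i j => by rw [hq]
  simp only [hqi]
  have h1 : ∀ i j, ⟪vv (g i j), Bm (O i) T⟫_ℂ =
      ∫ s in (0 : ℝ)..1, ⟪vv (g i j), O i (s * T)⟫_ℂ := by
    intro i j
    unfold Bm
    exact inner_int _ (hOc i) 0 1 zero_le_one _
  have h2 : ∀ i j t, ‖⟪vv (g i j), O i t⟫_ℂ - q i j‖ ≤ D i j t := by
    intro i j t
    rw [hO, hq, hD]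
    simp only
    unfold Bo Do
    rw [inner_sum, ← Finset.sum_sub_distrib]
    refine (norm_sum_le _ _).trans (Finset.sum_le_sum fun x _ => ?_)
    rw [inner_smul_right, ← mul_sub, norm_mul]
    refine (mul_le_of_le_one_left (norm_nonneg _) (hc i x)).trans ?_
    unfold cv
    rw [inner_sum, Finset.mul_sum, ← Finset.sum_sub_distrib]
    refine (norm_sum_le _ _).trans (Finset.sum_le_sum fun w _ => le_of_eq ?_)
    have hvv : ∀ (a b : HS d), ⟪vv (g i j), vw a b⟫_ℂ =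
      ⟪g i j, a⟫_ℂ * (starRingEnd ℂ) ⟪g i j, b⟫_ℂ := fun a b => vw_inner (g i j) (g i j) a b
    rw [inner_smul_right, hvv, ← norm_mul]
    congr 1
    ring
  obtain ⟨Dt, hDt⟩ : ∃ Dt : ι → ℝ, Dt = fun j => ∫ s in (0 : ℝ)..1, ∑ i ∈ K, D i j (s * T) :=
    ⟨_, rfl⟩
  have hDtj : ∀ j, ∫ s in (0 : ℝ)..1, ∑ i ∈ K, D i j (s * T) = Dt j := fun j => by rw [hDt]
  have hDsc : ∀ j, Continuous fun s => ∑ i ∈ K, D i j (s * T) := fun j =>
    continuous_finsetSum K fun i _ => hDc i j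
  have h3 : ∀ j, ‖∑ i ∈ K, q i j‖ ≤ ‖∑ i ∈ K, ⟪vv (g i j), Bm (O i) T⟫_ℂ‖ + Dt j := by
    intro j
    have hPc : ∀ i, Continuous fun s => ⟪vv (g i j), O i (s * T)⟫_ℂ := fun i =>
      continuous_const.inner (hOc i)
    have hPq : ∀ i, Continuous fun s => ⟪vv (g i j), O i (s * T)⟫_ℂ - q i j := fun i =>
      (hPc i).sub continuous_const
    have h4 : ‖(∑ i ∈ K, ⟪vv (g i j), Bm (O i) T⟫_ℂ) - ∑ i ∈ K, q i j‖ ≤ Dt j := by
      have h5 : (∑ i ∈ K, ⟪vv (g i j), Bm (O i) T⟫_ℂ) - ∑ i ∈ K, q i j =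
          ∫ s in (0 : ℝ)..1, ∑ i ∈ K, (⟪vv (g i j), O i (s * T)⟫_ℂ - q i j) := by
        rw [intervalIntegral.integral_finsetSum fun i _ => (hPq i).intervalIntegrable _ _,
          ← Finset.sum_sub_distrib]
        refine Finset.sum_congr rfl fun i _ => ?_
        rw [h1, intervalIntegral.integral_sub ((hPc i).intervalIntegrable _ _)
          (continuous_const.intervalIntegrable _ _)]
        simp
      rw [h5, ← hDtj]
      refine intervalIntegral.norm_integral_le_of_norm_le zero_le_one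
        (Filter.Eventually.of_forall fun s _ => ?_) ((hDsc j).intervalIntegrable _ _)
      exact (norm_sum_le _ _).trans (Finset.sum_le_sum fun i _ => h2 i j (s * T))
    have h5 := norm_sub_rev (∑ i ∈ K, ⟪vv (g i j), Bm (O i) T⟫_ℂ) (∑ i ∈ K, q i j)
    have h6 := norm_le_norm_sub_add (∑ i ∈ K, q i j) (∑ i ∈ K, ⟪vv (g i j), Bm (O i) T⟫_ℂ)
    linarith
  have hDn : ∀ i j t, 0 ≤ D i j t := fun i j t => by
    rw [hD]
    exact (Do_le2 hd (hψ i) Z o (Q i) (g i j) t).1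
  have h4 : ∀ j, 0 ≤ Dt j := fun j => by
    rw [hDt]
    exact intervalIntegral.integral_nonneg zero_le_one fun s _ =>
      Finset.sum_nonneg fun i _ => hDn i j _
  have hgs : ∀ j, ∑ i ∈ K, ‖g i j‖ ^ 2 ≤ 1 := by
    intro j
    have k1 : ∀ i, ‖g i j‖ ^ 2 = ∑ z ∈ I i, ‖f j z‖ ^ 2 := fun i => by
      rw [hg]
      exact cut_sq (I i) (f j)
    simp only [k1]
    rw [← Finset.sum_biUnion fun i _ k _ hik => hdisj i k hik]
    exact gx_le _ (f j) (hf.1 j)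
  have h5 : ∀ j, Dt j ≤ 2 * N := by
    intro j
    rw [hDt]
    have k1 : ∀ s, ∑ i ∈ K, D i j (s * T) ≤ 2 * N := by
      intro s
      have k2 : ∀ i ∈ K, D i j (s * T) ≤ 2 * N * ‖g i j‖ ^ 2 := by
        intro i _
        have k3 := (Do_le2 hd (hψ i) Z o (Q i) (g i j) (s * T)).2
        rw [hD]
        refine k3.trans ?_
        have : 0 ≤ ‖g i j‖ ^ 2 := sq_nonneg _
        gcongr
      refine (Finset.sum_le_sum k2).trans ?_
      rw [← Finset.mul_sum]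
      exact mul_le_of_le_one_right (by positivity) (hgs j)
    have h6 := intervalIntegral.integral_mono_on (a := 0) (b := 1) zero_le_one
      ((hDsc j).intervalIntegrable _ _)
      (continuous_const.intervalIntegrable (μ := volume) (0 : ℝ) (1 : ℝ))
      (fun s _ => k1 s)
    refine h6.trans (le_of_eq ?_)
    simp
  have h6 : ∀ j ∈ F, ‖∑ i ∈ K, q i j‖ ^ 2 ≤
      2 * ‖∑ i ∈ K, ⟪vv (g i j), Bm (O i) T⟫_ℂ‖ ^ 2 + 4 * N * Dt j := by
    intro j _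
    have h7 := pow_le_pow_left₀ (norm_nonneg _) (h3 j) 2
    have h8 := sq_help2 ‖∑ i ∈ K, ⟪vv (g i j), Bm (O i) T⟫_ℂ‖ (Dt j)
    have h9 : Dt j ^ 2 ≤ 2 * N * Dt j := by
      rw [sq]
      exact mul_le_mul_of_nonneg_right (h5 j) (h4 j)
    linarith
  refine (Finset.sum_le_sum h6).trans ?_
  rw [Finset.sum_add_distrib, ← Finset.mul_sum, ← Finset.mul_sum]
  have h7 := bes K I hdisj f hf (fun i => Bm (O i) T) F
  simp only [hgi] at h7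
  have h8 : ∑ j ∈ F, Dt j ≤ ∑ i ∈ K, B i := by
    rw [hDt]
    rw [← intervalIntegral.integral_finsetSum fun j _ => (hDsc j).intervalIntegrable _ _]
    have h9 := intervalIntegral.integral_mono_on (a := 0) (b := 1) zero_le_one
      ((continuous_finsetSum F fun j _ => hDsc j).intervalIntegrable _ _)
      (continuous_const.intervalIntegrable (μ := volume) (0 : ℝ) (1 : ℝ))
      (fun s hs => by
        rw [Finset.sum_comm]
        exact Finset.sum_le_sum fun i hi => hB i hi (s * T) ⟨mul_nonneg hs.1 hT,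
          mul_le_of_le_one_left hT hs.2⟩)
    refine h9.trans (le_of_eq ?_)
    simp
  have h9 : 4 * N * ∑ j ∈ F, Dt j ≤ 4 * N * ∑ i ∈ K, B i :=
    mul_le_mul_of_nonneg_left h8 (by positivity)
  linarith

end Pool.Agent.Q218.BE
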