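import Pool.Agent.Q218.BE.Hoef
import Pool.Agent.Q218.BE.Cut
import Pool.Agent.Q218.WE.CncO

/-! One block with a frozen environment. -/

set_option autoImplicit false
set_option linter.unusedSectionVars false

open scoped BigOperators Topology InnerProductSpace
open MeasureTheory Filter Set ProbabilityTheory

namespace Pool.Agent.Q218.BE

open Pool.Agent.H4R2.LO (Zd bx)
open Pool.Agent.TH794.QD (Sol HS hmk hmk_apply hs_sum)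
open Pool.Agent.Q218.AT
open Pool.Agent.Q150.WE (vw_inner)
open Pool.Agent.Q218.LE (lip_cont S_SPL)
open Pool.Agent.Q218.WE

variable {d : ℕ} {V : Zd d → ℝ} {ψ : Zd d → ℝ → Zd d → ℂ}

/-- the norm of the observable -/
theorem Bo_norm (hd : 1 ≤ d) (hψ : ∀ a, Sol d V a (ψ a)) (Z : Finset (Zd d)) (o : Zd d → ℂ)
    (N : ℝ) (hN : ∑ w ∈ Z, ‖o w‖ ≤ N) (Λ : Finset (Zd d)) (c : Zd d → ℂ) (hc : ∀ x, ‖c x‖ ≤ 1)
    (t : ℝ) : ‖Bo hψ Z o Λ c t‖ ≤ N * Real.sqrt Λ.card := by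
  have h1 : Bo hψ Z o Λ c t = ∑ w ∈ Z, o w • ∑ x ∈ Λ, c x • vw (uu hψ x t) (uu hψ (x + w) t) := by
    unfold Bo
    simp only [Finset.smul_sum]
    rw [Finset.sum_comm]
    refine Finset.sum_congr rfl fun w _ => Finset.sum_congr rfl fun x _ => ?_
    rw [smul_comm]
  rw [h1]
  refine (norm_sum_le _ _).trans ?_
  have h2 : ∀ w ∈ Z, ‖o w • ∑ x ∈ Λ, c x • vw (uu hψ x t) (uu hψ (x + w) t)‖ ≤
      ‖o w‖ * Real.sqrt Λ.card := by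
    intro w _
    rw [norm_smul]
    refine mul_le_mul_of_nonneg_left ?_ (norm_nonneg _)
    apply Real.le_sqrt_of_sq_le
    rw [sum_ortho Λ (fun x => c x • vw (uu hψ x t) (uu hψ (x + w) t))]
    · have h3 : ∀ x ∈ Λ, ‖c x • vw (uu hψ x t) (uu hψ (x + w) t)‖ ^ 2 ≤ 1 := by
        intro x _
        rw [norm_smul, vw_norm hd hψ, mul_one]
        exact pow_le_one₀ (norm_nonneg _) (hc x)
      refine (Finset.sum_le_sum h3).trans (le_of_eq ?_)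
      rw [Finset.sum_const, nsmul_eq_mul, mul_one]
    · intro x _ y _ hxy
      rw [inner_smul_left, inner_smul_right, vw_inner, uu_inner hd hψ, uu_inner hd hψ, sub_self,
        (hψ y).init, if_neg hxy]
      simp
  refine (Finset.sum_le_sum h2).trans ?_
  rw [← Finset.sum_mul]
  exact mul_le_mul_of_nonneg_right hN (Real.sqrt_nonneg _)

theorem Bm_norm (hd : 1 ≤ d) (hψ : ∀ a, Sol d V a (ψ a)) (Z : Finset (Zd d)) (o : Zd d → ℂ)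
    (N : ℝ) (hN : ∑ w ∈ Z, ‖o w‖ ≤ N) (Λ : Finset (Zd d)) (c : Zd d → ℂ) (hc : ∀ x, ‖c x‖ ≤ 1)
    (T : ℝ) : ‖Bm (Bo hψ Z o Λ c) T‖ ^ 2 ≤ N ^ 2 * Λ.card := by
  have hN0 : 0 ≤ N := (Finset.sum_nonneg fun w _ => norm_nonneg _).trans hN
  have h1 : ‖Bm (Bo hψ Z o Λ c) T‖ ≤ N * Real.sqrt Λ.card := by
    unfold Bm
    have h2 : ‖∫ s in (0 : ℝ)..1, Bo hψ Z o Λ c (s * T)‖ ≤ N * Real.sqrt Λ.card * |(1 : ℝ) - 0| :=
      intervalIntegral.norm_integral_le_of_norm_le_const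
        fun s _ => Bo_norm hd hψ Z o N hN Λ c hc (s * T)
    rw [sub_zero, abs_one, mul_one] at h2
    exact h2
  have h2 := pow_le_pow_left₀ (norm_nonneg _) h1 2
  rw [mul_pow, Real.sq_sqrt (Nat.cast_nonneg _)] at h2
  exact h2

/-- scaling -/
theorem Bo_smul (hψ : ∀ a, Sol d V a (ψ a)) (Z : Finset (Zd d)) (o : Zd d → ℂ)
    (Λ : Finset (Zd d)) (c : Zd d → ℂ) (ρ : ℝ) (hρ : |ρ| ≤ 1) (T : ℝ) :
    ‖Bm (Bo hψ Z o Λ (fun x => (ρ : ℂ) * c x)) T‖ ^ 2 ≤ ‖Bm (Bo hψ Z o Λ c) T‖ ^ 2 := by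
  have h1 : ∀ t, Bo hψ Z o Λ (fun x => (ρ : ℂ) * c x) t = (ρ : ℂ) • Bo hψ Z o Λ c t := by
    intro t
    unfold Bo
    rw [Finset.smul_sum]
    refine Finset.sum_congr rfl fun x _ => ?_
    rw [smul_smul]
  have h2 : Bm (Bo hψ Z o Λ (fun x => (ρ : ℂ) * c x)) T = (ρ : ℂ) • Bm (Bo hψ Z o Λ c) T := by
    unfold Bm
    simp only [h1]
    exact intervalIntegral.integral_smul _ _
  rw [h2, norm_smul, mul_pow, Complex.norm_real, Real.norm_eq_abs]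
  exact mul_le_of_le_one_left (sq_nonneg _) (pow_le_one₀ (abs_nonneg _) hρ)

/-- **the frozen environment** -/
theorem frz (hLIPK : S_LIPK) (hSPL : S_SPL) (hd : 1 ≤ d) (μ : Measure ℝ)
    [IsProbabilityMeasure μ] (lam T e : ℝ) (hlam : 0 < lam) (hT : 0 < T)
    (ψ : (Zd d → ℝ) → Zd d → ℝ → Zd d → ℂ) (hψ : ∀ ω a, Sol d (fun x => lam * ω x) a (ψ ω a))
    (Z : Finset (Zd d)) (o : Zd d → ℂ) (N : ℝ) (hN : ∑ w ∈ Z, ‖o w‖ ≤ N)
    (Λ : Finset (Zd d)) (c : Zd d → ℂ) (hc : ∀ x, ‖c x‖ ≤ 1) (Q0 : (Zd d → ℝ) → ℝ)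
    (hQ0 : ∀ ω, ‖Bm (Bo (hψ ω) Z o Λ c) T‖ ^ 2 ≤ Q0 ω)
    (hQi : Integrable Q0 (Measure.infinitePi fun _ : Zd d => μ))
    (hQe : ∫ ω, Q0 ω ∂(Measure.infinitePi fun _ : Zd d => μ) ≤ e) :
    ∃ ω' : Zd d → ℝ,
      Measurable (fun ω : Zd d → ℝ =>
        ‖Bm (Bo (hψ fun x => if x ∈ Λ then ω x else ω' x) Z o Λ c) T‖ ^ 2) ∧
      ∫ ω : Zd d → ℝ, ‖Bm (Bo (hψ fun x => if x ∈ Λ then ω x else ω' x) Z o Λ c) T‖ ^ 2
        ∂(Measure.infinitePi fun _ : Zd d => μ) ≤ e := by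
  obtain ⟨F, hF⟩ : ∃ F : (Zd d → ℝ) → ℝ, F = fun ω => ‖Bm (Bo (hψ ω) Z o Λ c) T‖ := ⟨_, rfl⟩
  have hFω : ∀ ω, ‖Bm (Bo (hψ ω) Z o Λ c) T‖ = F ω := by
    intro ω
    rw [hF]
  have hFb : ∀ ω, F ω ^ 2 ≤ N ^ 2 * Λ.card := fun ω => by
    rw [hF]
    exact Bm_norm hd (hψ ω) Z o N hN Λ c hc T
  simp only [hFω] at hQ0 ⊢
  obtain ⟨ω', hi, hle⟩ := hSPL d μ Λ Q0 hQi
  refine ⟨ω', ?_⟩
  have hlip : ∀ ω1 ω2 : Zd d → ℝ, |F (fun x => if x ∈ Λ then ω1 x else ω' x) -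
      F (fun x => if x ∈ Λ then ω2 x else ω' x)| ≤
      T * (∑ w ∈ Z, ‖o w‖) * lam * Real.sqrt (∑ x ∈ Λ, (ω1 x - ω2 x) ^ 2) := by
    intro ω1 ω2
    have h1 := Bo_lip hLIPK hd (hψ fun x => if x ∈ Λ then ω1 x else ω' x)
      (hψ fun x => if x ∈ Λ then ω2 x else ω' x) Λ (fun x hx => by rw [if_neg hx, if_neg hx]) Z o
      Λ c hc T hT.le
    rw [hFω, hFω] at h1
    have h2 : Real.sqrt (∑ x ∈ Λ, (lam * (if x ∈ Λ then ω1 x else ω' x) -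
        lam * (if x ∈ Λ then ω2 x else ω' x)) ^ 2) =
        lam * Real.sqrt (∑ x ∈ Λ, (ω1 x - ω2 x) ^ 2) := by
      have h3 : ∑ x ∈ Λ, (lam * (if x ∈ Λ then ω1 x else ω' x) -
        lam * (if x ∈ Λ then ω2 x else ω' x)) ^ 2 = lam ^ 2 * ∑ x ∈ Λ, (ω1 x - ω2 x) ^ 2 := by
        rw [Finset.mul_sum]
        refine Finset.sum_congr rfl fun x hx => ?_
        rw [if_pos hx, if_pos hx]
        ring
      rw [h3, Real.sqrt_mul (sq_nonneg _), Real.sqrt_sq hlam.le]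
    rw [h2] at h1
    refine h1.trans (le_of_eq ?_)
    ring
  have hcont := lip_cont Λ (fun ω => F fun x => if x ∈ Λ then ω x else ω' x) _ hlip
  have hm : Measurable (fun ω : Zd d → ℝ => F (fun x => if x ∈ Λ then ω x else ω' x) ^ 2) :=
    (hcont.pow 2).measurable
  refine ⟨hm, ?_⟩
  refine le_trans ?_ (hle.trans hQe)
  refine integral_mono ?_ hi fun ω => hQ0 _
  refine Integrable.of_bound (C := N ^ 2 * Λ.card) hm.aestronglyMeasurable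
    (Filter.Eventually.of_forall fun ω => ?_)
  rw [Real.norm_of_nonneg (sq_nonneg _)]
  exact hFb _

end Pool.Agent.Q218.BE
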