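import Pool.Agent.Q218.AT.Hil
import Mathlib.Probability.Independence.InfinitePi
import Mathlib.Probability.Moments.SubGaussian
import Mathlib.Probability.ProductMeasure

/-! Functions of disjoint blocks of coordinates. -/

set_option autoImplicit false
set_option linter.unusedSectionVars false

open scoped BigOperators
open MeasureTheory Set ProbabilityTheory

namespace Pool.Agent.Q218.BE

open Pool.Agent.H4R2.LO (Zd)

variable {d : ℕ}

/-- extension by zero -/
noncomputable def ex (K : Finset (Zd d)) (y : K → ℝ) (x : Zd d) : ℝ :=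
  if h : x ∈ K then y ⟨x, h⟩ else 0

theorem ex_meas (K : Finset (Zd d)) : Measurable (ex K) := by
  refine measurable_pi_lambda _ fun x => ?_
  unfold ex
  by_cases h : x ∈ K
  · simp only [dif_pos h]
    exact measurable_pi_apply _
  · simp only [dif_neg h]
    exact measurable_const

theorem ex_eq (K : Finset (Zd d)) (X : (Zd d → ℝ) → ℝ)
    (hdep : ∀ ω ω', (∀ x ∈ K, ω x = ω' x) → X ω = X ω') (ω : Zd d → ℝ) :
    X ω = X (ex K fun i : K => ω i) := by
  refine hdep _ _ fun x hx => ?_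
  unfold ex
  rw [dif_pos hx]

/-- functions of disjoint blocks are independent -/
theorem indepBlk {κ : Type*} (μ : Measure ℝ) [IsProbabilityMeasure μ] (Q : κ → Finset (Zd d))
    (hdisj : ∀ i j, i ≠ j → Disjoint (Q i) (Q j)) (X : κ → (Zd d → ℝ) → ℝ)
    (hm : ∀ i, Measurable (X i))
    (hdep : ∀ i ω ω', (∀ x ∈ Q i, ω x = ω' x) → X i ω = X i ω') :
    iIndepFun X (Measure.infinitePi fun _ : Zd d => μ) := by
  classical
  rw [iIndepFun_iff_measure_inter_preimage_eq_mul]
  intro S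
  induction S using Finset.induction with
  | empty =>
    intro sets _
    simp
  | insert a S ha ih =>
    intro sets hs
    rw [Finset.set_biInter_insert, Finset.prod_insert ha]
    rw [← ih fun i hi => hs i (Finset.mem_insert_of_mem hi)]
    obtain ⟨T, hT⟩ : ∃ T : Finset (Zd d), T = S.biUnion Q := ⟨_, rfl⟩
    have hdT : Disjoint (Q a) T := by
      rw [hT, Finset.disjoint_biUnion_right]
      intro i hi
      exact hdisj a i fun h => ha (h ▸ hi)
    have hind := iIndepFun_infinitePi (P := fun _ : Zd d => μ) (X := fun _ (s : ℝ) => s)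
      (fun _ => measurable_id)
    have h1 := iIndepFun.indepFun_finset (Q a) T hdT hind fun i => measurable_pi_apply i
    rw [indepFun_iff_measure_inter_preimage_eq_mul] at h1
    have h2 := h1 {y | X a (ex (Q a) y) ∈ sets a} {y | ∀ i ∈ S, X i (ex T y) ∈ sets i}
      (((hm a).comp (ex_meas (Q a))) (hs a (Finset.mem_insert_self _ _)))
      (by
        have h3 : {y : T → ℝ | ∀ i ∈ S, X i (ex T y) ∈ sets i} =
            ⋂ i ∈ S, {y : T → ℝ | X i (ex T y) ∈ sets i} := by
          ext y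
          simp
        rw [h3]
        refine S.measurableSet_biInter fun i hi => ?_
        exact ((hm i).comp (ex_meas T)) (hs i (Finset.mem_insert_of_mem hi)))
    have e1 : (fun (ω : Zd d → ℝ) (i : Q a) => ω i) ⁻¹' {y | X a (ex (Q a) y) ∈ sets a} =
        X a ⁻¹' sets a := by
      ext ω
      simp only [Set.mem_preimage, Set.mem_setOf_eq]
      rw [← ex_eq (Q a) (X a) (hdep a)]
    have e2 : (fun (ω : Zd d → ℝ) (i : T) => ω i) ⁻¹' {y | ∀ i ∈ S, X i (ex T y) ∈ sets i} =
        ⋂ i ∈ S, X i ⁻¹' sets i := by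
      ext ω
      simp only [Set.mem_preimage, Set.mem_setOf_eq, Set.mem_iInter]
      refine forall₂_congr fun i hi => ?_
      rw [← ex_eq T (X i) fun ω ω' h => hdep i ω ω' fun x hx => h x ?_]
      rw [hT]
      exact Finset.mem_biUnion.2 ⟨i, hi, hx⟩
    rw [e1, e2] at h2
    exact h2

/-- **Hoeffding's inequality for blocks** -/
theorem hoef {κ : Type*} (μ : Measure ℝ) [IsProbabilityMeasure μ] (Q : κ → Finset (Zd d))
    (hdisj : ∀ i j, i ≠ j → Disjoint (Q i) (Q j)) (X : κ → (Zd d → ℝ) → ℝ)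
    (hm : ∀ i, Measurable (X i))
    (hdep : ∀ i ω ω', (∀ x ∈ Q i, ω x = ω' x) → X i ω = X i ω') (A m s : ℝ) (hA : 0 < A)
    (h0 : ∀ i ω, 0 ≤ X i ω) (h1 : ∀ i ω, X i ω ≤ A)
    (he : ∀ i, ∫ ω, X i ω ∂(Measure.infinitePi fun _ : Zd d => μ) ≤ m) (hs : 0 ≤ s)
    (K : Finset κ) :
    (Measure.infinitePi fun _ : Zd d => μ).real {ω | K.card * (m + s) ≤ ∑ i ∈ K, X i ω} ≤
      Real.exp (-(2 * K.card * s ^ 2 / A ^ 2)) := by
  obtain ⟨P, hP⟩ : ∃ P : Measure (Zd d → ℝ), P = Measure.infinitePi fun _ : Zd d => μ := ⟨_, rfl⟩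
  have hPp : IsProbabilityMeasure P := by rw [hP]; infer_instance
  have hind := indepBlk μ Q hdisj X hm hdep
  rw [← hP] at hind ⊢
  have hY : iIndepFun (fun i ω => X i ω - ∫ ω, X i ω ∂P) P := by
    have := hind.comp (fun i x => x - ∫ ω, X i ω ∂P) fun i => by fun_prop
    exact this
  have hsub : ∀ i ∈ K, HasSubgaussianMGF (fun ω => X i ω - ∫ ω, X i ω ∂P)
      ((‖A - 0‖₊ / 2) ^ 2) P := fun i _ =>
    hasSubgaussianMGF_of_mem_Icc (hm i).aemeasurable (Filter.Eventually.of_forall fun ω =>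
      ⟨h0 i ω, h1 i ω⟩)
  have h2 := HasSubgaussianMGF.measure_sum_ge_le_of_iIndepFun hY hsub
    (ε := K.card * s) (by positivity)
  refine (measureReal_mono ?_).trans (h2.trans ?_)
  · intro ω hω
    have h3 : K.card * (m + s) ≤ ∑ i ∈ K, X i ω := hω
    have h4 : ∑ i ∈ K, ∫ ω, X i ω ∂P ≤ K.card * m := by
      have h5 : ∀ i ∈ K, ∫ ω, X i ω ∂P ≤ m := fun i _ => by
        rw [hP]
        exact he i
      refine (Finset.sum_le_sum h5).trans (le_of_eq ?_)
      rw [Finset.sum_const, nsmul_eq_mul]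
    have h5 : ∑ i ∈ K, (X i ω - ∫ ω, X i ω ∂P) = ∑ i ∈ K, X i ω - ∑ i ∈ K, ∫ ω, X i ω ∂P :=
      Finset.sum_sub_distrib _ _
    show K.card * s ≤ ∑ i ∈ K, (X i ω - ∫ ω, X i ω ∂P)
    rw [h5]
    linarith
  · apply Real.exp_le_exp.2
    have h3 : ((∑ i ∈ K, (‖A - 0‖₊ / 2) ^ 2 : NNReal) : ℝ) = K.card * (A / 2) ^ 2 := by
      rw [Finset.sum_const, nsmul_eq_mul]
      push_cast
      rw [sub_zero, Real.norm_of_nonneg hA.le]
    rw [h3]
    rcases (Nat.cast_nonneg (α := ℝ) K.card).eq_or_lt with h | h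
    · rw [← h]
      simp
    · refine le_of_eq ?_
      field_simp

end Pool.Agent.Q218.BE
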