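import Pool.Agent.Q218.BE.Ph2
import Pool.Agent.Q218.WE.NtO

/-! The momenta, for one box and one translation. -/

set_option autoImplicit false
set_option linter.unusedSectionVars false

open scoped BigOperators Topology InnerProductSpace
open MeasureTheory Filter Set ProbabilityTheory

namespace Pool.Agent.Q218.BE

open Pool.Agent.W788.LD.Spec (S)
open Pool.Agent.H4R2.LO (Zd bx)
open Pool.Agent.H4R2.LO.Em (card_bx)
open Pool.Agent.TH794.QD (Sol HS hmk hmk_apply hs_sum)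
open Pool.Agent.Q218.AT
open Pool.Agent.Q218.AD (small_rpow)
open Pool.Agent.Q218.UD (exists_solU)
open Pool.Agent.Q218.LE (S_SPL Tail)
open Pool.Agent.Q218.WE

variable {d : ℕ}

/-- the sum over one block -/
theorem blkM (q : Zd d) (ℓ n : ℕ) (hn : n ≤ ℓ) (hn1 : 1 ≤ n) (Z : Finset (Zd d)) (o : Zd d → ℂ)
    (hZ : ∀ w ∈ Z, ‖w‖ + 1 ≤ n) (g : HS d) (a : Zd d → ℝ) (ρ : ℝ) :
    ∑ x ∈ bx q ℓ, ((ρ : ℂ) * (if x ∈ bx q (ℓ - n) then ((a x : ℝ) : ℂ) else 0)) *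
      ((starRingEnd ℂ) (cut (bx q (ℓ - 1)) g x) *
      cv Z o (fun y => cut (bx q (ℓ - 1)) g y) x) =
      ∑ x ∈ bx q (ℓ - n), ((ρ * a x : ℝ) : ℂ) * ((starRingEnd ℂ) (g x) *
        cv Z o (fun y => g y) x) := by
  rw [← Finset.sum_subset (bx_sub q ℓ n)]
  · refine Finset.sum_congr rfl fun x hx => ?_
    rw [if_pos hx]
    have hx2 : ‖x - q‖ ≤ ℓ - n := by
      rw [mem_bx'] at hx
      refine hx.trans (le_of_eq ?_)
      push_cast [Nat.cast_sub hn]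
      rfl
    have h1 : ((ℓ - 1 : ℕ) : ℝ) = ℓ - 1 := by
      push_cast [Nat.cast_sub (hn1.trans hn)]
      rfl
    have hn1' : (1 : ℝ) ≤ n := by exact_mod_cast hn1
    have hxI : x ∈ bx q (ℓ - 1) := by
      rw [mem_bx', h1]
      linarith
    have e : cv Z o (fun y => cut (bx q (ℓ - 1)) g y) x = cv Z o (fun y => g y) x := by
      unfold cv
      refine Finset.sum_congr rfl fun w hw => ?_
      have h2 : x + w ∈ bx q (ℓ - 1) := by
        rw [mem_bx', h1]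
        have h3 : x + w - q = (x - q) + w := by abel
        rw [h3]
        have h4 := norm_add_le (x - q) w
        have h5 := hZ w hw
        linarith
      show o w * cut (bx q (ℓ - 1)) g (x + w) = o w * g (x + w)
      rw [cut_mem g h2]
    rw [e, cut_mem g hxI]
    push_cast
    ring
  · intro x _ hx
    rw [if_neg hx, mul_zero, zero_mul]

/-- almost every potential is bounded -/
theorem bd_null (μ : Measure ℝ) [IsProbabilityMeasure μ] (B0 : ℝ) (hbd : ∀ᵐ s ∂μ, |s| ≤ B0)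
    (Λ : Finset (Zd d)) :
    (Measure.infinitePi fun _ : Zd d => μ).real {ω | ∀ x ∈ Λ, |ω x| ≤ B0}ᶜ = 0 := by
  have h1 : ∀ x : Zd d, ∀ᵐ ω ∂(Measure.infinitePi fun _ : Zd d => μ), |ω x| ≤ B0 := by
    intro x
    have h2 := (measurePreserving_eval_infinitePi (fun _ : Zd d => μ) x).quasiMeasurePreserving
    exact h2.ae hbd
  have h2 : ∀ᵐ ω ∂(Measure.infinitePi fun _ : Zd d => μ), ∀ x ∈ Λ, |ω x| ≤ B0 := by
    rw [Filter.eventually_all_finset]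
    exact fun x _ => h1 x
  rw [measureReal_eq_zero_iff]
  exact h2

/-- **the momenta, one box** -/
theorem momA (hAMPZ : S_AMPZ) (hABEL : S_ABEL) (hLIPK : S_LIPK) (hPLA : S_PLA) (hOPN : S_OPN)
    (hEXPK : S_EXPK) (hDROP : S_DROP) (hSPL : S_SPL)
    (d : ℕ) (hd : 3 ≤ d) (μ : Measure ℝ)
    [IsProbabilityMeasure μ] (B0 : ℝ) (hB0 : 0 < B0) (hbd : ∀ᵐ s ∂μ, |s| ≤ B0)
    (M V : ℝ) (hV0 : 0 < V) (h1 : Integrable (fun s => s) μ)
    (h2 : Integrable (fun s => (s - M) ^ 2) μ) (hM : ∫ s, s ∂μ = M)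
    (hV : ∫ s, (s - M) ^ 2 ∂μ = V) (hT : Tail d μ M) (v : Zd d) (κt : ℝ) (hκt : 0 < κt)
    (ε : ℝ) (hε : 0 < ε) :
    ∃ l0 : ℝ, 0 < l0 ∧ ∀ lam : ℝ, 0 < lam → lam ≤ l0 →
    ∀ a : Zd d → ℝ, (∀ x, |a x| ≤ 1) → ∀ (b : Zd d) (L : ℕ), lam ^ (-(5 / 2) : ℝ) ≤ L →
    ∃ G : Set (Zd d → ℝ), MeasurableSet G ∧
      (Measure.infinitePi fun _ : Zd d => μ).real Gᶜ ≤
        Real.exp (-(lam ^ (11 / 5 * d : ℝ) * (bx b L).card)) ∧
      ∀ ω ∈ G, ∀ ρ : Zd d → ℝ, (∀ x, |ρ x| ≤ 1) →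
      (∀ x y, |ρ x - ρ y| ≤ lam ^ (211 / 100 : ℝ) * ‖x - y‖) →
      ∀ (J : Type) (f : J → HS d), Orthonormal ℂ f → ∀ (E : J → ℝ),
      (∀ j x, ‖x - b‖ < L → -S (fun y => f j y) x + ((lam * ω x : ℝ) : ℂ) * f j x =
        (E j : ℂ) * f j x) →
      ∀ s : Finset J, (∀ j ∈ s, |E j| ≤ 2 * d - κt) →
        ∑ j ∈ s, ‖∑ x ∈ bx b L, ((a x * ρ x : ℝ) : ℂ) * ((starRingEnd ℂ) (f j x) * f j (x + v) -
          ((Fr d v (-E j) * ‖f j x‖ ^ 2 : ℝ) : ℂ))‖ ^ 2 ≤ ε * (bx b L).card := by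
  classical
  have hd1 : 1 ≤ d := by omega
  have hd0 : (0 : ℝ) < d := by
    have : 0 < d := by omega
    exact_mod_cast this
  have hpi := Real.pi_pos
  -- the constants
  obtain ⟨εc, hεc⟩ : ∃ εc, εc = ε / 576 := ⟨_, rfl⟩
  have hεc0 : 0 < εc := by rw [hεc]; positivity
  obtain ⟨e, he⟩ : ∃ e, e = εc / 72 := ⟨_, rfl⟩
  have he0 : 0 < e := by rw [he]; positivity
  obtain ⟨e1, he1⟩ : ∃ e1, e1 = min 1 (ε / 64) := ⟨_, rfl⟩
  have he10 : 0 < e1 := by rw [he1]; positivity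
  have he12 : 8 * e1 ^ 2 ≤ ε / 8 := by
    have k1 : e1 ≤ 1 := by rw [he1]; exact min_le_left _ _
    have k2 : e1 ≤ ε / 64 := by rw [he1]; exact min_le_right _ _
    have k3 : e1 ^ 2 ≤ e1 := by
      rw [sq]
      exact mul_le_of_le_one_left he10.le k1
    linarith
  obtain ⟨θ, hθ⟩ : ∃ θ, θ = min 1 (ε / 256) := ⟨_, rfl⟩
  have hθ0 : 0 < θ := by rw [hθ]; positivity
  have hθ1 : θ ≤ 1 := by rw [hθ]; exact min_le_left _ _
  have hθ2 : 32 * θ ≤ ε / 8 := by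
    have h3 : θ ≤ ε / 256 := by rw [hθ]; exact min_le_right _ _
    linarith
  obtain ⟨m1, hm1⟩ : ∃ m1, m1 = e ^ 2 / 27 := ⟨_, rfl⟩
  have hm10 : 0 < m1 := by rw [hm1]; positivity
  obtain ⟨em, hem⟩ : ∃ em, em = e * Real.pi / (36 * d) := ⟨_, rfl⟩
  have hem0 : 0 < em := by rw [hem]; positivity
  have hsum : e / 3 / 2 + m1 / (e / 3) + 2 * (2 * d) / Real.pi * em ≤ e / 2 := by
    have k1 : m1 / (e / 3) = e / 9 := by
      rw [hm1]
      field_simp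
      ring
    have k2 : 2 * (2 * d) / Real.pi * em = e / 9 := by
      rw [hem]
      field_simp
      ring
    rw [k1, k2]
    linarith
  obtain ⟨κ0, hκ00, hκ01, hκ0⟩ := bulk_mass d hd m1 hm10
  obtain ⟨κ, hκd⟩ : ∃ κ, κ = min κt κ0 := ⟨_, rfl⟩
  have hκ : 0 < κ := by rw [hκd]; exact lt_min hκt hκ00
  have hκκ0 : κ ≤ κ0 := by rw [hκd]; exact min_le_right _ _
  have hκκt : κ ≤ κt := by rw [hκd]; exact min_le_left _ _
  have hκ1 : κ ≤ 1 := hκκ0.trans hκ01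
  obtain ⟨P, hP2, hPF, hF1, hEng⟩ := freeO hAMPZ d hd v κ hκ hκ1 (em / 2) (by positivity) e1 he10
  obtain ⟨CP, hCP, hphD⟩ := phD2 hDROP hd1 v P
  obtain ⟨R0, hR0⟩ : ∃ R0 : ℕ, ∀ w ∈ ZO v P, ‖w‖ ≤ R0 := by
    refine ⟨⌈∑ w ∈ ZO v P, ‖w‖⌉₊, fun w hw => ?_⟩
    have h1 := Finset.single_le_sum (f := fun w : Zd d => ‖w‖) (fun _ _ => norm_nonneg _) hw
    exact h1.trans (Nat.le_ceil _)
  obtain ⟨n, hn⟩ : ∃ n, n = P.natDegree + R0 + 1 := ⟨_, rfl⟩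
  have hn1 : 1 ≤ n := by omega
  have hnZ : ∀ w ∈ ZO v P, ‖w‖ + 1 ≤ n := by
    intro w hw
    have h3 := hR0 w hw
    rw [hn]
    push_cast
    have : (0 : ℝ) ≤ P.natDegree := Nat.cast_nonneg _
    linarith
  obtain ⟨l1, hl1, hex⟩ := exO hPLA hOPN hEXPK d hd κ hκ hκ1 (ZO v P) (oO v P)
    (fun p => sym_le v P hP2 p) (oO_conj v P) em hem0 hEng m1 hm10 (hκ0 κ hκ hκκ0) (e / 3)
    (by positivity) (e / 2) hsum μ M V hV0 h1 h2 hM hV hT
  obtain ⟨l2, hl2, hco⟩ := core hLIPK hSPL d hd1 μ (ZO v P) (oO v P) εc hεc0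
  obtain ⟨l3, hl3, hl31, hnum⟩ := num2 d n hd1 θ hθ0
  obtain ⟨l4, hl4, hs4⟩ := small_rpow 2 (ε / (64 * (CP * B0 ^ 2 + 1))) (by norm_num) (by positivity)
  refine ⟨min (min l1 l2) (min l3 l4), by positivity, ?_⟩
  intro lam hlam hlam0 a ha b L hL
  have b1 : lam ≤ l1 := hlam0.trans ((min_le_left _ _).trans (min_le_left _ _))
  have b2 : lam ≤ l2 := hlam0.trans ((min_le_left _ _).trans (min_le_right _ _))
  have b3 : lam ≤ l3 := hlam0.trans ((min_le_right _ _).trans (min_le_left _ _))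
  have b4 : lam ≤ l4 := hlam0.trans ((min_le_right _ _).trans (min_le_right _ _))
  obtain ⟨T, hTd⟩ : ∃ T, T = lam ^ (-(2024 / 1000) : ℝ) := ⟨_, rfl⟩
  have hT0 : 0 < T := by rw [hTd]; positivity
  obtain ⟨ℓ, hℓ⟩ : ∃ ℓ : ℕ, ℓ = ⌈lam ^ (-(21 / 10) : ℝ)⌉₊ := ⟨_, rfl⟩
  obtain ⟨k1, k2, k3⟩ := ell_le lam hlam (b3.trans hl31)
  rw [← hℓ] at k1 k2 k3
  obtain ⟨hnℓ, hℓL, hrl, hbdr⟩ := hnum lam hlam b3 ℓ hℓ L hL
  choose ψ hψ using fun (ω : Zd d → ℝ) (y : Zd d) =>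
    exists_solU hd1 (fun x => lam * ω x) y
  obtain ⟨c, hc⟩ : ∃ c : Zd d → Zd d → ℂ, c = fun q x =>
    if x ∈ bx q (ℓ - n) then ((a x : ℝ) : ℂ) else 0 := ⟨_, rfl⟩
  have hc1 : ∀ q x, ‖c q x‖ ≤ 1 := by
    intro q x
    rw [hc]
    simp only
    split_ifs
    · rw [Complex.norm_real]
      exact ha x
    · rw [norm_zero]
      exact zero_le_one
  obtain ⟨G1, hG1, hPG1, hGL⟩ := hco lam hlam b2 T hTd ℓ hℓ ψ hψ c hc1
    (fun q => by
      obtain ⟨i1, i2⟩ := hex lam hlam b1 T hTd ψ hψ (bx q ℓ) (c q) (hc1 q)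
      refine ⟨fun ω => 9 * ∫ s in Ioi (0 : ℝ), Real.exp (-s) *
        (Sk (ZO v P) (oO v P) (ψ ω) (bx q ℓ) (c q) (s * T)).re, fun ω => ?_, i1.const_mul 9, ?_⟩
      · exact Bo_abel hABEL hd1 (hψ ω) (ZO v P) (oO v P) (bx q ℓ) (c q) T hT0
      · rw [integral_const_mul]
        have k5 : εc / 8 * ((bx q ℓ).card : ℝ) = 9 * (2 * (e / 2) * (bx q ℓ).card) := by
          rw [he]
          ring
        rw [k5]
        exact mul_le_mul_of_nonneg_left i2 (by norm_num)) b L hL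
  refine ⟨G1 ∩ {ω | ∀ x ∈ bx b L, |ω x| ≤ B0}, hG1.inter ?_, ?_, ?_⟩
  · have h3 : {ω : Zd d → ℝ | ∀ x ∈ bx b L, |ω x| ≤ B0} =
        ⋂ x ∈ bx b L, {ω : Zd d → ℝ | |ω x| ≤ B0} := by
      ext ω
      simp
    rw [h3]
    exact Finset.measurableSet_biInter _ fun x _ => measurableSet_le (by fun_prop) measurable_const
  · rw [Set.compl_inter]
    refine (measureReal_union_le _ _).trans ?_
    rw [bd_null μ B0 hbd (bx b L), add_zero]
    exact hPG1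
  intro ω hω ρ hρ1 hρ2 J f hf E he2 s hs
  obtain ⟨m, hm⟩ : ∃ m, m = (L - ℓ) / (2 * ℓ + 1) := ⟨_, rfl⟩
  have key := hGL ω hω.1 (fun k => ρ (ctr b ℓ k)) (fun k => hρ1 _) J f hf E he2 s
  rw [← hm] at key
  obtain ⟨U, hU⟩ : ∃ U, U = inn b ℓ m n := ⟨_, rfl⟩
  have hmL : m * (2 * ℓ + 1) + ℓ ≤ L := by
    have h4 := Nat.div_mul_le_self (L - ℓ) (2 * ℓ + 1)
    rw [← hm] at h4
    omega
  have hUn : U ⊆ bx b (L - n) := by
    rw [hU]
    exact inn_sub b ℓ m n L hmL hnℓ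
  have hUP : U ⊆ bx b (L - P.natDegree) := by
    refine hUn.trans ?_
    intro z hz
    rw [mem_bx'] at hz ⊢
    refine hz.trans ?_
    have : L - n ≤ L - P.natDegree := by omega
    exact_mod_cast this
  have hUL : U ⊆ bx b L := hUP.trans (bx_sub b L _)
  have hUc : ((bx b L \ U).card : ℝ) ≤ θ * (bx b L).card := by
    have h3 := inn_card b ℓ n L hℓL hnℓ
    rw [← hm, ← hU, ← add_mul] at h3
    exact h3.trans (mul_le_mul_of_nonneg_right hbdr (Nat.cast_nonneg _))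
  -- the core sum
  obtain ⟨a', ha'⟩ : ∃ a' : Zd d → ℝ, a' = fun x => rt b ℓ ρ x * a x := ⟨_, rfl⟩
  have ha'1 : ∀ x, |a' x| ≤ 1 := by
    intro x
    rw [ha']
    simp only
    rw [abs_mul]
    exact mul_le_one₀ (hρ1 _) (abs_nonneg _) (ha x)
  obtain ⟨c', hc'⟩ : ∃ c' : Zd d → ℂ, c' = fun x => if x ∈ U then ((a' x : ℝ) : ℂ) else 0 :=
    ⟨_, rfl⟩
  have hAj : ∀ j, ∑ k ∈ bx (0 : Zd d) m, ∑ x ∈ bx (ctr b ℓ k) ℓ,
      ((ρ (ctr b ℓ k) : ℂ) * c (ctr b ℓ k) x) *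
        ((starRingEnd ℂ) (cut (bx (ctr b ℓ k) (ℓ - 1)) (f j) x) *
        cv (ZO v P) (oO v P) (fun y => cut (bx (ctr b ℓ k) (ℓ - 1)) (f j) y) x) =
      ∑ x ∈ bx b L, c' x * ((starRingEnd ℂ) (f j x) *
          cv (ZO v P) (oO v P) (fun y => f j y) x) := by
    intro j
    have e3 : ∑ x ∈ bx b L, c' x * ((starRingEnd ℂ) (f j x) *
          cv (ZO v P) (oO v P) (fun y => f j y) x) =
        ∑ x ∈ inn b ℓ m n, ((a' x : ℝ) : ℂ) * ((starRingEnd ℂ) (f j x) *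
          cv (ZO v P) (oO v P) (fun y => f j y) x) := by
      rw [← hU, ← Finset.sum_subset hUL]
      · refine Finset.sum_congr rfl fun x hx => ?_
        rw [hc']
        simp only [if_pos hx]
      · intro x _ hx
        rw [hc']
        simp only [if_neg hx, zero_mul]
    rw [e3, inn_sum]
    refine Finset.sum_congr rfl fun k _ => ?_
    have e4 := blkM (ctr b ℓ k) ℓ n hnℓ hn1 (ZO v P) (oO v P) hnZ (f j) a (ρ (ctr b ℓ k))
    rw [hc]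
    refine e4.trans ?_
    refine Finset.sum_congr rfl fun x hx => ?_
    rw [ha']
    simp only
    rw [rt_mem b ℓ ρ k x (bx_sub _ ℓ n hx)]
  simp only [hAj] at key
  have fin := hphD κ e1 (Fr d v) hκ.le hPF hF1 (fun x => lam * ω x) b L
    (by
      have : n ≤ L := hnℓ.trans hℓL
      omega) U hUP a' c' ha'1 (fun x hx => by
      rw [hc']
      exact if_pos hx) (fun x hx => by
      rw [hc']
      exact if_neg hx) J f hf E (fun j x hx => he2 j x hx) s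
    (fun j hj => (hs j hj).trans (by linarith))
  obtain ⟨Nc, hNc⟩ : ∃ Nc : ℝ, Nc = (bx b L).card := ⟨_, rfl⟩
  have hNc0 : 0 ≤ Nc := by rw [hNc]; exact Nat.cast_nonneg _
  have hW : ∑ x ∈ bx b L, (lam * ω x) ^ 2 ≤ lam ^ 2 * B0 ^ 2 * Nc := by
    have h4 : ∀ x ∈ bx b L, (lam * ω x) ^ 2 ≤ lam ^ 2 * B0 ^ 2 := by
      intro x hx
      have h5 := pow_le_pow_left₀ (abs_nonneg _) (hω.2 x hx) 2
      rw [sq_abs] at h5
      rw [mul_pow]
      exact mul_le_mul_of_nonneg_left h5 (sq_nonneg _)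
    refine (Finset.sum_le_sum h4).trans (le_of_eq ?_)
    rw [Finset.sum_const, nsmul_eq_mul, hNc]
    ring
  have h4J : ∑ j ∈ s, ∑ x ∈ bx b L, ‖f j x‖ ^ 2 ≤ Nc := by
    rw [Finset.sum_comm, hNc]
    refine (Finset.sum_le_sum fun x _ => pt_le f hf s x).trans (le_of_eq ?_)
    rw [Finset.sum_const, nsmul_eq_mul, mul_one]
  have hrl0 : lam ^ (211 / 100 : ℝ) * ℓ ≤ θ := by
    have h3 := hrl 0 (by
      rw [Nat.cast_zero]
      positivity)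
    rw [Nat.cast_zero, zero_add] at h3
    exact h3
  have hDx : ∀ x ∈ bx b L, |a x * ρ x - a' x| ≤ 2 * θ := by
    intro x _
    have e2 := rt_le b ℓ ρ (lam ^ (211 / 100 : ℝ)) hρ2 (by positivity) x x
    rw [sub_self, norm_zero, zero_add] at e2
    have e3 : a x * ρ x - a' x = a x * (ρ x - rt b ℓ ρ x) := by
      rw [ha']
      ring
    rw [e3, abs_mul]
    calc |a x| * |ρ x - rt b ℓ ρ x| ≤ 1 * θ :=
          mul_le_mul (ha x) (e2.trans hrl0) (abs_nonneg _) zero_le_one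
      _ ≤ 2 * θ := by linarith
  have h3 : ∀ j ∈ s, ‖∑ x ∈ bx b L, ((a x * ρ x : ℝ) : ℂ) * ((starRingEnd ℂ) (f j x) *
      f j (x + v) - ((Fr d v (-E j) * ‖f j x‖ ^ 2 : ℝ) : ℂ))‖ ^ 2 ≤
      2 * ‖∑ x ∈ bx b L, ((a' x : ℝ) : ℂ) * ((starRingEnd ℂ) (f j x) * f j (x + v) -
        ((Fr d v (-E j) * ‖f j x‖ ^ 2 : ℝ) : ℂ))‖ ^ 2 +
      32 * θ ^ 2 * ∑ x ∈ bx b L, ‖f j x‖ ^ 2 := by
    intro j hj
    have h5 := err_le (bx b L) (f j) (hf.1 j) v (Fr d v (-E j))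
      (hF1 (-E j) (by rw [abs_neg]; exact (hs j hj).trans (by linarith)))
      (fun x => a x * ρ x - a' x) θ hθ0.le hDx
    refine (dev_le _ (∑ x ∈ bx b L, ((a' x : ℝ) : ℂ) * ((starRingEnd ℂ) (f j x) *
        f j (x + v) - ((Fr d v (-E j) * ‖f j x‖ ^ 2 : ℝ) : ℂ))) _ ?_ _ h5).trans (le_of_eq ?_)
    swap
    · ring
    · rw [← Finset.sum_add_distrib]
      refine Finset.sum_congr rfl fun x _ => ?_
      push_cast
      ring
  refine (Finset.sum_le_sum h3).trans ?_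
  rw [Finset.sum_add_distrib, ← Finset.mul_sum, ← Finset.mul_sum]
  rw [← hNc] at key hUc fin ⊢
  have q1 : 8 * (CP * ∑ x ∈ bx b L, (lam * ω x) ^ 2) ≤ ε / 8 * Nc := by
    have h5 := hs4 lam hlam b4
    have e5 : lam ^ 2 = lam ^ (2 : ℝ) := (Real.rpow_natCast lam 2).symm
    rw [le_div_iff₀ (by positivity), ← e5] at h5
    have h6 : 8 * (CP * ∑ x ∈ bx b L, (lam * ω x) ^ 2) ≤ 8 * (CP * (lam ^ 2 * B0 ^ 2 * Nc)) := by
      gcongr
    have h7 : 8 * (CP * (lam ^ 2 * B0 ^ 2 * Nc)) = 8 * (lam ^ 2 * (CP * B0 ^ 2)) * Nc := by ring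
    rw [h7] at h6
    refine h6.trans (mul_le_mul_of_nonneg_right ?_ hNc0)
    have h8 : 0 ≤ lam ^ 2 := sq_nonneg _
    linarith
  have q2 : 8 * (e1 ^ 2 * Nc) ≤ ε / 8 * Nc := by
    rw [← mul_assoc]
    exact mul_le_mul_of_nonneg_right he12 hNc0
  have q3 : 32 * ((bx b L \ U).card : ℝ) ≤ ε / 8 * Nc := by
    have : 32 * (θ * Nc) ≤ ε / 8 * Nc := by
      rw [← mul_assoc]
      exact mul_le_mul_of_nonneg_right hθ2 hNc0
    linarith
  have q4 : 32 * θ ^ 2 * ∑ j ∈ s, ∑ x ∈ bx b L, ‖f j x‖ ^ 2 ≤ ε / 8 * Nc := by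
    have h5 : 32 * θ ^ 2 ≤ ε / 8 := by
      have : θ ^ 2 ≤ θ := by
        rw [sq]
        exact mul_le_of_le_one_left hθ0.le hθ1
      linarith
    exact mul_le_mul h5 h4J (Finset.sum_nonneg fun j _ => Finset.sum_nonneg fun x _ => sq_nonneg _)
      (by positivity)
  have q5 : 72 * (εc * Nc) = ε / 8 * Nc := by
    rw [hεc]
    ring
  have q6 : 0 ≤ ε * Nc := by positivity
  linarith

end Pool.Agent.Q218.BE
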