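import Pool.Agent.Q218.BE.Mom
import Pool.Agent.Q218.LE.All

/-! One box, all averaging radii and translations. -/

set_option autoImplicit false
set_option linter.unusedSectionVars false

open scoped BigOperators Topology InnerProductSpace
open MeasureTheory Filter Set ProbabilityTheory

namespace Pool.Agent.Q218.BE

open Pool.Agent.W788.LD.Spec (S)
open Pool.Agent.H4R2.LO (Zd bx)
open Pool.Agent.H4R2.LO.Em (card_bx)
open Pool.Agent.TH794.QD (Sol HS hmk hmk_apply hs_sum)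
open Pool.Agent.Q218.AT
open Pool.Agent.Q218.AD (small_rpow)
open Pool.Agent.Q218.LE (S_SPL S_CUBE S_EXP Tail FreeE Good av)
open Pool.Agent.Q218.WE

theorem card_low (d : ℕ) (lam : ℝ) (hlam : 0 < lam) (b : Zd d) (L : ℕ)
    (hL : lam ^ (-(5 / 2) : ℝ) ≤ L) :
    lam ^ (-(1 / 4) * d : ℝ) ≤ lam ^ (9 / 4 * d : ℝ) * (bx b L).card := by
  have h1 : (lam ^ (-(5 / 2) : ℝ)) ^ d ≤ ((bx b L).card : ℝ) := by
    rw [card_bx]
    push_cast
    apply pow_le_pow_left₀ (by positivity)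
    have : (0 : ℝ) ≤ L := Nat.cast_nonneg L
    linarith
  have h2 : lam ^ (-(1 / 4) * d : ℝ) = lam ^ (9 / 4 * d : ℝ) * (lam ^ (-(5 / 2) : ℝ)) ^ d := by
    rw [← Real.rpow_natCast (lam ^ (-(5 / 2) : ℝ)), ← Real.rpow_mul hlam.le, ← Real.rpow_add hlam]
    congr 1
    ring
  rw [h2]
  exact mul_le_mul_of_nonneg_left h1 (by positivity)

/-- the numbers -/
theorem num3 (d : ℕ) (hd : 2 ≤ d) (m : ℕ) : ∃ l0 : ℝ, 0 < l0 ∧ ∀ lam : ℝ, 0 < lam →
    lam ≤ l0 → ∃ R0 : ℕ, (∀ r : ℕ, (r : ℝ) ≤ lam ^ (-(2011 / 1000) : ℝ) → r ≤ R0) ∧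
      (R0 : ℝ) ≤ lam ^ (-(2011 / 1000) : ℝ) ∧ ∀ (b : Zd d) (L : ℕ), lam ^ (-(5 / 2) : ℝ) ≤ L →
      (R0 + 1 + m : ℝ) * Real.exp (-(lam ^ (11 / 5 * d : ℝ) * (bx b L).card)) ≤
        Real.exp (-(lam ^ (9 / 4 * d : ℝ) * (bx b L).card)) := by
  have hd2 : (2 : ℝ) ≤ d := by exact_mod_cast hd
  obtain ⟨l1, hl1, hs1⟩ := small_rpow (1 / 10) (1 / 2) (by norm_num) (by norm_num)
  obtain ⟨l2, hl2, hs2⟩ := small_rpow (489 / 1000) (1 / 9375) (by norm_num) (by norm_num)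
  obtain ⟨l3, hl3, hs3⟩ := small_rpow (5 / 2) (1 / (9375 * (m + 1))) (by norm_num) (by positivity)
  refine ⟨min (min l1 l2) (min l3 1), by positivity, ?_⟩
  intro lam hlam hlam0
  have b1 : lam ≤ l1 := hlam0.trans ((min_le_left _ _).trans (min_le_left _ _))
  have b2 : lam ≤ l2 := hlam0.trans ((min_le_left _ _).trans (min_le_right _ _))
  have b3 : lam ≤ l3 := hlam0.trans ((min_le_right _ _).trans (min_le_left _ _))
  have b5 : lam ≤ 1 := hlam0.trans ((min_le_right _ _).trans (min_le_right _ _))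
  obtain ⟨Y, hY⟩ : ∃ Y, Y = lam ^ (-(2011 / 1000) : ℝ) := ⟨_, rfl⟩
  have hY0 : 0 < Y := by rw [hY]; positivity
  obtain ⟨R0, hR0⟩ : ∃ R0 : ℕ, R0 = ⌊Y⌋₊ := ⟨_, rfl⟩
  have hR0Y : (R0 : ℝ) ≤ Y := by rw [hR0]; exact Nat.floor_le hY0.le
  refine ⟨R0, fun r hr => ?_, ?_, ?_⟩
  · rw [hR0]
    rw [← hY] at hr
    exact Nat.le_floor hr
  · rw [← hY]
    exact hR0Y
  · intro b L hL
    have hlow := card_low d lam hlam b L hL
    obtain ⟨x, hx⟩ : ∃ x, x = lam ^ (9 / 4 * d : ℝ) * ((bx b L).card : ℝ) := ⟨_, rfl⟩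
    have hx2 : 2 * x ≤ lam ^ (11 / 5 * d : ℝ) * ((bx b L).card : ℝ) := by
      have h1 : lam ^ (9 / 4 * d : ℝ) = lam ^ (1 / 20 * d : ℝ) * lam ^ (11 / 5 * d : ℝ) := by
        rw [← Real.rpow_add hlam]
        congr 1
        ring
      have h2 : lam ^ (1 / 20 * d : ℝ) ≤ 1 / 2 := by
        refine le_trans ?_ (hs1 lam hlam b1)
        exact Real.rpow_le_rpow_of_exponent_ge hlam b5 (by linarith)
      rw [hx, h1]
      calc 2 * (lam ^ (1 / 20 * d : ℝ) * lam ^ (11 / 5 * d : ℝ) * ((bx b L).card : ℝ)) =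
          (2 * lam ^ (1 / 20 * d : ℝ)) * (lam ^ (11 / 5 * d : ℝ) * ((bx b L).card : ℝ)) := by ring
        _ ≤ 1 * (lam ^ (11 / 5 * d : ℝ) * ((bx b L).card : ℝ)) := by
            refine mul_le_mul_of_nonneg_right ?_ (by positivity)
            linarith
        _ = _ := one_mul _
    rw [← hx] at hlow ⊢
    have hy : lam ^ (-(1 / 2) : ℝ) ≤ x := by
      refine le_trans ?_ hlow
      exact Real.rpow_le_rpow_of_exponent_ge hlam b5 (by linarith)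
    have hexp : lam ^ (-(5 / 2) : ℝ) / 3125 ≤ Real.exp x := by
      have h1 : Real.exp x = Real.exp (x / 5) ^ 5 := by
        rw [← Real.exp_nat_mul]
        congr 1
        push_cast
        ring
      have h2 : lam ^ (-(1 / 2) : ℝ) / 5 ≤ Real.exp (x / 5) := by
        have h3 := Real.add_one_le_exp (x / 5)
        have h4 : lam ^ (-(1 / 2) : ℝ) / 5 ≤ x / 5 := by linarith
        linarith
      rw [h1]
      refine le_trans (le_of_eq ?_) (pow_le_pow_left₀ (by positivity) h2 5)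
      rw [div_pow, ← Real.rpow_natCast (lam ^ (-(1 / 2) : ℝ)), ← Real.rpow_mul hlam.le]
      norm_num
    have hR : (R0 + 1 + m : ℝ) ≤ Real.exp x := by
      refine le_trans ?_ hexp
      obtain ⟨q, hq⟩ : ∃ q, q = lam ^ (-(5 / 2) : ℝ) := ⟨_, rfl⟩
      have hq0 : 0 < q := by rw [hq]; positivity
      have h1 : Y ≤ q / 9375 := by
        have h2 : Y = lam ^ (489 / 1000 : ℝ) * q := by
          rw [hY, hq, ← Real.rpow_add hlam]
          norm_num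
        have h3 := hs2 lam hlam b2
        rw [h2]
        calc lam ^ (489 / 1000 : ℝ) * q ≤ 1 / 9375 * q := by gcongr
          _ = q / 9375 := by ring
      have h2 : (m : ℝ) + 1 ≤ q / 9375 := by
        have h3 := hs3 lam hlam b3
        have h4 : lam ^ (5 / 2 : ℝ) * q = 1 := by
          rw [hq, ← Real.rpow_add hlam]
          norm_num
        rw [le_div_iff₀ (by positivity)] at h3
        have h5 : (m : ℝ) + 1 = (lam ^ (5 / 2 : ℝ) * (9375 * (m + 1))) * (q / 9375) := by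
          linear_combination (-((m : ℝ) + 1)) * h4
        calc (m : ℝ) + 1 = (lam ^ (5 / 2 : ℝ) * (9375 * (m + 1))) * (q / 9375) := h5
          _ ≤ 1 * (q / 9375) := by gcongr
          _ = _ := one_mul _
      rw [← hq]
      linarith
    calc (R0 + 1 + m : ℝ) * Real.exp (-(lam ^ (11 / 5 * d : ℝ) * (bx b L).card)) ≤
        Real.exp x * Real.exp (-(2 * x)) := by
          refine mul_le_mul hR ?_ (Real.exp_pos _).le (Real.exp_pos _).le
          apply Real.exp_le_exp.2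
          linarith
      _ = Real.exp (-x) := by
          rw [← Real.exp_add]
          congr 1
          ring

/-- **one box** -/
theorem oneBox (hAMPZ : S_AMPZ) (hABEL : S_ABEL) (hLIPK : S_LIPK) (hPLA : S_PLA) (hOPN : S_OPN)
    (hEXPK : S_EXPK) (hDROP : S_DROP) (hSPL : S_SPL) (hCUBE : S_CUBE) (hEXP : S_EXP)
    (d : ℕ) (hd : 2 ≤ d) (G0 G1 : ℝ → ℝ) (hF : FreeE d G0 G1) (μ : Measure ℝ)
    [IsProbabilityMeasure μ] (B0 : ℝ) (hB0 : 0 < B0) (hbd : ∀ᵐ s ∂μ, |s| ≤ B0)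
    (M V : ℝ) (hV0 : 0 < V) (h1 : Integrable (fun s => s) μ)
    (h2 : Integrable (fun s => (s - M) ^ 2) μ) (hM : ∫ s, s ∂μ = M)
    (hV : ∫ s, (s - M) ^ 2 ∂μ = V) (hT : Tail d μ M) (R : ℕ) (κ : ℝ) (hκ : 0 < κ)
    (ε : ℝ) (hε : 0 < ε) :
    ∃ l0 : ℝ, 0 < l0 ∧ ∀ lam : ℝ, 0 < lam → lam ≤ l0 →
    ∀ a0 : Zd d → ℝ, (∀ x, |a0 x| ≤ 1) → ∀ (b : Zd d) (L : ℕ), lam ^ (-(5 / 2) : ℝ) ≤ L →
    ∃ G : Set (Zd d → ℝ), MeasurableSet G ∧
      (Measure.infinitePi fun _ : Zd d => μ).real Gᶜ ≤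
        Real.exp (-(lam ^ (9 / 4 * d : ℝ) * (bx b L).card)) ∧
      ∀ ω ∈ G, Good d lam (211 / 100) ε a0 ω b L ∧
        (3 ≤ d → GoodP d R κ lam (211 / 100) ε a0 ω b L) := by
  obtain ⟨l1, hl1, hB⟩ := posA hLIPK hSPL hCUBE hEXP d hd G0 G1 hF μ M V hV0 h1 h2 hM hV hT ε hε
  obtain ⟨m, hm⟩ : ∃ m : ℕ, m = (bx (0 : Zd d) R).card := ⟨_, rfl⟩
  obtain ⟨l2, hl2, hnum⟩ := num3 d hd m
  have hmom : ∀ v : Zd d, ∃ l0 : ℝ, 0 < l0 ∧ ∀ lam : ℝ, 0 < lam → lam ≤ l0 →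
    ∀ a : Zd d → ℝ, (∀ x, |a x| ≤ 1) → ∀ (b : Zd d) (L : ℕ), lam ^ (-(5 / 2) : ℝ) ≤ L →
    ∃ G : Set (Zd d → ℝ), MeasurableSet G ∧
      (Measure.infinitePi fun _ : Zd d => μ).real Gᶜ ≤
        Real.exp (-(lam ^ (11 / 5 * d : ℝ) * (bx b L).card)) ∧
      (3 ≤ d → ∀ ω ∈ G, ∀ ρ : Zd d → ℝ, (∀ x, |ρ x| ≤ 1) →
      (∀ x y, |ρ x - ρ y| ≤ lam ^ (211 / 100 : ℝ) * ‖x - y‖) →
      ∀ (J : Type) (f : J → HS d), Orthonormal ℂ f → ∀ (E : J → ℝ),
      (∀ j x, ‖x - b‖ < L → -S (fun y => f j y) x + ((lam * ω x : ℝ) : ℂ) * f j x =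
        (E j : ℂ) * f j x) →
      ∀ s : Finset J, (∀ j ∈ s, |E j| ≤ 2 * d - κ) →
        ∑ j ∈ s, ‖∑ x ∈ bx b L, ((a x * ρ x : ℝ) : ℂ) * ((starRingEnd ℂ) (f j x) * f j (x + v) -
          ((Fr d v (-E j) * ‖f j x‖ ^ 2 : ℝ) : ℂ))‖ ^ 2 ≤ ε * (bx b L).card) := by
    intro v
    by_cases h3 : 3 ≤ d
    · obtain ⟨l0, hl0, h⟩ := momA hAMPZ hABEL hLIPK hPLA hOPN hEXPK hDROP hSPL d h3 μ B0 hB0 hbd
        M V hV0 h1 h2 hM hV hT v κ hκ ε hε
      refine ⟨l0, hl0, fun lam hlam hlam0 a ha b L hL => ?_⟩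
      obtain ⟨G, hG, hP, hGL⟩ := h lam hlam hlam0 a ha b L hL
      exact ⟨G, hG, hP, fun _ => hGL⟩
    · refine ⟨1, one_pos, fun lam hlam hlam0 a ha b L hL => ⟨Set.univ, MeasurableSet.univ, ?_,
        fun h => absurd h h3⟩⟩
      rw [Set.compl_univ, measureReal_empty]
      exact (Real.exp_pos _).le
  choose lv hlv hPv using hmom
  obtain ⟨l3, hl3, hl3v⟩ := fin_min (bx (0 : Zd d) R) lv hlv
  refine ⟨min l1 (min l2 l3), by positivity, ?_⟩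
  intro lam hlam hlam0 a0 ha0 b L hL
  have b1 : lam ≤ l1 := hlam0.trans (min_le_left _ _)
  have b2 : lam ≤ l2 := hlam0.trans ((min_le_right _ _).trans (min_le_left _ _))
  have b3 : lam ≤ l3 := hlam0.trans ((min_le_right _ _).trans (min_le_right _ _))
  obtain ⟨R0, hR0, hR0Y, hbd⟩ := hnum lam hlam b2
  have hex : ∀ (r : ℕ), ∃ G : Set (Zd d → ℝ), MeasurableSet G ∧
      (Measure.infinitePi fun _ : Zd d => μ).real Gᶜ ≤
        Real.exp (-(lam ^ (11 / 5 * d : ℝ) * (bx b L).card)) ∧ (r ≤ R0 →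
      ∀ ω ∈ G, ∀ ρ : Zd d → ℝ, (∀ x, |ρ x| ≤ 1) →
      (∀ x y, |ρ x - ρ y| ≤ lam ^ (211 / 100 : ℝ) * ‖x - y‖) →
      ∀ (J : Type) (f : J → HS d), Orthonormal ℂ f → ∀ (E : J → ℝ),
      (∀ j x, ‖x - b‖ < L → -S (fun y => f j y) x + ((lam * ω x : ℝ) : ℂ) * f j x =
        (E j : ℂ) * f j x) →
      ∀ s : Finset J,
        ∑ j ∈ s, (∑ x ∈ bx b L, (a0 x * ρ x - av r (fun y => a0 y * ρ y) x) *
          ‖f j x‖ ^ 2) ^ 2 ≤ ε * (bx b L).card) := by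
    intro r
    by_cases hr : r ≤ R0
    · obtain ⟨G, hG, hPG, hGL⟩ := hB lam hlam b1 a0 ha0 b L r hL
          (le_trans (by exact_mod_cast hr) hR0Y)
      exact ⟨G, hG, hPG, fun _ => hGL⟩
    · refine ⟨Set.univ, MeasurableSet.univ, ?_, fun h => absurd h hr⟩
      rw [Set.compl_univ, measureReal_empty]
      exact (Real.exp_pos _).le
  have hexv : ∀ (v : Zd d), ∃ G : Set (Zd d → ℝ), MeasurableSet G ∧
      (Measure.infinitePi fun _ : Zd d => μ).real Gᶜ ≤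
        Real.exp (-(lam ^ (11 / 5 * d : ℝ) * (bx b L).card)) ∧ (v ∈ bx (0 : Zd d) R →
      (3 ≤ d → ∀ ω ∈ G, ∀ ρ : Zd d → ℝ, (∀ x, |ρ x| ≤ 1) →
      (∀ x y, |ρ x - ρ y| ≤ lam ^ (211 / 100 : ℝ) * ‖x - y‖) →
      ∀ (J : Type) (f : J → HS d), Orthonormal ℂ f → ∀ (E : J → ℝ),
      (∀ j x, ‖x - b‖ < L → -S (fun y => f j y) x + ((lam * ω x : ℝ) : ℂ) * f j x =
        (E j : ℂ) * f j x) →
      ∀ s : Finset J, (∀ j ∈ s, |E j| ≤ 2 * d - κ) →
        ∑ j ∈ s, ‖∑ x ∈ bx b L, ((a0 x * ρ x : ℝ) : ℂ) *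
          ((starRingEnd ℂ) (f j x) * f j (x + v) -
          ((Fr d v (-E j) * ‖f j x‖ ^ 2 : ℝ) : ℂ))‖ ^ 2 ≤ ε * (bx b L).card)) := by
    intro v
    by_cases hr : v ∈ bx (0 : Zd d) R
    · obtain ⟨G, hG, hPG, hGL⟩ := hPv v lam hlam (b3.trans (hl3v v hr)) a0 ha0 b L hL
      exact ⟨G, hG, hPG, fun _ => hGL⟩
    · refine ⟨Set.univ, MeasurableSet.univ, ?_, fun h => absurd h hr⟩
      rw [Set.compl_univ, measureReal_empty]
      exact (Real.exp_pos _).le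
  choose Gr hGm hGP hGL using hex
  choose Gv hVm hVP hVL using hexv
  have hmI : MeasurableSet (⋂ r ∈ Finset.range (R0 + 1), Gr r) :=
    Finset.measurableSet_biInter _ fun r _ => hGm r
  have hmV : MeasurableSet (⋂ v ∈ bx (0 : Zd d) R, Gv v) :=
    Finset.measurableSet_biInter _ fun r _ => hVm r
  refine ⟨(⋂ r ∈ Finset.range (R0 + 1), Gr r) ∩ ⋂ v ∈ bx (0 : Zd d) R, Gv v,
    hmI.inter hmV, ?_, ?_⟩
  · refine le_trans ?_ (hbd b L hL)
    rw [Set.compl_inter]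
    refine (measureReal_union_le _ _).trans ?_
    have q1 : (Measure.infinitePi fun _ : Zd d => μ).real
        (⋂ r ∈ Finset.range (R0 + 1), Gr r)ᶜ ≤
        (R0 + 1 : ℝ) * Real.exp (-(lam ^ (11 / 5 * d : ℝ) * (bx b L).card)) := by
      simp only [Set.compl_iInter]
      refine (measureReal_biUnion_finset_le _ _).trans ?_
      refine (Finset.sum_le_sum fun r _ => hGP r).trans (le_of_eq ?_)
      rw [Finset.sum_const, Finset.card_range, nsmul_eq_mul]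
      push_cast
      rfl
    have q2 : (Measure.infinitePi fun _ : Zd d => μ).real
        (⋂ v ∈ bx (0 : Zd d) R, Gv v)ᶜ ≤
        (m : ℝ) * Real.exp (-(lam ^ (11 / 5 * d : ℝ) * (bx b L).card)) := by
      simp only [Set.compl_iInter]
      refine (measureReal_biUnion_finset_le _ _).trans ?_
      refine (Finset.sum_le_sum fun r _ => hVP r).trans (le_of_eq ?_)
      rw [Finset.sum_const, nsmul_eq_mul, hm]
    linarith
  intro ω hω
  refine ⟨?_, ?_⟩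
  · intro ρ hρ1 hρ2 r hr J f hf E he s
    have hrR := hR0 r hr
    have hωr : ω ∈ Gr r := Set.mem_iInter₂.1 hω.1 r (Finset.mem_range.2 (by omega))
    exact hGL r hrR ω hωr ρ hρ1 hρ2 J f hf E he s
  · intro h3 ρ hρ1 hρ2 v hv J f hf E he s hs
    have hvm : v ∈ bx (0 : Zd d) R := by
      rw [mem_bx', sub_zero]
      exact hv
    have hωv : ω ∈ Gv v := Set.mem_iInter₂.1 hω.2 v hvm
    exact hVL v hvm h3 ω hωv ρ hρ1 hρ2 J f hf E he s hs

end Pool.Agent.Q218.BE
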