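import Pool.Agent.Q218.BE.Blk

/-! The positions, for one box and one averaging radius. -/

set_option autoImplicit false
set_option linter.unusedSectionVars false

open scoped BigOperators Topology InnerProductSpace
open MeasureTheory Filter Set ProbabilityTheory

namespace Pool.Agent.Q218.BE

open Pool.Agent.W788.LD.Spec (S)
open Pool.Agent.H4R2.LO (Zd bx)
open Pool.Agent.H4R2.LO.Em (card_bx)
open Pool.Agent.TH794.QD (Sol HS hmk hmk_apply hs_sum)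
open Pool.Agent.Q218.AT
open Pool.Agent.Q218.AD (small_rpow)
open Pool.Agent.Q218.UD (exists_solU)
open Pool.Agent.Q218.LE (S_SPL S_CUBE S_EXP Tail av av_le av_sub FreeE exB)
open Pool.Agent.Q218.WE

/-- the numbers -/
theorem num2 (d n : ℕ) (hd : 1 ≤ d) (θ : ℝ) (hθ : 0 < θ) : ∃ l0 : ℝ, 0 < l0 ∧ l0 ≤ 1 ∧
    ∀ lam : ℝ, 0 < lam → lam ≤ l0 → ∀ ℓ : ℕ, ℓ = ⌈lam ^ (-(21 / 10) : ℝ)⌉₊ →
    ∀ L : ℕ, lam ^ (-(5 / 2) : ℝ) ≤ L → n ≤ ℓ ∧ ℓ ≤ L ∧
      (∀ r : ℕ, (r : ℝ) ≤ lam ^ (-(2011 / 1000) : ℝ) → lam ^ (211 / 100 : ℝ) * (r + ℓ) ≤ θ) ∧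
      d * (2 * (2 * (ℓ : ℝ) + 1) / (2 * L + 1)) + d * (2 * n / (2 * (ℓ : ℝ) + 1)) ≤ θ := by
  have hd0 : (0 : ℝ) < d := by exact_mod_cast hd
  obtain ⟨l1, hl1, hs1⟩ := small_rpow (1 / 100) (θ / 3) (by norm_num) (by positivity)
  obtain ⟨l2, hl2, hs2⟩ := small_rpow (4 / 10) (min (1 / 2) (θ / (10 * d))) (by norm_num)
    (by positivity)
  obtain ⟨l3, hl3, hs3⟩ := small_rpow (21 / 10) (min 1 (θ / (2 * d)) / (n + 1)) (by norm_num)
    (by positivity)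
  refine ⟨min (min l1 l2) (min l3 1), by positivity, (min_le_right _ _).trans (min_le_right _ _),
    ?_⟩
  intro lam hlam hlam0 ℓ hℓ L hL
  have b1 : lam ≤ l1 := hlam0.trans ((min_le_left _ _).trans (min_le_left _ _))
  have b2 : lam ≤ l2 := hlam0.trans ((min_le_left _ _).trans (min_le_right _ _))
  have b3 : lam ≤ l3 := hlam0.trans ((min_le_right _ _).trans (min_le_left _ _))
  have b5 : lam ≤ 1 := hlam0.trans ((min_le_right _ _).trans (min_le_right _ _))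
  obtain ⟨k1, k2, k3⟩ := ell_le lam hlam b5
  rw [← hℓ] at k1 k2 k3
  obtain ⟨x, hx⟩ : ∃ x, x = lam ^ (-(21 / 10) : ℝ) := ⟨_, rfl⟩
  rw [← hx] at k1 k2
  have hx1 : 1 ≤ x := by
    rw [hx]
    exact Real.one_le_rpow_of_pos_of_le_one_of_nonpos hlam b5 (by norm_num)
  have hL0 : (0 : ℝ) < lam ^ (-(5 / 2) : ℝ) := by positivity
  have hLp : (0 : ℝ) < L := hL0.trans_le hL
  have hxeq : x = lam ^ (4 / 10 : ℝ) * lam ^ (-(5 / 2) : ℝ) := by
    rw [hx, ← Real.rpow_add hlam]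
    norm_num
  have h2 := hs2 lam hlam b2
  have h2a : lam ^ (4 / 10 : ℝ) ≤ 1 / 2 := h2.trans (min_le_left _ _)
  have h2b : lam ^ (4 / 10 : ℝ) ≤ θ / (10 * d) := h2.trans (min_le_right _ _)
  have hxL : 2 * x ≤ L := by
    refine le_trans ?_ hL
    rw [hxeq]
    nlinarith
  have hxL2 : x ≤ θ / (10 * d) * L := by
    rw [hxeq]
    gcongr
  have h3 := hs3 lam hlam b3
  have h3x : (n : ℝ) + 1 ≤ min 1 (θ / (2 * d)) * x := by
    rw [le_div_iff₀ (by positivity)] at h3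
    have h6 : lam ^ (21 / 10 : ℝ) * x = 1 := by
      rw [hx, ← Real.rpow_add hlam]
      norm_num
    calc (n : ℝ) + 1 = (lam ^ (21 / 10 : ℝ) * (n + 1)) * x := by
          linear_combination (-((n : ℝ) + 1)) * h6
      _ ≤ _ := by gcongr
  have hm1 : min 1 (θ / (2 * (d : ℝ))) ≤ 1 := min_le_left _ _
  have hm2 : min 1 (θ / (2 * (d : ℝ))) ≤ θ / (2 * d) := min_le_right _ _
  have hn1 : (n : ℝ) + 1 ≤ ℓ := by
    refine h3x.trans ?_
    calc min 1 (θ / (2 * (d : ℝ))) * x ≤ 1 * x := by gcongr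
      _ ≤ _ := by rw [one_mul]; exact k1
  have hn2 : (n : ℝ) ≤ θ / (2 * d) * ℓ := by
    have : min 1 (θ / (2 * (d : ℝ))) * x ≤ θ / (2 * d) * ℓ := by gcongr
    linarith
  refine ⟨?_, ?_, ?_, ?_⟩
  · have : (n : ℝ) ≤ ℓ := by linarith
    exact_mod_cast this
  · have : (ℓ : ℝ) ≤ L := k2.trans hxL
    exact_mod_cast this
  · intro r hr
    have h1 := hs1 lam hlam b1
    have e1 : lam ^ (211 / 100 : ℝ) * lam ^ (-(21 / 10) : ℝ) = lam ^ (1 / 100 : ℝ) := by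
      rw [← Real.rpow_add hlam]
      norm_num
    have e2 : lam ^ (-(2011 / 1000) : ℝ) ≤ lam ^ (-(21 / 10) : ℝ) :=
      Real.rpow_le_rpow_of_exponent_ge hlam b5 (by norm_num)
    calc lam ^ (211 / 100 : ℝ) * (r + ℓ) ≤ lam ^ (211 / 100 : ℝ) *
        (3 * lam ^ (-(21 / 10) : ℝ)) := by
          gcongr
          rw [← hx] at e2 ⊢
          linarith
      _ = 3 * (lam ^ (211 / 100 : ℝ) * lam ^ (-(21 / 10) : ℝ)) := by ring
      _ ≤ θ := by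
          rw [e1]
          linarith
  · have q1 : d * (2 * (2 * (ℓ : ℝ) + 1) / (2 * L + 1)) ≤ θ / 2 := by
      have q2 : 2 * (2 * (ℓ : ℝ) + 1) / (2 * L + 1) ≤ θ / (2 * d) := by
        rw [div_le_iff₀ (by positivity)]
        have q3 : 2 * (2 * (ℓ : ℝ) + 1) ≤ 10 * x := by linarith
        have q4 : θ / (2 * d) * (2 * (L : ℝ) + 1) = 10 * (θ / (10 * d) * L) + θ / (2 * d) := by
          field_simp
        rw [q4]
        have : 0 < θ / (2 * (d : ℝ)) := by positivity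
        linarith
      calc d * (2 * (2 * (ℓ : ℝ) + 1) / (2 * L + 1)) ≤ d * (θ / (2 * d)) := by gcongr
        _ = θ / 2 := by field_simp
    have q2 : d * (2 * n / (2 * (ℓ : ℝ) + 1)) ≤ θ / 2 := by
      have q3 : 2 * (n : ℝ) / (2 * (ℓ : ℝ) + 1) ≤ θ / (2 * d) := by
        rw [div_le_iff₀ (by positivity)]
        have : 0 < θ / (2 * (d : ℝ)) := by positivity
        linarith
      calc d * (2 * n / (2 * (ℓ : ℝ) + 1)) ≤ d * (θ / (2 * d)) := by gcongr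
        _ = θ / 2 := by field_simp
    linarith

variable {d : ℕ}

theorem Bo_zero {V : Zd d → ℝ} {ψ : Zd d → ℝ → Zd d → ℂ} (hψ : ∀ a, Sol d V a (ψ a))
    (Λ : Finset (Zd d)) (c : Zd d → ℂ) : Bo hψ {0} (fun _ => 1) Λ c = Ob hψ Λ c := by
  funext t
  unfold Bo Ob
  refine Finset.sum_congr rfl fun x _ => ?_
  rw [Finset.sum_singleton, one_smul, add_zero]
  rfl

/-- the sum over one block -/
theorem blkP (q : Zd d) (ℓ : ℕ) (g : HS d) (c : Zd d → ℝ) :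
    ∑ x ∈ bx q ℓ, ((c x : ℝ) : ℂ) * ((starRingEnd ℂ) (cut (bx q (ℓ - 1)) g x) *
      cv {0} (fun _ => 1) (fun y => cut (bx q (ℓ - 1)) g y) x) =
      ∑ x ∈ bx q (ℓ - 1), ((c x * ‖g x‖ ^ 2 : ℝ) : ℂ) := by
  rw [← Finset.sum_subset (bx_sub q ℓ 1)]
  · refine Finset.sum_congr rfl fun x hx => ?_
    have e : cv {0} (fun _ => 1) (fun y => cut (bx q (ℓ - 1)) g y) x = g x := by
      unfold cv
      rw [Finset.sum_singleton, one_mul, add_zero]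
      exact cut_mem g hx
    rw [e, cut_mem g hx, ← Complex.normSq_eq_conj_mul_self, Complex.normSq_eq_norm_sq]
    push_cast
    ring
  · intro x _ hx
    rw [cut_apply, if_neg hx, map_zero, zero_mul, mul_zero]

/-- **the positions, one box** -/
theorem posA (hLIPK : S_LIPK) (hSPL : S_SPL) (hCUBE : S_CUBE) (hEXP : S_EXP)
    (d : ℕ) (hd : 2 ≤ d) (G0 G1 : ℝ → ℝ)
    (hF : FreeE d G0 G1) (μ : Measure ℝ)
    [IsProbabilityMeasure μ] (M V : ℝ) (hV0 : 0 < V) (h1 : Integrable (fun s => s) μ)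
    (h2 : Integrable (fun s => (s - M) ^ 2) μ) (hM : ∫ s, s ∂μ = M)
    (hV : ∫ s, (s - M) ^ 2 ∂μ = V) (hT : Tail d μ M) (ε : ℝ) (hε : 0 < ε) :
    ∃ l0 : ℝ, 0 < l0 ∧ ∀ lam : ℝ, 0 < lam → lam ≤ l0 →
    ∀ a : Zd d → ℝ, (∀ x, |a x| ≤ 1) → ∀ (b : Zd d) (L r : ℕ), lam ^ (-(5 / 2) : ℝ) ≤ L →
    (r : ℝ) ≤ lam ^ (-(2011 / 1000) : ℝ) →
    ∃ G : Set (Zd d → ℝ), MeasurableSet G ∧
      (Measure.infinitePi fun _ : Zd d => μ).real Gᶜ ≤
        Real.exp (-(lam ^ (11 / 5 * d : ℝ) * (bx b L).card)) ∧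
      ∀ ω ∈ G, ∀ ρ : Zd d → ℝ, (∀ x, |ρ x| ≤ 1) →
      (∀ x y, |ρ x - ρ y| ≤ lam ^ (211 / 100 : ℝ) * ‖x - y‖) →
      ∀ (J : Type) (f : J → HS d), Orthonormal ℂ f → ∀ (E : J → ℝ),
      (∀ j x, ‖x - b‖ < L → -S (fun y => f j y) x + ((lam * ω x : ℝ) : ℂ) * f j x =
        (E j : ℂ) * f j x) →
      ∀ s : Finset J,
        ∑ j ∈ s, (∑ x ∈ bx b L, (a x * ρ x - av r (fun y => a y * ρ y) x) * ‖f j x‖ ^ 2) ^ 2 ≤
          ε * (bx b L).card := by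
  have hd1 : 1 ≤ d := by omega
  obtain ⟨θ, hθ⟩ : ∃ θ, θ = min 1 (ε / 32) := ⟨_, rfl⟩
  have hθ0 : 0 < θ := by rw [hθ]; positivity
  have hθ1 : θ ≤ 1 := by rw [hθ]; exact min_le_left _ _
  have hθ2 : 16 * θ ≤ ε / 2 := by
    have h3 : θ ≤ ε / 32 := by rw [hθ]; exact min_le_right _ _
    linarith
  obtain ⟨l1, hl1, hex⟩ := exB hCUBE hEXP d hd G0 G1 hF μ M V hV0 h1 h2 hM hV hT (ε / 16 / 8)
    (by positivity)
  obtain ⟨l2, hl2, hco⟩ := core hLIPK hSPL d hd1 μ {0} (fun _ => 1) (ε / 16) (by positivity)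
  obtain ⟨l3, hl3, hl31, hnum⟩ := num2 d 1 hd1 θ hθ0
  refine ⟨min l1 (min l2 l3), by positivity, ?_⟩
  intro lam hlam hlam0 a ha b L r hL hr
  have b1 : lam ≤ l1 := hlam0.trans (min_le_left _ _)
  have b2 : lam ≤ l2 := hlam0.trans ((min_le_right _ _).trans (min_le_left _ _))
  have b3 : lam ≤ l3 := hlam0.trans ((min_le_right _ _).trans (min_le_right _ _))
  obtain ⟨T, hTd⟩ : ∃ T, T = lam ^ (-(2024 / 1000) : ℝ) := ⟨_, rfl⟩
  obtain ⟨ℓ, hℓ⟩ : ∃ ℓ : ℕ, ℓ = ⌈lam ^ (-(21 / 10) : ℝ)⌉₊ := ⟨_, rfl⟩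
  obtain ⟨k1, k2, k3⟩ := ell_le lam hlam (b3.trans hl31)
  rw [← hℓ] at k1 k2 k3
  obtain ⟨hn1, hℓL, hrl, hbd⟩ := hnum lam hlam b3 ℓ hℓ L hL
  choose ψ hψ using fun (ω : Zd d → ℝ) (y : Zd d) =>
    exists_solU hd1 (fun x => lam * ω x) y
  obtain ⟨c, hc⟩ : ∃ c : Zd d → ℂ, c = fun x => (((a x - av r a x) / 2 : ℝ) : ℂ) := ⟨_, rfl⟩
  have hc1 : ∀ x, ‖c x‖ ≤ 1 := by
    intro x
    rw [hc]
    simp only
    rw [Complex.norm_real, Real.norm_eq_abs, abs_div, abs_of_pos (by norm_num : (0 : ℝ) < 2),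
      div_le_one (by norm_num)]
    have h3 := abs_sub (a x) (av r a x)
    have h4 := ha x
    have h5 := av_le r a x 1 fun y _ => ha y
    linarith
  obtain ⟨G, hG, hPG, hGL⟩ := hco lam hlam b2 T hTd ℓ hℓ ψ hψ (fun _ => c) (fun _ => hc1)
    (fun q => by
      obtain ⟨i1, i2⟩ := hex lam hlam b1 T hTd ψ hψ a ha q ℓ r k1 hr c hc
      refine ⟨_, fun ω => ?_, i1, i2⟩
      rw [Bo_zero, Ob_sq hd1]) b L hL
  refine ⟨G, hG, hPG, ?_⟩
  intro ω hω ρ hρ1 hρ2 J f hf E he s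
  obtain ⟨m, hm⟩ : ∃ m, m = (L - ℓ) / (2 * ℓ + 1) := ⟨_, rfl⟩
  have key := hGL ω hω (fun k => ρ (ctr b ℓ k)) (fun k => hρ1 _) J f hf E he s
  rw [← hm] at key
  obtain ⟨U, hU⟩ : ∃ U, U = inn b ℓ m 1 := ⟨_, rfl⟩
  have hmL : m * (2 * ℓ + 1) + ℓ ≤ L := by
    have h4 := Nat.div_mul_le_self (L - ℓ) (2 * ℓ + 1)
    rw [← hm] at h4
    omega
  have hUL : U ⊆ bx b L := by
    rw [hU]
    exact (inn_sub b ℓ m 1 L hmL hn1).trans (bx_sub b L 1)
  have hUc : ((bx b L \ U).card : ℝ) ≤ θ * (bx b L).card := by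
    have h3 := inn_card b ℓ 1 L hℓL hn1
    rw [← hm, ← hU, ← add_mul] at h3
    exact h3.trans (mul_le_mul_of_nonneg_right hbd (Nat.cast_nonneg _))
  -- the core sum
  obtain ⟨A, hA⟩ : ∃ A : J → ℝ, A = fun j => ∑ x ∈ U,
    (rt b ℓ ρ x * ((a x - av r a x) / 2)) * ‖f j x‖ ^ 2 := ⟨_, rfl⟩
  have hAj : ∀ j, ∑ k ∈ bx (0 : Zd d) m, ∑ x ∈ bx (ctr b ℓ k) ℓ,
      ((ρ (ctr b ℓ k) : ℂ) * c x) * ((starRingEnd ℂ) (cut (bx (ctr b ℓ k) (ℓ - 1)) (f j) x) *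
        cv {0} (fun _ => 1) (fun y => cut (bx (ctr b ℓ k) (ℓ - 1)) (f j) y) x) =
      ((A j : ℝ) : ℂ) := by
    intro j
    have e1 : ((A j : ℝ) : ℂ) = ∑ x ∈ inn b ℓ m 1,
        (((rt b ℓ ρ x * ((a x - av r a x) / 2)) * ‖f j x‖ ^ 2 : ℝ) : ℂ) := by
      rw [hA, hU]
      push_cast
      rfl
    rw [e1, inn_sum]
    refine Finset.sum_congr rfl fun k _ => ?_
    have e2 := blkP (ctr b ℓ k) ℓ (f j) (fun x => rt b ℓ ρ x * ((a x - av r a x) / 2))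
    rw [← e2]
    refine Finset.sum_congr rfl fun x hx => ?_
    congr 1
    rw [rt_mem b ℓ ρ k x hx, hc]
    push_cast
    ring
  simp only [hAj] at key
  -- the remainder
  obtain ⟨D, hD⟩ : ∃ D : Zd d → ℝ, D = fun x => (a x * ρ x - av r (fun y => a y * ρ y) x) -
    if x ∈ U then rt b ℓ ρ x * (a x - av r a x) else 0 := ⟨_, rfl⟩
  have hDU : ∀ x ∈ U, |D x| ≤ 2 * θ := by
    intro x hx
    have e1 : D x = a x * (ρ x - rt b ℓ ρ x) -
        av r (fun y => a y * (ρ y - rt b ℓ ρ x)) x := by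
      have e2 : av r (fun y => a y * (ρ y - rt b ℓ ρ x)) x =
          av r (fun y => a y * ρ y) x - rt b ℓ ρ x * av r a x := by
        unfold av
        have e3 : ∀ y, a y * (ρ y - rt b ℓ ρ x) = a y * ρ y - rt b ℓ ρ x * a y := fun y => by ring
        simp only [e3]
        rw [Finset.sum_sub_distrib, ← Finset.mul_sum]
        ring
      rw [hD, e2]
      simp only [if_pos hx]
      ring
    have hy : ∀ y ∈ bx x r, |a y * (ρ y - rt b ℓ ρ x)| ≤ θ := by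
      intro y hy
      rw [abs_mul]
      rw [mem_bx'] at hy
      have e2 := rt_le b ℓ ρ (lam ^ (211 / 100 : ℝ)) hρ2 (by positivity) x y
      calc |a y| * |ρ y - rt b ℓ ρ x| ≤ 1 * (lam ^ (211 / 100 : ℝ) * (‖y - x‖ + ℓ)) :=
            mul_le_mul (ha y) e2 (abs_nonneg _) zero_le_one
        _ ≤ 1 * (lam ^ (211 / 100 : ℝ) * (r + ℓ)) := by gcongr
        _ ≤ θ := by
            rw [one_mul]
            exact hrl r hr
    rw [e1]
    refine (abs_sub _ _).trans ?_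
    have e3 := av_le r (fun y => a y * (ρ y - rt b ℓ ρ x)) x θ hy
    have e4 := hy x (by
      rw [mem_bx', sub_self, norm_zero]
      exact Nat.cast_nonneg r)
    linarith
  have hDx : ∀ x, x ∉ U → |D x| ≤ 2 := by
    intro x hx
    rw [hD]
    simp only [if_neg hx, sub_zero]
    have hb : ∀ y, |a y * ρ y| ≤ 1 := fun y => by
      rw [abs_mul]
      exact mul_le_one₀ (ha y) (abs_nonneg _) (hρ1 y)
    have e3 := av_le r (fun y => a y * ρ y) x 1 fun y _ => hb y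
    have e4 := abs_sub (a x * ρ x) (av r (fun y => a y * ρ y) x)
    have e5 := hb x
    linarith
  have hDs : ∑ x ∈ bx b L, D x ^ 2 ≤ 8 * θ * (bx b L).card := by
    rw [← Finset.sum_sdiff hUL]
    have e1 : ∑ x ∈ bx b L \ U, D x ^ 2 ≤ 4 * ((bx b L \ U).card : ℝ) := by
      have e2 : ∀ x ∈ bx b L \ U, D x ^ 2 ≤ 4 := by
        intro x hx
        have e3 := pow_le_pow_left₀ (abs_nonneg _) (hDx x (Finset.mem_sdiff.1 hx).2) 2
        rw [sq_abs] at e3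
        linarith
      refine (Finset.sum_le_sum e2).trans (le_of_eq ?_)
      rw [Finset.sum_const, nsmul_eq_mul, mul_comm]
    have e2 : ∑ x ∈ U, D x ^ 2 ≤ 4 * θ * (bx b L).card := by
      have e3 : ∀ x ∈ U, D x ^ 2 ≤ 4 * θ := by
        intro x hx
        have e4 := pow_le_pow_left₀ (abs_nonneg _) (hDU x hx) 2
        rw [sq_abs] at e4
        nlinarith
      refine (Finset.sum_le_sum e3).trans ?_
      rw [Finset.sum_const, nsmul_eq_mul, mul_comm]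
      refine mul_le_mul_of_nonneg_left ?_ (by positivity)
      exact_mod_cast Finset.card_le_card hUL
    linarith
  have hB : ∀ j ∈ s, (∑ x ∈ bx b L, (a x * ρ x - av r (fun y => a y * ρ y) x) *
      ‖f j x‖ ^ 2) ^ 2 ≤ 8 * ‖((A j : ℝ) : ℂ)‖ ^ 2 +
        2 * (∑ x ∈ bx b L, D x * ‖f j x‖ ^ 2) ^ 2 := by
    intro j _
    have e1 : ∑ x ∈ bx b L, (a x * ρ x - av r (fun y => a y * ρ y) x) * ‖f j x‖ ^ 2 =
        2 * A j + ∑ x ∈ bx b L, D x * ‖f j x‖ ^ 2 := by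
      have e2 : 2 * A j = ∑ x ∈ bx b L, (if x ∈ U then rt b ℓ ρ x * (a x - av r a x) else 0) *
          ‖f j x‖ ^ 2 := by
        rw [hA, Finset.mul_sum, ← Finset.sum_subset hUL]
        · refine Finset.sum_congr rfl fun x hx => ?_
          rw [if_pos hx]
          ring
        · intro x _ hx
          rw [if_neg hx, zero_mul]
      rw [e2, ← Finset.sum_add_distrib]
      refine Finset.sum_congr rfl fun x _ => ?_
      rw [hD]
      ring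
    rw [e1, Complex.norm_real, Real.norm_eq_abs, sq_abs]
    have e3 := sq_help2 (2 * A j) (∑ x ∈ bx b L, D x * ‖f j x‖ ^ 2)
    linarith
  refine (Finset.sum_le_sum hB).trans ?_
  rw [Finset.sum_add_distrib, ← Finset.mul_sum, ← Finset.mul_sum]
  have e1 := D_sum f hf s (bx b L) D
  obtain ⟨Nc, hNc⟩ : ∃ Nc : ℝ, Nc = (bx b L).card := ⟨_, rfl⟩
  rw [← hNc] at key hDs ⊢
  have hNc0 : 0 ≤ Nc := by rw [hNc]; exact Nat.cast_nonneg _
  have e2 : 16 * θ * Nc ≤ ε / 2 * Nc := mul_le_mul_of_nonneg_right hθ2 hNc0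
  linarith

end Pool.Agent.Q218.BE
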